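import Mathlib
import Pool.Agent.TH658.Eq.Newt

/-!
# Traces and ranks
-/

set_option autoImplicit false

open Module LinearMap Polynomial

universe v

namespace Pool.Agent.K9h22.Eul

section

variable {K : Type} [Field K] {V : Type v} [AddCommGroup V] [Module K V] [Module.Finite K V]

lemma trace_of_surjective {U : Type v} [AddCommGroup U] [Module K U] [Module.Finite K U]
    (p : V →ₗ[K] U) (hp : Function.Surjective p) (c : V →ₗ[K] V) (a : U →ₗ[K] U)
    (h : p ∘ₗ c = a ∘ₗ p) (S : Submodule K V) (hS : ∀ x, x ∈ S ↔ p x = 0)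
    (hc : ∀ x ∈ S, c x ∈ S) :
    trace K V c = trace K U a + trace K S (c.restrict hc) := by
  obtain ⟨s, hs⟩ := p.exists_rightInverse_of_surjective (LinearMap.range_eq_top.2 hp)
  have h1 : c = (c ∘ₗ s) ∘ₗ p + c ∘ₗ (LinearMap.id - s ∘ₗ p) := by
    rw [LinearMap.comp_sub, LinearMap.comp_id, LinearMap.comp_assoc]
    abel
  have h2 : trace K V ((c ∘ₗ s) ∘ₗ p) = trace K U a := by
    rw [LinearMap.trace_comp_comm', ← LinearMap.comp_assoc, h, LinearMap.comp_assoc, hs,
      LinearMap.comp_id]
  have h3 : ∀ x, (c ∘ₗ (LinearMap.id - s ∘ₗ p)) x ∈ S := by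
    intro x
    rw [LinearMap.comp_apply]
    apply hc
    rw [hS, LinearMap.sub_apply, LinearMap.id_apply, LinearMap.comp_apply, map_sub]
    have := LinearMap.congr_fun hs (p x)
    rw [LinearMap.comp_apply, LinearMap.id_apply] at this
    rw [this, sub_self]
  have h4 : trace K V (c ∘ₗ (LinearMap.id - s ∘ₗ p)) = trace K S (c.restrict hc) := by
    rw [← LinearMap.trace_restrict_eq_of_forall_mem S _ h3]
    congr 1
    apply LinearMap.ext
    rintro ⟨x, hx⟩
    apply Subtype.ext
    rw [LinearMap.coe_restrict_apply, LinearMap.coe_restrict_apply, LinearMap.comp_apply,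
      LinearMap.sub_apply, LinearMap.id_apply, LinearMap.comp_apply, (hS x).1 hx, map_zero,
      sub_zero]
  conv_lhs => rw [h1]
  rw [map_add, h2, h4]

lemma charpoly_of_traces [CharZero K] (T : V →ₗ[K] V) (r : ℕ) (hr : r ≤ finrank K V)
    (h : ∀ n, 1 ≤ n → trace K V (T ^ n) = r) :
    T.charpoly = (X - 1) ^ r * X ^ (finrank K V - r) := by
  classical
  set m := finrank K V with hm
  set b := Module.finBasis K V with hb
  set A := LinearMap.toMatrix b b T with hA
  set d : Fin m → K := fun i => if i.1 < r then 1 else 0 with hd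
  have hcard : ∀ f : K → K, ∑ i : Fin m, f (d i) = r * f 1 + (m - r : ℕ) * f 0 := by
    intro f
    have e1 : ∀ i : Fin m, f (d i) = if i.1 < r then f 1 else f 0 := by
      intro i
      rw [hd]
      dsimp only
      split_ifs <;> rfl
    rw [Finset.sum_congr rfl fun i _ => e1 i, Fin.sum_univ_eq_sum_range
      (fun i => if i < r then f 1 else f 0) m]
    have e2 : m = r + (m - r) := by omega
    conv_lhs => rw [e2]
    rw [Finset.sum_range_add]
    congr 1
    · rw [Finset.sum_congr rfl fun i hi => if_pos (Finset.mem_range.1 hi), Finset.sum_const,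
        Finset.card_range, nsmul_eq_mul]
    · rw [Finset.sum_congr rfl fun i _ => if_neg (by omega), Finset.sum_const,
        Finset.card_range, nsmul_eq_mul]
  have hch : A.charpoly = (Matrix.diagonal d).charpoly := by
    apply Pool.Agent.TH658.Eq.charpoly_eq_of_traces
    intro k
    rcases Nat.eq_zero_or_pos k with rfl | hk
    · rw [pow_zero, pow_zero]
    · have e1 : A ^ k = LinearMap.toMatrix b b (T ^ k) := by
        rw [hA, LinearMap.toMatrix_pow]
      rw [e1, ← LinearMap.trace_eq_matrix_trace K b, h k hk, Matrix.diagonal_pow,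
        Matrix.trace_diagonal]
      have e2 := hcard (fun x => x ^ k)
      simp only [one_pow, mul_one, zero_pow hk.ne', mul_zero, add_zero] at e2
      rw [← e2]
      rfl
  have h1 : T.charpoly = A.charpoly := (LinearMap.charpoly_toMatrix T b).symm
  rw [h1, hch, Matrix.charpoly_of_isUpperTriangular _ (Matrix.blockTriangular_diagonal d)]
  have e1 : ∀ i : Fin m, (X - C (Matrix.diagonal d i i) : K[X]) =
      if i.1 < r then X - 1 else X := by
    intro i
    rw [Matrix.diagonal_apply_eq, hd]
    dsimp only
    split_ifs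
    · rw [map_one]
    · rw [map_zero, sub_zero]
  rw [Finset.prod_congr rfl fun i _ => e1 i, Fin.prod_univ_eq_prod_range
    (fun i => if i < r then (X - 1 : K[X]) else X) m]
  have e2 : m = r + (m - r) := by omega
  conv_lhs => rw [e2]
  rw [Finset.prod_range_add]
  congr 1
  · rw [Finset.prod_congr rfl fun i hi => if_pos (Finset.mem_range.1 hi), Finset.prod_const,
      Finset.card_range]
  · rw [Finset.prod_congr rfl fun i _ => if_neg (by omega), Finset.prod_const,
      Finset.card_range]

lemma finrank_genEigen [CharZero K] (T : V →ₗ[K] V) (r : ℕ) (hr : r ≤ finrank K V)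
    (h : ∀ n, 1 ≤ n → trace K V (T ^ n) = r) :
    finrank K (Module.End.maxGenEigenspace T 1) = r := by
  rw [LinearMap.finrank_maxGenEigenspace_eq, charpoly_of_traces T r hr h]
  have h0 : ((X - 1 : K[X]) ^ r * X ^ (finrank K V - r)) ≠ 0 :=
    mul_ne_zero (pow_ne_zero _ (by
      rw [← C_1]
      exact X_sub_C_ne_zero 1)) (pow_ne_zero _ X_ne_zero)
  rw [rootMultiplicity_mul h0]
  have e1 : rootMultiplicity (1 : K) ((X - 1 : K[X]) ^ r) = r := by
    rw [← C_1, rootMultiplicity_X_sub_C_pow]
  have e2 : rootMultiplicity (1 : K) (X ^ (finrank K V - r) : K[X]) = 0 := by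
    apply rootMultiplicity_eq_zero
    rw [IsRoot.def, eval_pow, eval_X, one_pow]
    exact one_ne_zero
  rw [e1, e2, add_zero]

/-- If the traces of the powers of `T` are all equal to `r` then the rank of `T` is at least `r`, and
in the case of equality the generalised eigenspace for the eigenvalue `1` is the range. -/
lemma rank_of_traces [CharZero K] (T : V →ₗ[K] V) (r : ℕ) (hr : r ≤ finrank K V)
    (h : ∀ n, 1 ≤ n → trace K V (T ^ n) = r) :
    r ≤ finrank K (LinearMap.range T) ∧ (finrank K (LinearMap.range T) ≤ r →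
      ∀ k, finrank K V ≤ k → (T ∘ₗ ((1 - T) ^ k : Module.End K V)) = 0) := by
  set S := Module.End.maxGenEigenspace T 1 with hS
  have hdim : finrank K S = r := finrank_genEigen T r hr h
  have hk : ∀ k, finrank K V ≤ k → ∀ x ∈ S, ((1 - T) ^ k : Module.End K V) x = 0 := by
    intro k hk x hx
    rw [hS, Module.End.maxGenEigenspace_eq_genEigenspace_finrank,
      Module.End.mem_genEigenspace_nat] at hx
    rw [LinearMap.mem_ker, one_smul] at hx
    have e1 : ((1 - T) ^ k : Module.End K V) =
        (1 - T) ^ (k - finrank K V) * (-1) ^ (finrank K V) * (T - 1) ^ (finrank K V) := by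
      rw [mul_assoc, ← (Commute.neg_one_left (T - 1)).mul_pow, ← neg_eq_neg_one_mul, neg_sub,
        ← pow_add]
      congr 1
      omega
    rw [e1, Module.End.mul_apply, hx, map_zero]
  have hinj : ∀ x ∈ S, T x = 0 → x = 0 := by
    intro x hx h0
    have h1 := hk _ le_rfl x hx
    have h2 : ∀ k, ((1 - T) ^ k : Module.End K V) x = x := by
      intro k
      induction k with
      | zero => rfl
      | succ k ih =>
        rw [pow_succ, Module.End.mul_apply, LinearMap.sub_apply, Module.End.one_apply, h0,
          sub_zero, ih]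
    rw [h2] at h1
    exact h1
  have hmap : ∀ x ∈ S, T x ∈ S := by
    intro x hx
    exact Module.End.mapsTo_maxGenEigenspace_of_comm (Commute.refl T) 1 hx
  have hle : S.map T ≤ LinearMap.range T := LinearMap.map_le_range
  have hfr : finrank K (S.map T) = r := by
    rw [← hdim]
    have : Function.Injective (T.domRestrict S) := by
      rw [← LinearMap.ker_eq_bot, LinearMap.ker_eq_bot']
      rintro ⟨x, hx⟩ h0
      apply Subtype.ext
      exact hinj x hx h0
    rw [← LinearMap.range_domRestrict]
    exact LinearMap.finrank_range_of_inj this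
  refine ⟨?_, ?_⟩
  · rw [← hfr]
    exact Submodule.finrank_mono hle
  · intro hle' k hk'
    have h1 : S.map T = LinearMap.range T :=
      Submodule.eq_of_le_of_finrank_le hle (by rw [hfr]; exact hle')
    have h2 : ∀ x, T x ∈ S := by
      intro x
      have : T x ∈ S.map T := by
        rw [h1]
        exact ⟨x, rfl⟩
      obtain ⟨y, hy, hxy⟩ := this
      rw [← hxy]
      exact hmap y hy
    have h3 : (T ∘ₗ ((1 - T) ^ k : Module.End K V)) = ((1 - T) ^ k : Module.End K V) ∘ₗ T := by
      have : Commute T ((1 - T) ^ k) := ((Commute.one_right T).sub_right (Commute.refl T)).pow_right k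
      exact this.eq
    rw [h3]
    apply LinearMap.ext
    intro x
    exact hk k hk' _ (h2 x)

end

section

variable {K : Type} [Field K] [CharZero K] {A B : Type v} [AddCommGroup A] [Module K A]
  [Module.Finite K A] [AddCommGroup B] [Module K B] [Module.Finite K B]

omit [CharZero K] in
lemma trace_pow_comm (d : A →ₗ[K] B) (h : B →ₗ[K] A) (n : ℕ) (hn : 1 ≤ n) :
    trace K B ((d ∘ₗ h) ^ n) = trace K A ((h ∘ₗ d) ^ n) := by
  obtain ⟨n, rfl⟩ : ∃ m, n = m + 1 := ⟨n - 1, by omega⟩
  have h1 : ∀ n, ((d ∘ₗ h) ^ (n + 1) : Module.End K B) = d ∘ₗ ((h ∘ₗ d) ^ n : Module.End K A) ∘ₗ h := by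
    intro n
    induction n with
    | zero => rfl
    | succ n ih =>
      rw [pow_succ, ih]
      apply LinearMap.ext
      intro x
      simp only [Module.End.mul_apply, LinearMap.comp_apply, pow_succ]
  rw [h1, LinearMap.trace_comp_comm']
  congr 1

/-- The projectors given by a generalised inverse up to nilpotent elements. -/
lemma projectors (d : A →ₗ[K] B) (h : B →ₗ[K] A) (r : ℕ)
    (htr : ∀ n, 1 ≤ n → trace K A ((h ∘ₗ d) ^ n) = r) (hr : finrank K (LinearMap.range d) = r)
    (k : ℕ) (hkA : finrank K A ≤ k) (hkB : finrank K B ≤ k) :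
    (∀ x, d (((1 - h ∘ₗ d) ^ k : Module.End K A) x) = 0) ∧
    (∀ x, d x = 0 → ((1 - h ∘ₗ d) ^ k : Module.End K A) x = x) ∧
    (∀ x, ((1 - d ∘ₗ h) ^ k : Module.End K B) (d x) = 0) ∧
    (∀ x, x - ((1 - d ∘ₗ h) ^ k : Module.End K B) x ∈ LinearMap.range d) := by
  have hrA : r ≤ finrank K A := by
    rw [← hr]
    exact LinearMap.finrank_range_le d
  have hrB : r ≤ finrank K B := by
    rw [← hr]
    exact Submodule.finrank_le _
  have hrT : finrank K (LinearMap.range (h ∘ₗ d)) ≤ r := by
    rw [← hr, LinearMap.range_comp]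
    exact Submodule.finrank_map_le _ _
  have hrT' : finrank K (LinearMap.range (d ∘ₗ h)) ≤ r := by
    rw [← hr]
    exact Submodule.finrank_mono (LinearMap.range_comp_le_range _ _)
  obtain ⟨a1, a2⟩ := rank_of_traces (h ∘ₗ d) r hrA htr
  obtain ⟨b1, b2⟩ := rank_of_traces (d ∘ₗ h) r hrB (fun n hn => by
    rw [trace_pow_comm d h n hn, htr n hn])
  have hker : LinearMap.ker d = LinearMap.ker (h ∘ₗ d) := by
    apply Submodule.eq_of_le_of_finrank_le (LinearMap.ker_le_ker_comp _ _)
    have e1 := LinearMap.finrank_range_add_finrank_ker d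
    have e2 := LinearMap.finrank_range_add_finrank_ker (h ∘ₗ d)
    omega
  have hran : LinearMap.range (d ∘ₗ h) = LinearMap.range d := by
    apply Submodule.eq_of_le_of_finrank_le (LinearMap.range_comp_le_range _ _)
    omega
  refine ⟨?_, ?_, ?_, ?_⟩
  · intro x
    have h1 := LinearMap.congr_fun (a2 hrT k hkA) x
    have h2 : ((1 - h ∘ₗ d) ^ k : Module.End K A) x ∈ LinearMap.ker (h ∘ₗ d) := h1
    rw [← hker] at h2
    exact h2
  · intro x hx
    clear hkA hkB
    induction k with
    | zero => rfl
    | succ k ih =>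
      rw [pow_succ, Module.End.mul_apply, LinearMap.sub_apply, Module.End.one_apply,
        LinearMap.comp_apply, hx, map_zero, sub_zero, ih]
  · intro x
    have h1 : d x ∈ LinearMap.range (d ∘ₗ h) := by
      rw [hran]
      exact ⟨x, rfl⟩
    obtain ⟨y, hy⟩ := h1
    have h2 := LinearMap.congr_fun (b2 hrT' k hkB) y
    have hc : Commute (d ∘ₗ h : Module.End K B) ((1 - d ∘ₗ h) ^ k) :=
      ((Commute.one_right (d ∘ₗ h : Module.End K B)).sub_right (Commute.refl _)).pow_right k
    have h3 := LinearMap.congr_fun hc.eq y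
    rw [Module.End.mul_apply, Module.End.mul_apply] at h3
    rw [← hy, ← h3]
    exact h2
  · intro x
    clear hkA hkB
    induction k with
    | zero =>
      rw [pow_zero, Module.End.one_apply, sub_self]
      exact Submodule.zero_mem _
    | succ k ih =>
      rw [pow_succ', Module.End.mul_apply, LinearMap.sub_apply, Module.End.one_apply,
        LinearMap.comp_apply]
      have e1 : ∀ u : B, x - (u - d (h u)) = (x - u) + d (h u) := by
        intro u
        abel
      rw [e1]
      exact Submodule.add_mem _ ih ⟨_, rfl⟩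

end

end Pool.Agent.K9h22.Eul
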