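import Mathlib

/-!
# Rational solutions of systems of linear equations from solutions in cohomology
-/

set_option autoImplicit false

namespace Pool.Agent.K9h22.Lift

/-- Retractions of `K` onto `ℚ`. -/
lemma ret_mul' {K : Type*} [Field K] [CharZero K] (ret : K →ₗ[ℚ] ℚ) (q : ℚ) (c : K) :
    ret (c * (q : K)) = ret c * q := by
  have h1 : c * (q : K) = q • c := by
    rw [Algebra.smul_def, mul_comm]
    rfl
  rw [h1, map_smul, smul_eq_mul, mul_comm]

/-- Coefficients of a sum of vectors with coefficients in an extension of `ℚ`. -/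
lemma sum_smul_zero {K : Type*} [Field K] [CharZero K] {V : Type*} [AddCommGroup V]
    [Module K V] {m : ℕ} (c : Fin m → K) (x : Fin m → V)
    (h : ∀ ret : K →ₗ[ℚ] ℚ, ∑ i, ((ret (c i) : ℚ) : K) • x i = 0) : ∑ i, c i • x i = 0 := by
  classical
  set b := Module.Basis.ofVectorSpace ℚ K with hb
  set s : Finset _ := Finset.univ.biUnion (fun i => (b.repr (c i)).support) with hs
  have hc : ∀ i, c i = ∑ j ∈ s, ((b.repr (c i) j : ℚ) : K) * b j := by
    intro i
    have h1 := b.linearCombination_repr (c i)
    rw [Finsupp.linearCombination_apply, Finsupp.sum] at h1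
    have h2 : ∑ j ∈ (b.repr (c i)).support, ((b.repr (c i) j : ℚ) : K) * b j =
        ∑ j ∈ s, ((b.repr (c i) j : ℚ) : K) * b j := by
      apply Finset.sum_subset
      · intro j hj
        rw [hs, Finset.mem_biUnion]
        exact ⟨i, Finset.mem_univ _, hj⟩
      · intro j _ hj
        rw [Finsupp.notMem_support_iff] at hj
        rw [hj, Rat.cast_zero, zero_mul]
    rw [← h2]
    conv_lhs => rw [← h1]
    apply Finset.sum_congr rfl
    intro j _
    rw [Algebra.smul_def]; rfl
  have h2 : ∑ i, c i • x i = ∑ j ∈ s, b j • ∑ i, ((b.repr (c i) j : ℚ) : K) • x i := by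
    conv_lhs =>
      enter [2, i]
      rw [hc i, Finset.sum_smul]
    rw [Finset.sum_comm]
    apply Finset.sum_congr rfl
    intro j _
    rw [Finset.smul_sum]
    apply Finset.sum_congr rfl
    intro i _
    rw [smul_smul, mul_comm]
  rw [h2]
  apply Finset.sum_eq_zero
  intro j _
  have := h (b.coord j)
  simp only [Module.Basis.coord_apply] at this
  rw [this, smul_zero]

/-- Representation of functionals. -/
lemma exists_rep {K : Type*} [Field K] {V V' : Type*} [AddCommGroup V] [Module K V]
    [AddCommGroup V'] [Module K V'] [Module.Finite K V'] (b : V →ₗ[K] V' →ₗ[K] K) (S : Submodule K V)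
    (S' : Submodule K V') (x : V) (h : ∀ γ ∈ S', (∀ w ∈ S, b w γ = 0) → b x γ = 0) :
    ∃ w ∈ S, ∀ γ ∈ S', b w γ = b x γ := by
  set B : V →ₗ[K] Module.Dual K S' := (LinearMap.lcomp K K S'.subtype) ∘ₗ b with hB
  have hBa : ∀ w (γ : S'), B w γ = b w γ := fun w γ => rfl
  set Φ := S.map B with hΦ
  have h1 : B x ∈ Φ.dualCoannihilator.dualAnnihilator := by
    rw [Submodule.mem_dualAnnihilator]
    intro γ hγ
    rw [Submodule.mem_dualCoannihilator] at hγ
    apply h _ γ.2
    intro w hw
    rw [← hBa]
    exact hγ _ (Submodule.mem_map_of_mem hw)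
  rw [Subspace.dualCoannihilator_dualAnnihilator_eq, hΦ, Submodule.mem_map] at h1
  obtain ⟨w, hw, hw'⟩ := h1
  refine ⟨w, hw, fun γ hγ => ?_⟩
  exact congrArg (fun F => F (⟨γ, hγ⟩ : S')) hw'

/-- **Rational solutions from cohomological ones.** Let `b` be a bilinear form with rational values on
rational vector spaces `F` and `G`, which is computed by a form `P` on finite dimensional vector spaces over
`K`. If the elements `g` of `G` which are orthogonal to `F` have image zero in cohomology, then a functional
on `G` which is given by a cohomology class is given by an element of `F`. -/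
theorem exists_rational {K : Type*} [Field K] [CharZero K] {F G V V' : Type*} [AddCommGroup F]
    [Module ℚ F] [AddCommGroup G] [Module ℚ G] [AddCommGroup V] [Module K V] [AddCommGroup V']
    [Module K V'] [Module.Finite K V'] (b : F →ₗ[ℚ] G →ₗ[ℚ] ℚ) (P : V →ₗ[K] V' →ₗ[K] K) (α : F →+ V)
    (β : G →+ V') (hb : ∀ f g, P (α f) (β g) = (b f g : K)) (x : V) (l : G → ℚ)
    (hl : ∀ g, P x (β g) = (l g : K)) (hD : ∀ g, (∀ f, b f g = 0) → β g = 0) :
    ∃ f, ∀ g, b f g = l g := by
  classical
  obtain ⟨w, hw, hw'⟩ := exists_rep P (Submodule.span K (Set.range α))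
    (Submodule.span K (Set.range β)) x (by
    intro γ hγ horth
    rw [Submodule.mem_span_set'] at hγ
    obtain ⟨m, c, y, hy⟩ := hγ
    choose g hg using fun i => (y i).2
    have hy' : γ = ∑ i, c i • β (g i) := by
      rw [← hy]
      exact Finset.sum_congr rfl fun i _ => by rw [hg]
    have h0 : γ = 0 := by
      rw [hy']
      refine sum_smul_zero c _ fun ret => ?_
      have h1 : ∑ i, ((ret (c i) : ℚ) : K) • β (g i) = β (∑ i, ret (c i) • g i) := by
        rw [map_sum]
        refine Finset.sum_congr rfl fun i _ => ?_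
        have := map_ratCast_smul β ℚ K (ret (c i)) (g i)
        rw [Rat.cast_id] at this
        exact this.symm
      rw [h1]
      apply hD
      intro f
      have h2 := horth (α f) (Submodule.subset_span ⟨f, rfl⟩)
      rw [hy', map_sum] at h2
      have h3 := congrArg ret h2
      rw [map_zero, map_sum] at h3
      rw [map_sum, ← h3]
      refine Finset.sum_congr rfl fun i _ => ?_
      rw [map_smul, map_smul, hb, smul_eq_mul, smul_eq_mul, ret_mul']
    rw [h0, map_zero])
  rw [Submodule.mem_span_set'] at hw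
  obtain ⟨m, c, y, hy⟩ := hw
  choose f hf using fun i => (y i).2
  have hy' : w = ∑ i, c i • α (f i) := by
    rw [← hy]
    exact Finset.sum_congr rfl fun i _ => by rw [hf]
  obtain ⟨ret, hret⟩ : ∃ ret : K →ₗ[ℚ] ℚ, ret 1 = 1 := by
    obtain ⟨g, hg⟩ := LinearMap.exists_leftInverse_of_injective (Algebra.linearMap ℚ K)
      (LinearMap.ker_eq_bot.2 (algebraMap ℚ K).injective)
    refine ⟨g, ?_⟩
    have := LinearMap.congr_fun hg 1
    simpa using this
  refine ⟨∑ i, ret (c i) • f i, fun g => ?_⟩
  have h1 := hw' (β g) (Submodule.subset_span ⟨g, rfl⟩)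
  rw [hl, hy', map_sum, LinearMap.sum_apply] at h1
  have h2 := congrArg ret h1
  have h3 : ret ((l g : ℚ) : K) = l g := by
    have := ret_mul' ret (l g) 1
    rwa [one_mul, hret, one_mul] at this
  rw [h3, map_sum] at h2
  rw [map_sum, LinearMap.sum_apply, ← h2]
  refine Finset.sum_congr rfl fun i _ => ?_
  rw [map_smul, map_smul, LinearMap.smul_apply, LinearMap.smul_apply, hb, smul_eq_mul, smul_eq_mul,
    ret_mul']

end Pool.Agent.K9h22.Lift
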