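import Pool.Agent.K9h22.EulDefs
import Pool.Agent.K9h22.EulA
import Pool.Agent.K9h22.LiftA

/-!
# Generalised inverses of correspondences
-/

set_option autoImplicit false

open Module LinearMap

universe u v

namespace Pool.Agent.K9h22.Eul

variable {C : Corr.{u}}

/-- powers of a correspondence -/
def pw {i : C.Term} (f : C.Hom i i) : ℕ → C.Hom i i
  | 0 => C.one i
  | n + 1 => C.comp (pw f n) f

section

variable {K : Type} [Field K] {R : Coh.{u, v} C K} (hR : IsCoh R)

include hR

lemma act_pw {i : C.Term} (f : C.Hom i i) (n : ℕ) :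
    R.act (pw f n) = ((R.act f) ^ n : Module.End K (R.H i)) := by
  induction n with
  | zero =>
    rw [pw, hR.one, pow_zero]
    rfl
  | succ n ih =>
    rw [pw, hR.comp, ih, pow_succ']
    rfl

lemma act_pw_sub {i : C.Term} (f : C.Hom i i) (n : ℕ) :
    R.act (pw (C.one i - f) n) = ((1 - R.act f) ^ n : Module.End K (R.H i)) := by
  rw [act_pw hR, map_sub, hR.one]
  rfl

lemma finrank_eq [CharZero K] (i : C.Term) : (finrank K (R.H i) : ℚ) = C.tr i (C.one i) := by
  have h1 := hR.tr i (C.one i)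
  rw [hR.one, LinearMap.trace_id] at h1
  exact_mod_cast h1

end

/-- generalised inverses of linear maps -/
lemma exists_ginv {K : Type} [Field K] {A B : Type v} [AddCommGroup A] [Module K A]
    [AddCommGroup B] [Module K B] (f : A →ₗ[K] B) : ∃ x : B →ₗ[K] A, f ∘ₗ x ∘ₗ f = f := by
  obtain ⟨s, hs⟩ := f.rangeRestrict.exists_rightInverse_of_surjective f.range_rangeRestrict
  obtain ⟨p, hp⟩ := (LinearMap.range f).subtype.exists_leftInverse_of_injective
    (Submodule.ker_subtype _)
  refine ⟨s ∘ₗ p, LinearMap.ext fun a => ?_⟩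
  have h1 : p (f a) = f.rangeRestrict a := LinearMap.congr_fun hp (f.rangeRestrict a)
  have h2 := LinearMap.congr_fun hs (f.rangeRestrict a)
  rw [LinearMap.comp_apply, LinearMap.comp_apply, LinearMap.comp_apply, h1]
  have h3 := congrArg Subtype.val h2
  exact h3

/-- **Algebraic generalised inverses.** If homological and numerical equivalence coincide for the
cohomology `R` then every correspondence `f` has a generalised inverse `g` with rational
coefficients; in particular all intersection numbers of the powers of `f` followed by `g` are equal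
to the rank of `f`. -/
theorem exists_inverse {K : Type} [Field K] [CharZero K] {R : Coh.{u, v} C K} (hR : IsCoh R)
    (hD : HomEqNum R) {i j : C.Term} (f : C.Hom i j) :
    ∃ g : C.Hom j i, ∀ n, 1 ≤ n →
      C.tr i (pw (C.comp f g) n) = (finrank K (LinearMap.range (R.act f)) : ℚ) := by
  obtain ⟨x, hx⟩ := exists_ginv (R.act f)
  -- the bilinear form `b g h = tr (g f h f)`
  set b : C.Hom j i →ₗ[ℚ] C.Hom j i →ₗ[ℚ] ℚ :=
    LinearMap.mk₂ ℚ (fun g h => C.tr j (C.comp (C.comp (C.comp g f) h) f))
      (fun g g' h => by simp only [map_add, LinearMap.add_apply])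
      (fun c g h => by simp only [map_smul, LinearMap.smul_apply])
      (fun g h h' => by simp only [map_add, LinearMap.add_apply])
      (fun c g h => by simp only [map_smul, LinearMap.smul_apply]) with hb
  have hba : ∀ g h, b g h = C.tr j (C.comp (C.comp (C.comp g f) h) f) := fun g h => rfl
  set P : (R.H j →ₗ[K] R.H i) →ₗ[K] (R.H i →ₗ[K] R.H j) →ₗ[K] K :=
    LinearMap.mk₂ K (fun x y => trace K (R.H j) (y ∘ₗ x))
      (fun x x' y => by rw [LinearMap.comp_add, map_add])
      (fun c x y => by rw [LinearMap.comp_smul, map_smul])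
      (fun x y y' => by rw [LinearMap.add_comp, map_add])
      (fun c x y => by rw [LinearMap.smul_comp, map_smul]) with hP
  have hPa : ∀ x y, P x y = trace K (R.H j) (y ∘ₗ x) := fun x y => rfl
  set β : C.Hom j i →+ (R.H i →ₗ[K] R.H j) :=
    { toFun := fun h => R.act f ∘ₗ R.act h ∘ₗ R.act f
      map_zero' := by rw [map_zero, LinearMap.zero_comp, LinearMap.comp_zero]
      map_add' := fun h h' => by rw [map_add, LinearMap.add_comp, LinearMap.comp_add] } with hβ
  have hβa : ∀ h, β h = R.act f ∘ₗ R.act h ∘ₗ R.act f := fun h => rfl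
  have hbtr : ∀ g h, (b g h : K) = trace K (R.H j) (R.act f ∘ₗ R.act h ∘ₗ R.act f ∘ₗ R.act g) := by
    intro g h
    rw [hba, ← hR.tr, hR.comp, hR.comp, hR.comp]
  have hcast : ∀ a b : ℚ, (a : K) = (b : K) → a = b := fun a b h => Rat.cast_injective h
  obtain ⟨g, hg⟩ := Lift.exists_rational b P R.act β (by
      intro g h
      rw [hPa, hβa, hbtr]
      rfl) x (fun h => C.tr j (C.comp h f)) (by
      intro h
      rw [hPa, hβa, ← hR.tr, hR.comp]
      have e1 : (R.act f ∘ₗ R.act h ∘ₗ R.act f) ∘ₗ x = (R.act f ∘ₗ R.act h) ∘ₗ (R.act f ∘ₗ x) := rfl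
      rw [e1, LinearMap.trace_comp_comm']
      congr 1
      have e2 : (R.act f ∘ₗ x) ∘ₗ R.act f ∘ₗ R.act h = (R.act f ∘ₗ x ∘ₗ R.act f) ∘ₗ R.act h := rfl
      rw [e2, hx]) (by
      intro h h0
      rw [hβa]
      have h1 := hD i j (C.comp (C.comp f h) f) (by
        intro g
        apply hcast
        rw [← hR.tr, hR.comp, hR.comp, hR.comp]
        have h2 := h0 g
        have h3 := hbtr g h
        rw [h2] at h3
        rw [Rat.cast_zero] at h3 ⊢
        rw [h3, LinearMap.trace_comp_comm']
        rfl)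
      rw [hR.comp, hR.comp] at h1
      exact h1)
  have hfg : R.act f ∘ₗ R.act g ∘ₗ R.act f = R.act f := by
    have h1 := hD i j (C.comp (C.comp f g) f - f) (by
      intro h
      have h2 := hg h
      have h3 := hbtr g h
      have h4 := hR.tr j (C.comp h f)
      rw [map_sub, LinearMap.sub_apply, map_sub, sub_eq_zero]
      apply hcast
      rw [← hR.tr, ← hR.tr, hR.comp, hR.comp, hR.comp, hR.comp]
      have e1 : trace K (R.H i) (R.act h ∘ₗ R.act f ∘ₗ R.act g ∘ₗ R.act f) =
          trace K (R.H j) (R.act f ∘ₗ R.act h ∘ₗ R.act f ∘ₗ R.act g) := by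
        have e2 : R.act h ∘ₗ R.act f ∘ₗ R.act g ∘ₗ R.act f =
          (R.act h ∘ₗ R.act f ∘ₗ R.act g) ∘ₗ R.act f := rfl
        rw [e2, LinearMap.trace_comp_comm']
      rw [e1, ← h3, h2, ← h4, hR.comp, LinearMap.trace_comp_comm'])
    rw [map_sub, hR.comp, hR.comp, sub_eq_zero] at h1
    exact h1
  refine ⟨g, fun n hn => ?_⟩
  apply hcast
  rw [← hR.tr, act_pw hR, hR.comp]
  obtain ⟨n, rfl⟩ : ∃ m, n = m + 1 := ⟨n - 1, by omega⟩
  have hidem : (R.act g ∘ₗ R.act f) ∘ₗ (R.act g ∘ₗ R.act f) = R.act g ∘ₗ R.act f := by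
    have : (R.act g ∘ₗ R.act f) ∘ₗ (R.act g ∘ₗ R.act f) = R.act g ∘ₗ (R.act f ∘ₗ R.act g ∘ₗ R.act f) :=
      rfl
    rw [this, hfg]
  have hpow : ((R.act g ∘ₗ R.act f) ^ (n + 1) : Module.End K (R.H i)) = R.act g ∘ₗ R.act f := by
    induction n with
    | zero => rw [zero_add, pow_one]
    | succ n ih =>
      rw [pow_succ, ih (by omega)]
      exact hidem
  rw [hpow]
  have hproj : LinearMap.IsProj (LinearMap.range (R.act g ∘ₗ R.act f)) (R.act g ∘ₗ R.act f) := by
    refine ⟨fun x => ⟨x, rfl⟩, ?_⟩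
    rintro _ ⟨y, rfl⟩
    exact LinearMap.congr_fun hidem y
  rw [hproj.trace]
  have hfr : finrank K (LinearMap.range (R.act g ∘ₗ R.act f)) =
      finrank K (LinearMap.range (R.act f)) := by
    apply le_antisymm
    · rw [LinearMap.range_comp]
      exact Submodule.finrank_map_le _ _
    · conv_lhs => rw [← hfg]
      rw [LinearMap.range_comp]
      exact Submodule.finrank_map_le _ _
  rw [hfr]
  push_cast
  rfl

/-- `g` is a generalised inverse of `f` of rank `r`, up to numerical equivalence. -/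
def Inv {i j : C.Term} (f : C.Hom i j) (g : C.Hom j i) (r : ℕ) : Prop :=
  ∀ n, 1 ≤ n → C.tr i (pw (C.comp f g) n) = (r : ℚ)

section

variable {K : Type} [Field K] [CharZero K] {R : Coh.{u, v} C K} (hR : IsCoh R)

include hR

omit [CharZero K] in
lemma Inv.trace {i j : C.Term} {f : C.Hom i j} {g : C.Hom j i} {r : ℕ} (h : Inv f g r) (n : ℕ)
    (hn : 1 ≤ n) :
    LinearMap.trace K (R.H i) ((R.act g ∘ₗ R.act f) ^ n : Module.End K (R.H i)) = (r : K) := by
  have h1 := hR.tr i (pw (C.comp f g) n)
  rw [h n hn, act_pw hR, hR.comp] at h1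
  rw [h1]
  push_cast
  rfl

lemma Inv.le {i j : C.Term} {f : C.Hom i j} {g : C.Hom j i} {r : ℕ} (h : Inv f g r)
    (hr : (r : ℚ) ≤ C.tr i (C.one i)) : r ≤ finrank K (LinearMap.range (R.act f)) := by
  rw [← finrank_eq hR] at hr
  have h1 := (rank_of_traces (R.act g ∘ₗ R.act f) r (by exact_mod_cast hr)
    (fun n hn => h.trace hR n hn)).1
  refine h1.trans ?_
  rw [LinearMap.range_comp]
  exact Submodule.finrank_map_le _ _

end

/-- **The rank of a correspondence does not drop.** If homological and numerical equivalence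
coincide for `R₀`, then the rank of a correspondence in any other cohomology is at least its rank
in `R₀`. -/
theorem rank_le {K₀ K : Type} [Field K₀] [CharZero K₀] [Field K] [CharZero K]
    {R₀ : Coh.{u, v} C K₀} {R : Coh.{u, v} C K} (hR₀ : IsCoh R₀) (hR : IsCoh R)
    (hD : HomEqNum R₀) {i j : C.Term} (f : C.Hom i j) :
    finrank K₀ (LinearMap.range (R₀.act f)) ≤ finrank K (LinearMap.range (R.act f)) := by
  obtain ⟨g, hg⟩ := exists_inverse hR₀ hD f
  have h : Inv f g (finrank K₀ (LinearMap.range (R₀.act f))) := hg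
  refine h.le hR ?_
  rw [← finrank_eq hR₀]
  exact_mod_cast LinearMap.finrank_range_le (R₀.act f)

end Pool.Agent.K9h22.Eul
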