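import Pool.Agent.K9h22.EulDefs
import Pool.Agent.K9h22.EulA
import Pool.Agent.K9h22.EulB

/-!
# The traces on the weight filtration
-/

set_option autoImplicit false

open Module LinearMap

universe u v

namespace Pool.Agent.K9h22.Eul

section

variable {K : Type} [Field K] {V U : Type v} [AddCommGroup V] [Module K V] [Module.Finite K V]
  [AddCommGroup U] [Module K U] [Module.Finite K U]

omit [Module.Finite K V] [Module.Finite K U] in
lemma trace_of_bijective (q : V →ₗ[K] U) (hq : Function.Bijective q) (c : V →ₗ[K] V)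
    (a : U →ₗ[K] U) (h : q ∘ₗ c = a ∘ₗ q) : trace K V c = trace K U a := by
  set e := LinearEquiv.ofBijective q hq with he
  rw [← LinearMap.trace_conj' c e]
  congr 1
  apply LinearMap.ext
  intro u
  rw [LinearEquiv.conj_apply, LinearMap.comp_apply, LinearMap.comp_apply]
  have h1 := LinearMap.congr_fun h (e.symm u)
  rw [LinearMap.comp_apply, LinearMap.comp_apply] at h1
  have h2 : q (e.symm u) = u := e.apply_symm_apply u
  rw [h2] at h1
  exact h1

/-- Traces on a linear relation. -/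
lemma trace_rel (Γ : Submodule K (V × U)) (b : V →ₗ[K] V) (g : U →ₗ[K] U)
    (hΓ : ∀ x ∈ Γ, (b.prodMap g) x ∈ Γ) (S : Submodule K V) (hS : ∀ x ∈ Γ, x.1 ∈ S)
    (hS' : ∀ s ∈ S, ∃ x ∈ Γ, x.1 = s) (T : Submodule K U) (hT : ∀ y, (0, y) ∈ Γ ↔ y ∈ T)
    (hb : ∀ x ∈ S, b x ∈ S) (hg : ∀ y ∈ T, g y ∈ T) :
    trace K Γ ((b.prodMap g).restrict hΓ) =
      trace K S (b.restrict hb) + trace K T (g.restrict hg) := by
  set p : Γ →ₗ[K] S := LinearMap.codRestrict S (LinearMap.fst K V U ∘ₗ Γ.subtype)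
    (fun x => hS x.1 x.2) with hp
  have hpa : ∀ x : Γ, (p x : V) = x.1.1 := fun x => rfl
  have hps : Function.Surjective p := by
    rintro ⟨s, hs⟩
    obtain ⟨x, hx, hxs⟩ := hS' s hs
    exact ⟨⟨x, hx⟩, Subtype.ext hxs⟩
  set Z : Submodule K Γ := LinearMap.ker p with hZ
  have hZm : ∀ x : Γ, x ∈ Z ↔ x.1.1 = 0 := by
    intro x
    rw [hZ, LinearMap.mem_ker]
    exact ⟨fun h => by rw [← hpa, h]; rfl, fun h => Subtype.ext h⟩
  have hc : ∀ x ∈ Z, ((b.prodMap g).restrict hΓ) x ∈ Z := by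
    intro x hx
    rw [hZm] at hx ⊢
    rw [LinearMap.coe_restrict_apply]
    change b x.1.1 = 0
    rw [hx, map_zero]
  rw [trace_of_surjective p hps ((b.prodMap g).restrict hΓ) (b.restrict hb) (by
    apply LinearMap.ext
    intro x
    apply Subtype.ext
    rfl) Z (fun x => Iff.rfl) hc]
  congr 1
  set q : Z →ₗ[K] T := LinearMap.codRestrict T (LinearMap.snd K V U ∘ₗ Γ.subtype ∘ₗ Z.subtype)
    (fun x => by
      rw [← hT]
      have h1 := (hZm x.1).1 x.2
      have h2 : (((0 : V), (LinearMap.snd K V U ∘ₗ Γ.subtype ∘ₗ Z.subtype) x) : V × U) = x.1.1 :=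
        Prod.ext h1.symm rfl
      rw [h2]
      exact x.1.2) with hq
  have hqa : ∀ x : Z, (q x : U) = x.1.1.2 := fun x => rfl
  have hbij : Function.Bijective q := by
    constructor
    · intro x y hxy
      apply Subtype.ext
      apply Subtype.ext
      apply Prod.ext
      · rw [(hZm x.1).1 x.2, (hZm y.1).1 y.2]
      · rw [← hqa, ← hqa, hxy]
    · rintro ⟨y, hy⟩
      exact ⟨⟨⟨(0, y), (hT y).2 hy⟩, (hZm _).2 rfl⟩, Subtype.ext rfl⟩
  have key := trace_of_bijective (V := Z) (U := T) q hbij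
    (((b.prodMap g).restrict hΓ).restrict hc) (g.restrict hg) (by
      apply LinearMap.ext
      intro x
      apply Subtype.ext
      rfl)
  exact key

/-- Traces on a linear relation, second form. -/
lemma trace_rel' (Γ : Submodule K (V × U)) (b : V →ₗ[K] V) (g : U →ₗ[K] U)
    (hΓ : ∀ x ∈ Γ, (b.prodMap g) x ∈ Γ) (S : Submodule K U) (hS : ∀ x ∈ Γ, x.2 ∈ S)
    (hS' : ∀ s ∈ S, ∃ x ∈ Γ, x.2 = s) (T : Submodule K V) (hT : ∀ y, (y, 0) ∈ Γ ↔ y ∈ T)
    (hb : ∀ x ∈ T, b x ∈ T) (hg : ∀ y ∈ S, g y ∈ S) :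
    trace K Γ ((b.prodMap g).restrict hΓ) =
      trace K S (g.restrict hg) + trace K T (b.restrict hb) := by
  set Γ' : Submodule K (U × V) := Γ.map (LinearEquiv.prodComm K V U).toLinearMap with hΓ'
  have hmem : ∀ x : U × V, x ∈ Γ' ↔ (x.2, x.1) ∈ Γ := by
    intro x
    rw [hΓ', Submodule.mem_map]
    constructor
    · rintro ⟨y, hy, rfl⟩
      exact hy
    · intro h
      exact ⟨_, h, rfl⟩
  have hst : ∀ x ∈ Γ', (g.prodMap b) x ∈ Γ' := by
    intro x hx
    rw [hmem] at hx ⊢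
    exact hΓ _ hx
  rw [← trace_rel Γ' g b hst S (fun x hx => hS _ ((hmem x).1 hx)) (by
    intro s hs
    obtain ⟨x, hx, hxs⟩ := hS' s hs
    exact ⟨(x.2, x.1), (hmem _).2 hx, hxs⟩) T (by
    intro y
    rw [hmem]
    exact hT y) hg hb]
  set q : Γ →ₗ[K] Γ' := LinearMap.codRestrict Γ' ((LinearEquiv.prodComm K V U).toLinearMap ∘ₗ
    Γ.subtype) (fun x => (hmem _).2 x.2) with hq
  apply trace_of_bijective q
  · constructor
    · intro x y hxy
      apply Subtype.ext
      have h1 := congrArg Subtype.val hxy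
      exact (LinearEquiv.prodComm K V U).injective h1
    · rintro ⟨x, hx⟩
      exact ⟨⟨(x.2, x.1), (hmem _).1 hx⟩, Subtype.ext rfl⟩
  · apply LinearMap.ext
    intro x
    apply Subtype.ext
    rfl

lemma trace_restrict_of_maps (f : V →ₗ[K] V) {S T : Submodule K V} (h : T ≤ S)
    (hS : ∀ x ∈ S, f x ∈ S) (hT : ∀ x ∈ T, f x ∈ T) (hST : ∀ x ∈ S, f x ∈ T) :
    trace K S (f.restrict hS) = trace K T (f.restrict hT) := by
  set T' : Submodule K S := T.comap S.subtype with hT'
  have h1 : ∀ x, (f.restrict hS) x ∈ T' := fun x => hST x.1 x.2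
  rw [← LinearMap.trace_restrict_eq_of_forall_mem T' (f.restrict hS) h1]
  set q : T' →ₗ[K] T := LinearMap.codRestrict T (S.subtype ∘ₗ T'.subtype) (fun x => x.2) with hq
  have hbij : Function.Bijective q := by
    constructor
    · intro x y hxy
      apply Subtype.ext
      apply Subtype.ext
      have h2 := congrArg Subtype.val hxy
      exact h2
    · rintro ⟨x, hx⟩
      exact ⟨⟨⟨x, h hx⟩, hx⟩, rfl⟩
  have key := trace_of_bijective (V := T') (U := T) q hbij
    ((f.restrict hS).restrict (fun x _ => h1 x)) (f.restrict hT) (by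
      apply LinearMap.ext
      intro x
      apply Subtype.ext
      rfl)
  exact key

/-- The trace on a submodule as the trace of the composite with a projector. -/
lemma trace_restrict_proj (f P : V →ₗ[K] V) {S : Submodule K V} (hS : ∀ x ∈ S, f x ∈ S)
    (hP : ∀ x, P x ∈ S) (hP' : ∀ x ∈ S, P x = x) :
    trace K S (f.restrict hS) = trace K V (f ∘ₗ P) := by
  have h1 : ∀ x, (f ∘ₗ P) x ∈ S := fun x => hS _ (hP x)
  rw [← LinearMap.trace_restrict_eq_of_forall_mem S (f ∘ₗ P) h1]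
  congr 1
  apply LinearMap.ext
  intro x
  apply Subtype.ext
  rw [LinearMap.coe_restrict_apply, LinearMap.coe_restrict_apply, LinearMap.comp_apply,
    hP' x x.2]

end

section

variable {C : Corr.{u}} {K : Type} [Field K] [CharZero K] {G : Type} [Group G] {m : ℕ}
  {R : Coh.{u, v} C K} {E : WeightTerms C m}

omit [CharZero K] in
lemma ker_stable {o : Op E} (hc : Commutes R o) (w : ℕ) :
    ∀ x ∈ ker R E w, R.act (o.b w) x ∈ ker R E w := by
  intro x hx
  rw [ker, LinearMap.mem_ker] at hx ⊢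
  have h1 := LinearMap.congr_fun (hc w).2 x
  rw [LinearMap.comp_apply, LinearMap.comp_apply, hx, map_zero] at h1
  exact h1

omit [CharZero K] in
lemma im_stable {o : Op E} (hc : Commutes R o) (w : ℕ) :
    ∀ x ∈ im R E w, R.act (o.b w) x ∈ im R E w := by
  rintro _ ⟨y, rfl⟩
  have h1 := LinearMap.congr_fun (hc w).1 y
  rw [LinearMap.comp_apply, LinearMap.comp_apply] at h1
  exact ⟨_, h1⟩

lemma trace_ker (hR : IsCoh R) {o : Op E} (hc : Commutes R o) (w : ℕ)
    {h : C.Hom (E.D w) (E.B w)} {r : ℕ} (hinv : Inv (E.dB w) h r)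
    (hr : finrank K (LinearMap.range (R.act (E.dB w))) = r) (k : ℕ)
    (hkB : finrank K (R.H (E.B w)) ≤ k) (hkD : finrank K (R.H (E.D w)) ≤ k) :
    trace K (ker R E w) ((R.act (o.b w)).restrict (ker_stable hc w)) =
      (C.tr _ (C.comp (pw (C.one _ - C.comp (E.dB w) h) k) (o.b w)) : K) := by
  obtain ⟨p1, p2, -, -⟩ := projectors (R.act (E.dB w)) (R.act h) r
    (fun n hn => hinv.trace hR n hn) hr k hkB hkD
  rw [← hR.tr, hR.comp, act_pw_sub hR, hR.comp]
  exact trace_restrict_proj _ _ _ p1 p2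

lemma trace_im (hR : IsCoh R) {o : Op E} (hc : Commutes R o) (w : ℕ)
    {h : C.Hom (E.B w) (E.A w)} {r : ℕ} (hinv : Inv (E.dA w) h r)
    (hr : finrank K (LinearMap.range (R.act (E.dA w))) = r) (k : ℕ)
    (hkA : finrank K (R.H (E.A w)) ≤ k) (hkB : finrank K (R.H (E.B w)) ≤ k) :
    trace K (im R E w) ((R.act (o.b w)).restrict (im_stable hc w)) =
      (C.tr _ (C.comp (C.one _ - pw (C.one _ - C.comp h (E.dA w)) k) (o.b w)) : K) := by
  obtain ⟨-, -, p3, p4⟩ := projectors (R.act (E.dA w)) (R.act h) r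
    (fun n hn => hinv.trace hR n hn) hr k hkA hkB
  rw [← hR.tr, hR.comp, map_sub, hR.one, act_pw_sub hR, hR.comp]
  refine trace_restrict_proj _ _ _ p4 ?_
  rintro _ ⟨y, rfl⟩
  rw [LinearMap.sub_apply, p3, LinearMap.id_apply, sub_zero]

omit [CharZero K] in
/-- The step of the weight filtration. -/
lemma trace_step (hE : IsComplex R E) {V : Rep.{v} G K} (hV : IsFiltered V m) {e : Edge R E V}
    (he : IsEdge e) {g : G} {o : Op E} (ho : ActsBy e g o) (w : ℕ) :
    trace K (ker R E w) ((R.act (o.b w)).restrict (ker_stable ho.commutes w)) +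
      trace K (V.W w) ((V.ρ g).restrict (hV.ρ_mem g w)) =
    trace K (V.W (w + 1)) ((V.ρ g).restrict (hV.ρ_mem g (w + 1))) +
      trace K (im R E w) ((R.act (o.b w)).restrict (im_stable ho.commutes w)) := by
  have hΓ : ∀ x ∈ e.rep w, ((R.act (o.b w)).prodMap (V.ρ g)) x ∈ e.rep w := by
    rintro ⟨b, x⟩ hx
    exact ho.equiv w b x hx
  have himrep : ∀ b ∈ im R E w, (b, (0 : V.V)) ∈ e.rep w := by
    intro b hb
    obtain ⟨x, hx⟩ := he.left w b (hE w hb)
    have h1 := he.zero w x (he.im w b x hx hb)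
    have h2 := (e.rep w).sub_mem hx h1
    rwa [Prod.mk_sub_mk, sub_self, sub_zero] at h2
  rw [← trace_rel (e.rep w) (R.act (o.b w)) (V.ρ g) hΓ (ker R E w)
    (fun x hx => he.ker w x.1 x.2 hx)
    (fun s hs => by
      obtain ⟨x, hx⟩ := he.left w s hs
      exact ⟨_, hx, rfl⟩) (V.W w)
    (fun y => ⟨fun h => he.im w 0 y h (Submodule.zero_mem _), fun h => he.zero w y h⟩)
    (ker_stable ho.commutes w) (hV.ρ_mem g w)]
  set T : Submodule K (R.H (E.B w)) := (e.rep w).comap (LinearMap.inl K _ _) with hT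
  have hTm : ∀ y, y ∈ T ↔ (y, (0 : V.V)) ∈ e.rep w := fun y => Iff.rfl
  have hTo : ∀ y ∈ T, R.act (o.b w) y ∈ im R E w := by
    intro y hy
    exact ho.zero w y 0 hy (Submodule.zero_mem _)
  have hle : im R E w ≤ T := fun b hb => himrep b hb
  rw [trace_rel' (e.rep w) (R.act (o.b w)) (V.ρ g) hΓ (V.W (w + 1))
    (fun x hx => he.wt w x.1 x.2 hx)
    (fun s hs => by
      obtain ⟨b, hb⟩ := he.right w s hs
      exact ⟨_, hb, rfl⟩) T (fun y => (hTm y).symm) (fun y hy => hle (hTo y hy))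
    (hV.ρ_mem g (w + 1))]
  congr 1
  exact trace_restrict_of_maps _ hle _ _ hTo

end

end Pool.Agent.K9h22.Eul
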