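import Pool.Agent.K9h22.EulC

/-!
# The monodromy operator on the graded pieces, and the inertia invariants
-/

set_option autoImplicit false

open Module LinearMap

universe u v

namespace Pool.Agent.K9h22.Eul

section

variable {K : Type} [Field K] {V : Type v} [AddCommGroup V] [Module K V] [Module.Finite K V]

lemma finrank_map_add {U : Type*} [AddCommGroup U] [Module K U] (f : V →ₗ[K] U)
    (S T : Submodule K V) (hT : ∀ x, x ∈ T ↔ x ∈ S ∧ f x = 0) :
    finrank K (S.map f) + finrank K T = finrank K S := by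
  have h1 := LinearMap.finrank_range_add_finrank_ker (f.domRestrict S)
  rw [LinearMap.range_domRestrict] at h1
  have hle : T ≤ S := fun x hx => ((hT x).1 hx).1
  have h2 : LinearMap.ker (f.domRestrict S) = T.comap S.subtype := by
    ext x
    rw [LinearMap.mem_ker, Submodule.mem_comap, LinearMap.domRestrict_apply, Submodule.subtype_apply,
      hT]
    exact ⟨fun h => ⟨x.2, h⟩, fun h => h.2⟩
  rw [h2, (Submodule.comapSubtypeEquivOfLe hle).finrank_eq] at h1
  exact h1

lemma finrank_mkQ {S T : Submodule K V} (h : T ≤ S) :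
    finrank K (S.map T.mkQ) + finrank K T = finrank K S := by
  apply finrank_map_add
  intro x
  rw [Submodule.mkQ_apply, Submodule.Quotient.mk_eq_zero]
  exact ⟨fun hx => ⟨h hx, hx⟩, fun hx => hx.2⟩

end

section

variable {K : Type} [Field K] {G : Type} [Group G] {m : ℕ} {V : Rep.{v} G K}

/-- the rank of `N ^ r` between the graded pieces of weight `m + r` and `m - r` -/
noncomputable def nu (V : Rep.{v} G K) (m r : ℕ) : ℕ :=
  finrank K ((V.W (m + r + 1)).map ((V.W (m - r)).mkQ ∘ₗ (V.N ^ r : Module.End K V.V)))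

lemma N_pow_mem (hV : IsFiltered V m) (r w : ℕ) (x : V.V) (hx : x ∈ V.W w) :
    (V.N ^ r) x ∈ V.W (w - 2 * r) := by
  induction r with
  | zero => exact hx
  | succ r ih =>
    rw [pow_succ', Module.End.mul_apply]
    have h1 := hV.N_mem _ _ ih
    rwa [show w - 2 * r - 2 = w - 2 * (r + 1) by omega] at h1

lemma inj_iff (hV : IsFiltered V m) {r : ℕ} (hr : r ≤ m) :
    (∀ x ∈ V.W (m + r + 1), (V.N ^ r) x ∈ V.W (m - r) → x ∈ V.W (m + r)) ↔
      finrank K (V.W (m + r + 1)) ≤ nu V m r + finrank K (V.W (m + r)) := by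
  set T : Submodule K V.V := V.W (m + r + 1) ⊓ (V.W (m - r)).comap (V.N ^ r : Module.End K V.V)
    with hT
  have hTm : ∀ x, x ∈ T ↔ x ∈ V.W (m + r + 1) ∧ (V.N ^ r) x ∈ V.W (m - r) := fun x => Iff.rfl
  have h1 : nu V m r + finrank K T = finrank K (V.W (m + r + 1)) := by
    apply finrank_map_add
    intro x
    rw [hTm, LinearMap.comp_apply, Submodule.mkQ_apply, Submodule.Quotient.mk_eq_zero]
  have hle : V.W (m + r) ≤ T := by
    intro x hx
    rw [hTm]
    refine ⟨hV.mono (by omega) hx, ?_⟩
    have h2 := N_pow_mem hV r _ x hx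
    rwa [show m + r - 2 * r = m - r by omega] at h2
  constructor
  · intro h
    have h2 : T ≤ V.W (m + r) := fun x hx => h x ((hTm x).1 hx).1 ((hTm x).1 hx).2
    have h3 := Submodule.finrank_mono h2
    omega
  · intro h x hx hx'
    have h2 : V.W (m + r) = T := Submodule.eq_of_le_of_finrank_le hle (by omega)
    rw [h2, hTm]
    exact ⟨hx, hx'⟩

lemma surj_iff (hV : IsFiltered V m) {r : ℕ} (hr : r ≤ m) :
    (∀ y ∈ V.W (m - r + 1), ∃ x ∈ V.W (m + r + 1), y - (V.N ^ r) x ∈ V.W (m - r)) ↔
      finrank K (V.W (m - r + 1)) ≤ nu V m r + finrank K (V.W (m - r)) := by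
  have h1 := finrank_mkQ (hV.mono (show m - r ≤ m - r + 1 by omega))
  set S := (V.W (m - r + 1)).map (V.W (m - r)).mkQ with hS
  set S' := (V.W (m + r + 1)).map ((V.W (m - r)).mkQ ∘ₗ (V.N ^ r : Module.End K V.V)) with hS'
  have hle : S' ≤ S := by
    rintro _ ⟨x, hx, rfl⟩
    refine ⟨(V.N ^ r) x, ?_, rfl⟩
    have h2 := N_pow_mem hV r _ x hx
    rwa [show m + r + 1 - 2 * r = m - r + 1 by omega] at h2
  have hnu : nu V m r = finrank K S' := rfl
  constructor
  · intro h
    have h2 : S ≤ S' := by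
      rintro _ ⟨y, hy, rfl⟩
      obtain ⟨x, hx, hxy⟩ := h y hy
      refine ⟨x, hx, ?_⟩
      rw [LinearMap.comp_apply, Submodule.mkQ_apply, Submodule.mkQ_apply, eq_comm,
        Submodule.Quotient.eq]
      exact hxy
    have h3 := Submodule.finrank_mono h2
    omega
  · intro h y hy
    have h2 : S' = S := Submodule.eq_of_le_of_finrank_le hle (by omega)
    have h3 : (V.W (m - r)).mkQ y ∈ S' := by
      rw [h2]
      exact ⟨y, hy, rfl⟩
    obtain ⟨x, hx, hxy⟩ := h3
    refine ⟨x, hx, ?_⟩
    rw [LinearMap.comp_apply, Submodule.mkQ_apply, Submodule.mkQ_apply, eq_comm,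
      Submodule.Quotient.eq] at hxy
    exact hxy

/-- Under the monodromy-weight conjecture the kernel of `N` is contained in the part of weight at
most `m`. -/
lemma kerN_le (hV : IsFiltered V m) (hMW : MonodromyWeight V m) (x : V.V) (hx : V.N x = 0) :
    x ∈ V.W (m + 1) := by
  have key : ∀ j, j ≤ m → x ∈ V.W (2 * m + 1 - j) := by
    intro j
    induction j with
    | zero =>
      intro _
      rw [Nat.sub_zero, hV.top]
      exact Submodule.mem_top
    | succ j ih =>
      intro hj
      have h1 := ih (by omega)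
      have h2 := (hMW (m - j) (by omega)).1 x (by
        rwa [show m + (m - j) + 1 = 2 * m + 1 - j by omega]) (by
        obtain ⟨i, hi⟩ : ∃ i, m - j = i + 1 := ⟨m - j - 1, by omega⟩
        rw [hi, pow_succ, Module.End.mul_apply, hx, map_zero]
        exact Submodule.zero_mem _)
      rwa [show m + (m - j) = 2 * m + 1 - (j + 1) by omega] at h2
  have h1 := key m le_rfl
  rwa [show 2 * m + 1 - m = m + 1 by omega] at h1

/-- Under the monodromy-weight conjecture `N` maps the part of weight at most `m` onto the part of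
weight at most `m - 2`. -/
lemma N_surj (hV : IsFiltered V m) (hMW : MonodromyWeight V m) (y : V.V) (hy : y ∈ V.W (m - 1)) :
    ∃ x ∈ V.W (m + 1), V.N x = y := by
  have key : ∀ j, j ≤ m - 1 → ∀ y ∈ V.W j, ∃ x ∈ V.W (m + 1), V.N x = y := by
    intro j
    induction j with
    | zero =>
      intro _ y hy
      rw [hV.bot, Submodule.mem_bot] at hy
      exact ⟨0, Submodule.zero_mem _, by rw [hy, map_zero]⟩
    | succ j ih =>
      intro hj y hy
      obtain ⟨x, hx, hxy⟩ := (hMW (m - j) (by omega)).2 y (by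
        rwa [show m - (m - j) + 1 = j + 1 by omega])
      rw [show m - (m - j) = j by omega] at hxy
      obtain ⟨x', hx', hxy'⟩ := ih (by omega) _ hxy
      obtain ⟨i, hi⟩ : ∃ i, m - j = i + 2 := ⟨m - j - 2, by omega⟩
      have h2 := N_pow_mem hV (i + 1) _ x hx
      refine ⟨x' + (V.N ^ (i + 1)) x, Submodule.add_mem _ hx' (hV.mono (by omega) h2), ?_⟩
      have h3 : V.N ((V.N ^ (i + 1)) x) = (V.N ^ (m - j)) x := by
        rw [hi, pow_succ' _ (i + 1), Module.End.mul_apply]
      rw [map_add, hxy', h3]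
      abel
  exact key _ le_rfl y hy

lemma kerN_stable {g : G} {q : K}
    (hg : V.N ∘ₗ V.ρ g = q • (V.ρ g ∘ₗ V.N)) : ∀ x ∈ LinearMap.ker V.N, V.ρ g x ∈ LinearMap.ker V.N := by
  intro x hx
  rw [LinearMap.mem_ker] at hx ⊢
  have h1 := LinearMap.congr_fun hg x
  rw [LinearMap.comp_apply, LinearMap.smul_apply, LinearMap.comp_apply, hx, map_zero,
    smul_zero] at h1
  exact h1

/-- The trace on the kernel of `N`. -/
lemma trace_kerN (hV : IsFiltered V m) (hMW : MonodromyWeight V m) {g : G} {q : K}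
    (hg : V.N ∘ₗ V.ρ g = q • (V.ρ g ∘ₗ V.N)) :
    trace K (V.W (m + 1)) ((V.ρ g).restrict (hV.ρ_mem g _)) =
      q * trace K (V.W (m - 1)) ((V.ρ g).restrict (hV.ρ_mem g _)) +
        trace K (LinearMap.ker V.N) ((V.ρ g).restrict (kerN_stable hg)) := by
  have hmem : ∀ x ∈ V.W (m + 1), V.N x ∈ V.W (m - 1) := by
    intro x hx
    have := hV.N_mem _ x hx
    rwa [show m + 1 - 2 = m - 1 by omega] at this
  set p : V.W (m + 1) →ₗ[K] V.W (m - 1) := V.N.restrict hmem with hp
  have hps : Function.Surjective p := by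
    rintro ⟨y, hy⟩
    obtain ⟨x, hx, hxy⟩ := N_surj hV hMW y hy
    exact ⟨⟨x, hx⟩, Subtype.ext hxy⟩
  set Z : Submodule K (V.W (m + 1)) := LinearMap.ker p with hZ
  have hZm : ∀ x : V.W (m + 1), x ∈ Z ↔ V.N x = 0 := by
    intro x
    rw [hZ, LinearMap.mem_ker]
    exact ⟨fun h => congrArg Subtype.val h, fun h => Subtype.ext h⟩
  have hc : ∀ x ∈ Z, ((V.ρ g).restrict (hV.ρ_mem g (m + 1))) x ∈ Z := by
    intro x hx
    rw [hZm] at hx ⊢
    exact kerN_stable hg x hx
  have h1 := trace_of_surjective p hps ((V.ρ g).restrict (hV.ρ_mem g (m + 1)))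
    (q • (V.ρ g).restrict (hV.ρ_mem g (m - 1))) (by
      apply LinearMap.ext
      intro x
      apply Subtype.ext
      have h2 := LinearMap.congr_fun hg x.1
      exact h2) Z (fun x => Iff.rfl) hc
  rw [h1, map_smul, smul_eq_mul]
  congr 1
  set s : LinearMap.ker V.N →ₗ[K] Z :=
    { toFun := fun x => ⟨⟨x.1, kerN_le hV hMW x.1 x.2⟩, (hZm _).2 x.2⟩
      map_add' := fun x y => rfl
      map_smul' := fun c x => rfl } with hs
  have hbij : Function.Bijective s := by
    constructor
    · intro x y hxy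
      apply Subtype.ext
      have h2 := congrArg (fun z : Z => ((z : V.W (m + 1)) : V.V)) hxy
      exact h2
    · rintro ⟨⟨x, hx⟩, hx'⟩
      exact ⟨⟨x, (hZm _).1 hx'⟩, rfl⟩
  have key := trace_of_bijective (V := LinearMap.ker V.N) (U := Z) s hbij
    ((V.ρ g).restrict (kerN_stable hg))
    (((V.ρ g).restrict (hV.ρ_mem g (m + 1))).restrict hc) (by
      apply LinearMap.ext
      intro x
      apply Subtype.ext
      apply Subtype.ext
      rfl)
  exact key.symm

end

section

variable {K : Type} [Field K] [CharZero K] {G : Type} [Group G] {V : Rep.{v} G K}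
  {deg : G →* Multiplicative ℤ} {J : Subgroup G} {q : ℕ}

omit [CharZero K] in
lemma N_comm (hM : IsMonodromy V deg J q) {h : G} (hh : deg h = 1) (x : V.V) :
    V.N (V.ρ h x) = V.ρ h (V.N x) := by
  have h1 := hM.N_ρ h 0 (by rw [hh]; rfl)
  rw [pow_zero, one_smul] at h1
  exact LinearMap.congr_fun h1 x

/-- the finite quotient of the inertia group -/
abbrev Quo (deg : G →* Multiplicative ℤ) (J : Subgroup G) : Type :=
  deg.ker ⧸ J.subgroupOf deg.ker

/-- The trace on the invariants of the inertia group as an average over the finite quotient. -/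
lemma trace_invariants (hM : IsMonodromy V deg J q) (hJ : J ≤ deg.ker)
    [Fintype (Quo deg J)] (g : G)
    (hst : ∀ c : Quo deg J,
      ∀ x ∈ LinearMap.ker V.N, V.ρ (g * (Quotient.out c : deg.ker)) x ∈ LinearMap.ker V.N) :
    trace K (inertiaInvariants V deg) ((V.ρ g).restrict (inertiaInvariants_stable V deg g)) =
      ((Fintype.card (Quo deg J) : ℚ)⁻¹ : ℚ) *
        ∑ c : Quo deg J, trace K (LinearMap.ker V.N)
          ((V.ρ (g * (Quotient.out c : deg.ker))).restrict (hst c)) := by
  classical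
  set κ : K := (((Fintype.card (Quo deg J) : ℚ)⁻¹ : ℚ) : K) with hκ
  have hκ1 : κ * (Fintype.card (Quo deg J) : K) = 1 := by
    have h0 : (Fintype.card (Quo deg J) : ℚ) ≠ 0 := by
      have : Nonempty (Quo deg J) := ⟨(1 : deg.ker)⟩
      exact_mod_cast Fintype.card_ne_zero
    have h1 : ((Fintype.card (Quo deg J) : ℚ)⁻¹ : ℚ) * (Fintype.card (Quo deg J) : ℚ) = 1 := inv_mul_cancel₀ h0
    have h2 := congrArg (fun x : ℚ => (x : K)) h1
    push_cast at h2
    rw [hκ]
    push_cast
    exact h2
  have hNI : ∀ x ∈ inertiaInvariants V deg, V.N x = 0 := by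
    intro x hx
    rw [hM.unip]
    intro j hj
    exact hx j (hJ hj)
  -- independence of the representative
  have hrep : ∀ (s : deg.ker) (x : V.V), V.N x = 0 →
      V.ρ (s : G) x = V.ρ ((Quotient.out (s : Quo deg J) : deg.ker) : G) x := by
    intro s x hx
    obtain ⟨j, hj⟩ := QuotientGroup.mk_out_eq_mul (J.subgroupOf deg.ker) s
    have h1 : ((Quotient.out (s : Quo deg J) : deg.ker) : G) = (s : G) * ((j : deg.ker) : G) := by
      have := congrArg (fun z : deg.ker => (z : G)) hj
      exact this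
    rw [h1, map_mul, Module.End.mul_apply, (hM.unip x).1 hx _ (Subgroup.mem_subgroupOf.1 j.2)]
  set T : Module.End K V.V := κ • ∑ c : Quo deg J, V.ρ (g * (Quotient.out c : deg.ker)) with hT
  have hTa : ∀ x, T x = κ • ∑ c : Quo deg J, V.ρ g (V.ρ ((Quotient.out c : deg.ker) : G) x) := by
    intro x
    rw [hT, LinearMap.smul_apply, LinearMap.sum_apply]
    congr 1
    refine Finset.sum_congr rfl fun c _ => ?_
    rw [map_mul, Module.End.mul_apply]
  have havg : ∀ x, V.N x = 0 →
      κ • ∑ c : Quo deg J, V.ρ ((Quotient.out c : deg.ker) : G) x ∈ inertiaInvariants V deg := by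
    intro x hx h hh
    rw [map_smul, map_sum]
    congr 1
    have hsum : ∀ c : Quo deg J, V.ρ h (V.ρ ((Quotient.out c : deg.ker) : G) x) =
        V.ρ ((Quotient.out ((⟨h, hh⟩ : deg.ker) • c) : deg.ker) : G) x := by
      intro c
      rw [← Module.End.mul_apply, ← map_mul]
      have h1 := hrep (⟨h, hh⟩ * Quotient.out c) x hx
      have h2 : ((⟨h, hh⟩ * Quotient.out c : deg.ker) : Quo deg J) = (⟨h, hh⟩ : deg.ker) • c := by
        conv_rhs => rw [← QuotientGroup.out_eq' c]
        rfl
      rw [h2] at h1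
      rw [← h1]
      rfl
    rw [Finset.sum_congr rfl fun c _ => hsum c]
    exact Equiv.sum_comp (MulAction.toPerm (⟨h, hh⟩ : deg.ker))
      (fun c : Quo deg J => V.ρ ((Quotient.out c : deg.ker) : G) x)
  have hTI : ∀ x ∈ LinearMap.ker V.N, T x ∈ inertiaInvariants V deg := by
    intro x hx
    have h1 := inertiaInvariants_stable V deg g _ (havg x hx)
    rw [map_smul, map_sum, ← hTa] at h1
    exact h1
  have hle : inertiaInvariants V deg ≤ LinearMap.ker V.N := fun x hx => hNI x hx
  have hTN : ∀ x ∈ LinearMap.ker V.N, T x ∈ LinearMap.ker V.N := fun x hx => hle (hTI x hx)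
  have hTI' : ∀ x ∈ inertiaInvariants V deg, T x ∈ inertiaInvariants V deg :=
    fun x hx => hTI x (hle hx)
  have h1 := trace_restrict_of_maps T hle hTN hTI' hTI
  have h2 : T.restrict hTI' = (V.ρ g).restrict (inertiaInvariants_stable V deg g) := by
    apply LinearMap.ext
    intro x
    apply Subtype.ext
    rw [LinearMap.coe_restrict_apply, LinearMap.coe_restrict_apply, hTa]
    have h3 : ∀ c : Quo deg J, V.ρ g (V.ρ ((Quotient.out c : deg.ker) : G) x) = V.ρ g x := by
      intro c
      rw [x.2 _ (Quotient.out c : deg.ker).2]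
    rw [Finset.sum_congr rfl fun c _ => h3 c, Finset.sum_const, Finset.card_univ,
      ← Nat.cast_smul_eq_nsmul K, smul_smul, hκ1, one_smul]
  have h3 : T.restrict hTN = κ • ∑ c : Quo deg J,
      (V.ρ (g * (Quotient.out c : deg.ker))).restrict (hst c) := by
    apply LinearMap.ext
    intro x
    apply Subtype.ext
    rw [LinearMap.coe_restrict_apply, hT, LinearMap.smul_apply, LinearMap.sum_apply,
      LinearMap.smul_apply, LinearMap.sum_apply, Submodule.coe_smul, Submodule.coe_sum]
    rfl
  rw [← h2, ← h1, h3, map_smul, map_sum, smul_eq_mul]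

end

end Pool.Agent.K9h22.Eul
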