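import Mathlib

/-!
# Weight spectral sequences and local Euler factors: definitions
-/

set_option autoImplicit false
set_option linter.checkUnivs false

universe u v

namespace Pool.Agent.K9h22.Eul

/-- Algebraic correspondences between the terms of the weight spectral sequence. A term stands for a finite
direct sum of groups `H^a(Y)(b)`, `Y` smooth projective over the (finite) residue field or its algebraic
closure; the elements of `Hom i j` are the matrices of algebraic correspondences with rational coefficients
which act between them (so cycles on products `Y × Y'`). -/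
structure Corr where
  /-- the terms -/
  Term : Type
  /-- the correspondences -/
  Hom : Term → Term → Type u
  [grp : ∀ i j, AddCommGroup (Hom i j)]
  [mod : ∀ i j, Module ℚ (Hom i j)]
  /-- composition: first the first, then the second correspondence -/
  comp : ∀ {i j k}, Hom i j →ₗ[ℚ] Hom j k →ₗ[ℚ] Hom i k
  /-- the identity -/
  one : ∀ i, Hom i i
  /-- the intersection number with the (transposed) Künneth components of the diagonals which gives the
  trace; it does not depend on a cohomology theory -/
  tr : ∀ i, Hom i i →ₗ[ℚ] ℚ

attribute [instance] Corr.grp Corr.mod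

/-- The cohomology of the terms, with coefficients in `K` (for `K = ℚ_ℓ`: the `ℓ`-adic cohomology), and the
action of the correspondences. -/
structure Coh (C : Corr.{u}) (K : Type) [Field K] where
  /-- the cohomology -/
  H : C.Term → Type v
  [grp : ∀ i, AddCommGroup (H i)]
  [mod : ∀ i, Module K (H i)]
  [fin : ∀ i, Module.Finite K (H i)]
  /-- the action of the correspondences -/
  act : ∀ {i j}, C.Hom i j →+ (H i →ₗ[K] H j)

attribute [instance] Coh.grp Coh.mod Coh.fin

section

variable {C : Corr.{u}} {K : Type} [Field K]

/-- The known properties of the cohomology: correspondences act functorially, and the traces are the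
intersection numbers. -/
structure IsCoh (R : Coh.{u, v} C K) : Prop where
  comp : ∀ {i j k} (f : C.Hom i j) (g : C.Hom j k), R.act (C.comp f g) = R.act g ∘ₗ R.act f
  one : ∀ i, R.act (C.one i) = LinearMap.id
  tr : ∀ i (f : C.Hom i i), LinearMap.trace K (R.H i) (R.act f) = (C.tr i f : K)

/-- Homological and numerical equivalence coincide for the correspondences: if the intersection numbers of `f`
with all `g` are zero then `f` acts as zero. -/
def HomEqNum (R : Coh.{u, v} C K) : Prop :=
  ∀ i j (f : C.Hom i j), (∀ g : C.Hom j i, C.tr i (C.comp f g) = 0) → R.act f = 0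

/-- The terms of total degree `m - 1`, `m`, `m + 1` of the `E_1` weight spectral sequence of a strictly
semistable scheme `X'`: the `w`-th terms are those of weight `w`. -/
structure WeightTerms (C : Corr.{u}) (m : ℕ) where
  /-- the term of weight `w` and total degree `m - 1` -/
  A : ℕ → C.Term
  /-- the term of weight `w` and total degree `m` -/
  B : ℕ → C.Term
  /-- the term of weight `w` and total degree `m + 1` -/
  D : ℕ → C.Term
  /-- the differentials `d_1` (sums of restrictions and Gysin homomorphisms) -/
  dA : ∀ w, C.Hom (A w) (B w)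
  /-- the differentials `d_1` (sums of restrictions and Gysin homomorphisms) -/
  dB : ∀ w, C.Hom (B w) (D w)
  /-- the powers `N ^ r` of the monodromy operator (identities on the common direct summands) -/
  N : ∀ r, C.Hom (B (m + r)) (B (m - r))

/-- Algebraic correspondences on the terms. -/
structure Op {m : ℕ} (E : WeightTerms C m) where
  /-- on the term of total degree `m - 1` -/
  a : ∀ w, C.Hom (E.A w) (E.A w)
  /-- on the term of total degree `m` -/
  b : ∀ w, C.Hom (E.B w) (E.B w)
  /-- on the term of total degree `m + 1` -/
  c : ∀ w, C.Hom (E.D w) (E.D w)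

variable {m : ℕ}

/-- The image of `d_1` in the term of degree `m` and weight `w`. -/
def im (R : Coh.{u, v} C K) (E : WeightTerms C m) (w : ℕ) : Submodule K (R.H (E.B w)) :=
  LinearMap.range (R.act (E.dA w))

/-- The kernel of `d_1` in the term of degree `m` and weight `w`. -/
def ker (R : Coh.{u, v} C K) (E : WeightTerms C m) (w : ℕ) : Submodule K (R.H (E.B w)) :=
  LinearMap.ker (R.act (E.dB w))

/-- The `m`-th Betti number of `X'`: the sum of the dimensions of the spaces `ker d_1 / im d_1` of degree
`m` (the weights are between `0` and `2 m`). -/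
noncomputable def betti (R : Coh.{u, v} C K) (E : WeightTerms C m) : ℕ :=
  ∑ w ∈ Finset.range (2 * m + 1), (Module.finrank K (ker R E w) - Module.finrank K (im R E w))

/-- `d_1 ∘ d_1 = 0`. -/
def IsComplex (R : Coh.{u, v} C K) (E : WeightTerms C m) : Prop := ∀ w, im R E w ≤ ker R E w

/-- The correspondences commute with `d_1`. -/
def Commutes (R : Coh.{u, v} C K) {E : WeightTerms C m} (o : Op E) : Prop :=
  ∀ w, R.act (E.dA w) ∘ₗ R.act (o.a w) = R.act (o.b w) ∘ₗ R.act (E.dA w) ∧
    R.act (E.dB w) ∘ₗ R.act (o.b w) = R.act (o.c w) ∘ₗ R.act (E.dB w)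

end

section

variable (G : Type) [Group G] (K : Type) [Field K]

/-- A finite dimensional representation `V` of the Weil group `G` of a local field, with its weight filtration
and its monodromy operator `N`. -/
structure Rep where
  /-- the space -/
  V : Type v
  [grp : AddCommGroup V]
  [mod : Module K V]
  [fin : Module.Finite K V]
  /-- the action of the Weil group -/
  ρ : G →* Module.End K V
  /-- `W w` is the part of the weight filtration of the weights smaller than `w` -/
  W : ℕ → Submodule K V
  /-- the monodromy operator -/
  N : Module.End K V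

end

attribute [instance] Rep.grp Rep.mod Rep.fin

section

variable {G : Type} [Group G] {K : Type} [Field K]

/-- The known properties of the weight filtration of a direct summand of the cohomology of degree `m`. -/
structure IsFiltered (V : Rep.{v} G K) (m : ℕ) : Prop where
  bot : V.W 0 = ⊥
  top : V.W (2 * m + 1) = ⊤
  mono : Monotone V.W
  ρ_mem : ∀ g w, ∀ x ∈ V.W w, V.ρ g x ∈ V.W w
  N_mem : ∀ w, ∀ x ∈ V.W w, V.N x ∈ V.W (w - 2)

/-- The relations between `N`, the group `G` and a subgroup `J` of finite index in the inertia group: `q` is
the number of elements of the residue field, `deg` the degree (one for the geometric Frobenius elements), and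
`N x = 0` if and only if `J` fixes `x`. -/
structure IsMonodromy (V : Rep.{v} G K) (deg : G →* Multiplicative ℤ) (J : Subgroup G) (q : ℕ) : Prop where
  N_ρ : ∀ g (n : ℕ), deg g = Multiplicative.ofAdd (n : ℤ) →
    V.N ∘ₗ V.ρ g = (q : K) ^ n • (V.ρ g ∘ₗ V.N)
  unip : ∀ x, V.N x = 0 ↔ ∀ g ∈ J, V.ρ g x = x

/-- **The monodromy-weight conjecture for `V`** (in degree `m`): for all `r ≤ m` the power `N ^ r` induces an
isomorphism from the graded piece of weight `m + r` to the graded piece of weight `m - r` of the weight
filtration. -/
def MonodromyWeight (V : Rep.{v} G K) (m : ℕ) : Prop :=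
  ∀ r ≤ m, (∀ x ∈ V.W (m + r + 1), (V.N ^ r) x ∈ V.W (m - r) → x ∈ V.W (m + r)) ∧
    ∀ y ∈ V.W (m - r + 1), ∃ x ∈ V.W (m + r + 1), y - (V.N ^ r) x ∈ V.W (m - r)

/-- The vectors which are fixed by the inertia group, the kernel of the degree. -/
def inertiaInvariants (V : Rep.{v} G K) (deg : G →* Multiplicative ℤ) : Submodule K V.V where
  carrier := {x | ∀ h, deg h = 1 → V.ρ h x = x}
  add_mem' := by
    intro x y hx hy h hh
    rw [map_add, hx h hh, hy h hh]
  zero_mem' := by
    intro h _
    rw [map_zero]
  smul_mem' := by
    intro c x hx h hh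
    rw [map_smul, hx h hh]

lemma inertiaInvariants_stable (V : Rep.{v} G K) (deg : G →* Multiplicative ℤ) (g : G) :
    ∀ x ∈ inertiaInvariants V deg, V.ρ g x ∈ inertiaInvariants V deg := by
  intro x hx h hh
  have h1 : deg (g⁻¹ * h * g) = 1 := by
    rw [map_mul, map_mul, hh, mul_one, ← map_mul, inv_mul_cancel, map_one]
  have h2 := hx _ h1
  have h3 : V.ρ h (V.ρ g x) = V.ρ g (V.ρ (g⁻¹ * h * g) x) := by
    rw [← Module.End.mul_apply, ← Module.End.mul_apply, ← map_mul, ← map_mul]
    congr 2
    group
  rw [h3, h2]

/-- The local Euler factor `det (1 - T g | V ^ I)`, the reverse of the characteristic polynomial of `g` on the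
invariants of the inertia group. -/
noncomputable def eulerFactor (V : Rep.{v} G K) (deg : G →* Multiplicative ℤ) (g : G) : Polynomial K :=
  ((V.ρ g).restrict (inertiaInvariants_stable V deg g)).charpoly.reverse

end

section

variable {C : Corr.{u}} {K : Type} [Field K] {G : Type} [Group G] {m : ℕ}

/-- `V` is a direct summand, in degree `m`, of the cohomology `V'` of `X'`, and `V'` is computed by the weight
spectral sequence: `rep w` consists of the pairs `(b, x)`, `b ∈ ker d_1` of weight `w` and `x` in the part of
weight `≤ w` of `V`, such that the class of `x` in the graded piece of `V` is the projection of the class of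
`b` in the graded piece of `V'`. -/
structure Edge (R : Coh.{u, v} C K) (E : WeightTerms C m) (V : Rep.{v} G K) where
  /-- the pairs `(b, x)` -/
  rep : ∀ w, Submodule K (R.H (E.B w) × V.V)

/-- The properties of the edge homomorphisms: all `b` and all `x` occur, `x` has zero class if `b = 0`, and
conversely if `b` is in the image of `d_1`. -/
structure IsEdge {R : Coh.{u, v} C K} {E : WeightTerms C m} {V : Rep.{v} G K} (e : Edge R E V) : Prop where
  ker : ∀ w b x, (b, x) ∈ e.rep w → b ∈ ker R E w
  wt : ∀ w b x, (b, x) ∈ e.rep w → x ∈ V.W (w + 1)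
  left : ∀ w, ∀ b ∈ Eul.ker R E w, ∃ x, (b, x) ∈ e.rep w
  right : ∀ w, ∀ x ∈ V.W (w + 1), ∃ b, (b, x) ∈ e.rep w
  zero : ∀ w, ∀ x ∈ V.W w, (0, x) ∈ e.rep w
  im : ∀ w b x, (b, x) ∈ e.rep w → b ∈ im R E w → x ∈ V.W w

/-- The element `g` of the Weil group acts on `V`, extended by zero to `V'`, by the algebraic correspondences
`o` on the weight spectral sequence. -/
structure ActsBy {R : Coh.{u, v} C K} {E : WeightTerms C m} {V : Rep.{v} G K} (e : Edge R E V) (g : G) (o : Op E) :
    Prop where
  commutes : Commutes R o
  equiv : ∀ w b x, (b, x) ∈ e.rep w → (R.act (o.b w) b, V.ρ g x) ∈ e.rep w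
  zero : ∀ w b x, (b, x) ∈ e.rep w → x ∈ V.W w → R.act (o.b w) b ∈ im R E w

/-- The powers of the monodromy operator are given by `E.N`. -/
def MonodromyBy {R : Coh.{u, v} C K} {E : WeightTerms C m} {V : Rep.{v} G K} (e : Edge R E V) : Prop :=
  ∀ r ≤ m, ∀ b x, (b, x) ∈ e.rep (m + r) → (R.act (E.N r) b, (V.N ^ r) x) ∈ e.rep (m - r)

/-- All known properties together: `V` is a direct summand of the cohomology of degree `m` of `X'`, computed
by the weight spectral sequence `E`, on which the elements `g` of nonnegative degree of the Weil group act by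
the algebraic correspondences `op g`. -/
structure IsRealisation {R : Coh.{u, v} C K} {E : WeightTerms C m} {V : Rep.{v} G K} (e : Edge R E V)
    (op : G → Op E) (deg : G →* Multiplicative ℤ) (J : Subgroup G) (q : ℕ) : Prop where
  coh : IsCoh R
  complex : IsComplex R E
  filtered : IsFiltered V m
  monodromy : IsMonodromy V deg J q
  edge : IsEdge e
  N : MonodromyBy e
  acts : ∀ g (n : ℕ), deg g = Multiplicative.ofAdd (n : ℤ) → ActsBy e g (op g)

end

end Pool.Agent.K9h22.Eul
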