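import Pool.Agent.K9h22.EulD
import Pool.Agent.R401.Tr4

/-!
# Independence of the prime
-/

set_option autoImplicit false

open Module LinearMap

universe u v

namespace Pool.Agent.K9h22.Eul

section

variable {C : Corr.{u}} {K : Type} [Field K] [CharZero K] {G : Type} [Group G] {m : ℕ}
  {R : Coh.{u, v} C K} {E : WeightTerms C m} {V : Rep.{v} G K} {e : Edge R E V}

/-- The rank of `N ^ r` on the graded pieces is the rank of an algebraic correspondence. -/
lemma rank_corr (hR : IsCoh R) (he : IsEdge e) (hN : MonodromyBy e)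
    {o : Op E} (ho : ActsBy e 1 o) {r : ℕ} (hr : r ≤ m)
    {hB : C.Hom (E.D (m + r)) (E.B (m + r))} {rB : ℕ} (iB : Inv (E.dB (m + r)) hB rB)
    (rkB : finrank K (LinearMap.range (R.act (E.dB (m + r)))) = rB)
    {hA : C.Hom (E.B (m - r)) (E.A (m - r))} {rA : ℕ} (iA : Inv (E.dA (m - r)) hA rA)
    (rkA : finrank K (LinearMap.range (R.act (E.dA (m - r)))) = rA) (k : ℕ)
    (k1 : finrank K (R.H (E.B (m + r))) ≤ k) (k2 : finrank K (R.H (E.D (m + r))) ≤ k)
    (k3 : finrank K (R.H (E.A (m - r))) ≤ k) (k4 : finrank K (R.H (E.B (m - r))) ≤ k) :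
    finrank K (LinearMap.range (R.act (C.comp (C.comp (C.comp
      (pw (C.one _ - C.comp (E.dB (m + r)) hB) k) (E.N r)) (o.b (m - r)))
      (pw (C.one _ - C.comp hA (E.dA (m - r))) k)))) = nu V m r := by
  obtain ⟨p1, p2, -, -⟩ := projectors (R.act (E.dB (m + r))) (R.act hB) rB
    (fun n hn => iB.trace hR n hn) rkB k k1 k2
  obtain ⟨-, -, p3, p4⟩ := projectors (R.act (E.dA (m - r))) (R.act hA) rA
    (fun n hn => iA.trace hR n hn) rkA k k3 k4
  set P : Module.End K (R.H (E.B (m + r))) := (1 - R.act hB ∘ₗ R.act (E.dB (m + r))) ^ k with hP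
  set Q : Module.End K (R.H (E.B (m - r))) := (1 - R.act (E.dA (m - r)) ∘ₗ R.act hA) ^ k with hQ
  rw [hR.comp, hR.comp, hR.comp, act_pw_sub hR, act_pw_sub hR, hR.comp, hR.comp, ← hP, ← hQ]
  set Γ := e.rep (m + r) with hΓ
  set f1 : (R.H (E.B (m + r)) × V.V) →ₗ[K] R.H (E.B (m - r)) :=
    (Q ∘ₗ R.act (o.b (m - r)) ∘ₗ R.act (E.N r)) ∘ₗ LinearMap.fst K _ _ with hf1
  set f2 : (R.H (E.B (m + r)) × V.V) →ₗ[K] (V.V ⧸ V.W (m - r)) :=
    ((V.W (m - r)).mkQ ∘ₗ (V.N ^ r : Module.End K V.V)) ∘ₗ LinearMap.snd K _ _ with hf2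
  have h1 : LinearMap.range (Q ∘ₗ R.act (o.b (m - r)) ∘ₗ R.act (E.N r) ∘ₗ P) = Γ.map f1 := by
    apply le_antisymm
    · rintro _ ⟨y, rfl⟩
      obtain ⟨x, hx⟩ := he.left (m + r) (P y) (p1 y)
      exact ⟨(P y, x), hx, rfl⟩
    · rintro _ ⟨⟨b, x⟩, hx, rfl⟩
      refine ⟨b, ?_⟩
      have h2 : P b = b := p2 b (he.ker _ _ _ hx)
      rw [LinearMap.comp_apply, LinearMap.comp_apply, LinearMap.comp_apply, h2]
      rfl
  have h2 : (V.W (m + r + 1)).map ((V.W (m - r)).mkQ ∘ₗ (V.N ^ r : Module.End K V.V)) =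
      Γ.map f2 := by
    apply le_antisymm
    · rintro _ ⟨x, hx, rfl⟩
      obtain ⟨b, hb⟩ := he.right _ x hx
      exact ⟨(b, x), hb, rfl⟩
    · rintro _ ⟨⟨b, x⟩, hx, rfl⟩
      exact ⟨x, he.wt _ _ _ hx, rfl⟩
  have hker : ∀ b x, (b, x) ∈ Γ → (f1 (b, x) = 0 ↔ f2 (b, x) = 0) := by
    intro b x hx
    have e1 := hN r hr b x hx
    have e2 := ho.equiv _ _ _ e1
    rw [map_one, Module.End.one_apply] at e2
    have e3 : f1 (b, x) = 0 ↔ R.act (o.b (m - r)) (R.act (E.N r) b) ∈ im R E (m - r) := by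
      change Q (R.act (o.b (m - r)) (R.act (E.N r) b)) = 0 ↔ _
      constructor
      · intro h0
        have h3 := p4 (R.act (o.b (m - r)) (R.act (E.N r) b))
        rw [h0, sub_zero] at h3
        exact h3
      · rintro ⟨y, hy⟩
        rw [← hy]
        exact p3 y
    have e4 : f2 (b, x) = 0 ↔ (V.N ^ r) x ∈ V.W (m - r) := by
      change (V.W (m - r)).mkQ ((V.N ^ r) x) = 0 ↔ _
      rw [Submodule.mkQ_apply, Submodule.Quotient.mk_eq_zero]
    rw [e3, e4]
    exact ⟨fun h => he.im _ _ _ e2 h, fun h => ho.zero _ _ _ e1 h⟩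
  set T : Submodule K (R.H (E.B (m + r)) × V.V) := Γ ⊓ LinearMap.ker f1 with hT
  have h3 := finrank_map_add f1 Γ T (fun x => Iff.rfl)
  have h4 := finrank_map_add f2 Γ T (fun x => by
    rw [hT, Submodule.mem_inf, LinearMap.mem_ker]
    constructor
    · rintro ⟨a1, a2⟩
      exact ⟨a1, (hker x.1 x.2 a1).1 a2⟩
    · rintro ⟨a1, a2⟩
      exact ⟨a1, (hker x.1 x.2 a1).2 a2⟩)
  have h5 : nu V m r = finrank K (Γ.map f2) := by
    rw [nu, h2]
  have h6 : finrank K (Γ.map f1) = finrank K (Γ.map f2) := by omega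
  rw [h5, ← h6, ← h1]

end

section

variable {C : Corr.{u}} {K₀ K : Type} [Field K₀] [CharZero K₀] [Field K] [CharZero K] {m : ℕ}
  {R₀ : Coh.{u, v} C K₀} {R : Coh.{u, v} C K} {E : WeightTerms C m}

lemma dim_eq (hR₀ : IsCoh R₀) (hR : IsCoh R) (i : C.Term) :
    finrank K (R.H i) = finrank K₀ (R₀.H i) := by
  have h1 := finrank_eq hR₀ i
  rw [← finrank_eq hR] at h1
  exact_mod_cast h1.symm

/-- The ranks of the differentials do not depend on the cohomology. -/
lemma ranks_eq (hR₀ : IsCoh R₀) (hR : IsCoh R) (hE₀ : IsComplex R₀ E) (hE : IsComplex R E)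
    (hD : HomEqNum R₀) (hb : betti R E = betti R₀ E) (w : ℕ) (hw : w < 2 * m + 1) :
    finrank K (LinearMap.range (R.act (E.dA w))) = finrank K₀ (LinearMap.range (R₀.act (E.dA w))) ∧
    finrank K (LinearMap.range (R.act (E.dB w))) =
      finrank K₀ (LinearMap.range (R₀.act (E.dB w))) := by
  have hkey : ∀ w, finrank K (im R E w) ≤ finrank K (ker R E w) ∧
      finrank K₀ (im R₀ E w) ≤ finrank K₀ (ker R₀ E w) ∧
      finrank K₀ (im R₀ E w) ≤ finrank K (im R E w) ∧
      finrank K₀ (LinearMap.range (R₀.act (E.dB w))) ≤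
        finrank K (LinearMap.range (R.act (E.dB w))) ∧
      finrank K (LinearMap.range (R.act (E.dB w))) + finrank K (ker R E w) =
        finrank K₀ (LinearMap.range (R₀.act (E.dB w))) + finrank K₀ (ker R₀ E w) := by
    intro w
    refine ⟨Submodule.finrank_mono (hE w), Submodule.finrank_mono (hE₀ w),
      rank_le hR₀ hR hD (E.dA w), rank_le hR₀ hR hD (E.dB w), ?_⟩
    have h1 := LinearMap.finrank_range_add_finrank_ker (R.act (E.dB w))
    have h2 := LinearMap.finrank_range_add_finrank_ker (R₀.act (E.dB w))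
    rw [dim_eq hR₀ hR] at h1
    rw [← h2] at h1
    exact h1
  have hsum := (Finset.sum_eq_sum_iff_of_le (s := Finset.range (2 * m + 1))
    (f := fun w => finrank K (ker R E w) - finrank K (im R E w))
    (g := fun w => finrank K₀ (ker R₀ E w) - finrank K₀ (im R₀ E w)) (by
      intro w _
      obtain ⟨a1, a2, a3, a4, a5⟩ := hkey w
      omega)).1 hb w (Finset.mem_range.2 hw)
  obtain ⟨a1, a2, a3, a4, a5⟩ := hkey w
  have h3 : finrank K (LinearMap.range (R.act (E.dA w))) = finrank K (im R E w) := rfl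
  have h4 : finrank K₀ (LinearMap.range (R₀.act (E.dA w))) = finrank K₀ (im R₀ E w) := rfl
  rw [h3, h4]
  omega

end

/-- the traces on the weight filtration -/
noncomputable def tr' {C : Corr.{u}} {m : ℕ} {E : WeightTerms C m}
    (hA : ∀ w, C.Hom (E.B w) (E.A w)) (hB : ∀ w, C.Hom (E.D w) (E.B w)) (k : ℕ) (o : Op E)
    (w : ℕ) : ℚ :=
  ∑ w ∈ Finset.range w, (C.tr _ (C.comp (pw (C.one _ - C.comp (E.dB w) (hB w)) k) (o.b w)) -
    C.tr _ (C.comp (C.one _ - pw (C.one _ - C.comp (hA w) (E.dA w)) k) (o.b w)))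

section

variable {C : Corr.{u}} {K : Type} [Field K] [CharZero K] {G : Type} [Group G] {m : ℕ}
  {R : Coh.{u, v} C K} {E : WeightTerms C m} {V : Rep.{v} G K} {e : Edge R E V}

lemma trace_W (hR : IsCoh R) (hE : IsComplex R E) (hV : IsFiltered V m)
    (he : IsEdge e) {g : G} {o : Op E} (ho : ActsBy e g o)
    {hA : ∀ w, C.Hom (E.B w) (E.A w)} {hB : ∀ w, C.Hom (E.D w) (E.B w)} {rA rB : ℕ → ℕ}
    (iA : ∀ w, Inv (E.dA w) (hA w) (rA w)) (iB : ∀ w, Inv (E.dB w) (hB w) (rB w))
    (rk : ∀ w, w < 2 * m + 1 → finrank K (LinearMap.range (R.act (E.dA w))) = rA w ∧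
      finrank K (LinearMap.range (R.act (E.dB w))) = rB w) (k : ℕ)
    (hk : ∀ w, w < 2 * m + 1 → finrank K (R.H (E.A w)) ≤ k ∧ finrank K (R.H (E.B w)) ≤ k ∧
      finrank K (R.H (E.D w)) ≤ k) (w : ℕ) (hw : w ≤ 2 * m + 1) :
    trace K (V.W w) ((V.ρ g).restrict (hV.ρ_mem g w)) = (tr' hA hB k o w : K) := by
  induction w with
  | zero =>
    have h1 : ∀ x : V.W 0, x = 0 := by
      rintro ⟨x, hx⟩
      apply Subtype.ext
      rw [hV.bot] at hx
      exact (Submodule.mem_bot K).1 hx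
    have h2 : (V.ρ g).restrict (hV.ρ_mem g 0) = 0 := by
      apply LinearMap.ext
      intro x
      rw [h1 x, map_zero, map_zero]
    rw [h2, map_zero, tr', Finset.range_zero, Finset.sum_empty, Rat.cast_zero]
  | succ w ih =>
    have h1 := trace_step hE hV he ho w
    rw [ih (by omega)] at h1
    obtain ⟨k1, k2, k3⟩ := hk w (by omega)
    rw [trace_ker hR ho.commutes w (iB w) (rk w (by omega)).2 k k2 k3,
      trace_im hR ho.commutes w (iA w) (rk w (by omega)).1 k k1 k2] at h1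
    rw [tr', Finset.sum_range_succ]
    rw [tr'] at h1
    push_cast at h1 ⊢
    linear_combination (-1 : K) * h1

omit [CharZero K] in
lemma restrict_pow_apply (f : Module.End K V.V) (S : Submodule K V.V) (hS : ∀ x ∈ S, f x ∈ S)
    (hS' : ∀ n, ∀ x ∈ S, (f ^ n) x ∈ S) (n : ℕ) :
    (f.restrict hS) ^ n = (f ^ n).restrict (hS' n) := by
  induction n with
  | zero => rfl
  | succ n ih =>
    rw [pow_succ', ih]
    apply LinearMap.ext
    intro x
    apply Subtype.ext
    rw [Module.End.mul_apply, LinearMap.coe_restrict_apply, LinearMap.coe_restrict_apply,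
      LinearMap.coe_restrict_apply, pow_succ', Module.End.mul_apply]

end

/-- **Independence of the prime from one prime.** -/
theorem main {C : Corr.{u}} {m q : ℕ} (E : WeightTerms C m) {G : Type} [Group G]
    (deg : G →* Multiplicative ℤ) (J : Subgroup G) (hJ : J ≤ deg.ker)
    (hfin : (J.subgroupOf deg.ker).FiniteIndex) (op : G → Op E) {Λ : Type} (K : Λ → Type)
    [∀ l, Field (K l)] [∀ l, CharZero (K l)] (R : ∀ l, Coh.{u, v} C (K l))
    (V : ∀ l, Rep.{v} G (K l)) (e : ∀ l, Edge (R l) E (V l))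
    (h : ∀ l, IsRealisation (e l) op deg J q) (hb : ∀ l l', betti (R l) E = betti (R l') E)
    (l₀ : Λ) (hD : HomEqNum (R l₀)) (hMW : MonodromyWeight (V l₀) m) :
    (∀ l, MonodromyWeight (V l) m) ∧ ∃ P : Polynomial ℚ, ∀ l g,
      deg g = Multiplicative.ofAdd 1 → eulerFactor (V l) deg g = P.map (algebraMap ℚ (K l)) := by
  classical
  choose hA iA using fun w => exists_inverse (h l₀).coh hD (E.dA w)
  choose hB iB using fun w => exists_inverse (h l₀).coh hD (E.dB w)
  set rA : ℕ → ℕ := fun w => finrank (K l₀) (LinearMap.range ((R l₀).act (E.dA w))) with hrA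
  set rB : ℕ → ℕ := fun w => finrank (K l₀) (LinearMap.range ((R l₀).act (E.dB w))) with hrB
  have iA' : ∀ w, Inv (E.dA w) (hA w) (rA w) := fun w => iA w
  have iB' : ∀ w, Inv (E.dB w) (hB w) (rB w) := fun w => iB w
  set kf : ℕ → ℕ := fun w => finrank (K l₀) ((R l₀).H (E.A w)) +
    finrank (K l₀) ((R l₀).H (E.B w)) + finrank (K l₀) ((R l₀).H (E.D w)) with hkf
  set k : ℕ := ∑ w ∈ Finset.range (2 * m + 1), kf w with hk
  have hkw : ∀ l, ∀ w, w < 2 * m + 1 → finrank (K l) ((R l).H (E.A w)) ≤ k ∧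
      finrank (K l) ((R l).H (E.B w)) ≤ k ∧ finrank (K l) ((R l).H (E.D w)) ≤ k := by
    intro l w hw
    rw [dim_eq (h l₀).coh (h l).coh, dim_eq (h l₀).coh (h l).coh, dim_eq (h l₀).coh (h l).coh]
    have h1 : kf w ≤ k := Finset.single_le_sum (f := kf) (fun i _ => Nat.zero_le _)
      (Finset.mem_range.2 hw)
    rw [hkf] at h1
    dsimp only at h1
    omega
  have hrk : ∀ l, ∀ w, w < 2 * m + 1 →
      finrank (K l) (LinearMap.range ((R l).act (E.dA w))) = rA w ∧
      finrank (K l) (LinearMap.range ((R l).act (E.dB w))) = rB w := fun l w hw =>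
    ranks_eq (h l₀).coh (h l).coh (h l₀).complex (h l).complex hD (hb l l₀) w hw
  -- the traces on the weight filtration
  set t : G → ℕ → ℚ := fun g w => tr' hA hB k (op g) w with ht
  have htr : ∀ l g (n : ℕ), deg g = Multiplicative.ofAdd (n : ℤ) → ∀ w, w ≤ 2 * m + 1 →
      trace (K l) ((V l).W w) (((V l).ρ g).restrict ((h l).filtered.ρ_mem g w)) =
        (t g w : K l) := by
    intro l g n hg w hw
    exact trace_W (h l).coh (h l).complex (h l).filtered (h l).edge ((h l).acts g n hg) iA' iB'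
      (hrk l) k (hkw l) w hw
  have hdeg1 : deg 1 = Multiplicative.ofAdd ((0 : ℕ) : ℤ) := by
    rw [map_one]
    rfl
  have hdim : ∀ l w, w ≤ 2 * m + 1 →
      finrank (K l) ((V l).W w) = finrank (K l₀) ((V l₀).W w) := by
    have h1 : ∀ l w, w ≤ 2 * m + 1 → (finrank (K l) ((V l).W w) : ℚ) = t 1 w := by
      intro l w hw
      have h2 := htr l 1 0 hdeg1 w hw
      have h3 : ((V l).ρ 1).restrict ((h l).filtered.ρ_mem 1 w) = LinearMap.id := by
        apply LinearMap.ext
        intro x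
        apply Subtype.ext
        rw [LinearMap.coe_restrict_apply, map_one]
        rfl
      rw [h3, LinearMap.trace_id] at h2
      exact_mod_cast h2
    intro l w hw
    have h2 := h1 l w hw
    rw [← h1 l₀ w hw] at h2
    exact_mod_cast h2
  -- the monodromy-weight conjecture
  have hnu : ∀ l r, r ≤ m → nu (V l₀) m r ≤ nu (V l) m r := by
    intro l r hr
    rw [← rank_corr (h l₀).coh (h l₀).edge (h l₀).N ((h l₀).acts 1 0 hdeg1) hr (iB' (m + r))
      (hrk l₀ _ (by omega)).2 (iA' (m - r)) (hrk l₀ _ (by omega)).1 k (hkw l₀ _ (by omega)).2.1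
      (hkw l₀ _ (by omega)).2.2 (hkw l₀ _ (by omega)).1 (hkw l₀ _ (by omega)).2.1,
      ← rank_corr (h l).coh (h l).edge (h l).N ((h l).acts 1 0 hdeg1) hr (iB' (m + r))
      (hrk l _ (by omega)).2 (iA' (m - r)) (hrk l _ (by omega)).1 k (hkw l _ (by omega)).2.1
      (hkw l _ (by omega)).2.2 (hkw l _ (by omega)).1 (hkw l _ (by omega)).2.1]
    exact rank_le (h l₀).coh (h l).coh hD _
  have hMWl : ∀ l, MonodromyWeight (V l) m := by
    intro l r hr
    obtain ⟨a1, a2⟩ := hMW r hr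
    rw [inj_iff (h l₀).filtered hr] at a1
    rw [surj_iff (h l₀).filtered hr] at a2
    rw [inj_iff (h l).filtered hr, surj_iff (h l).filtered hr]
    have b1 := hnu l r hr
    rw [hdim l (m + r + 1) (by omega), hdim l (m + r) (by omega), hdim l (m - r + 1) (by omega),
      hdim l (m - r) (by omega)]
    omega
  refine ⟨hMWl, ?_⟩
  -- the Euler factors
  have : Finite (Quo deg J) := Subgroup.finite_quotient_of_finiteIndex
  have := Fintype.ofFinite (Quo deg J)
  set s : G → ℕ → ℚ := fun g n => ((Fintype.card (Quo deg J) : ℚ)⁻¹ : ℚ) * ∑ c : Quo deg J,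
    (t (g * (Quotient.out c : deg.ker)) (m + 1) -
      (q : ℚ) ^ n * t (g * (Quotient.out c : deg.ker)) (m - 1)) with hs
  have hinv : ∀ l g (n : ℕ), deg g = Multiplicative.ofAdd (n : ℤ) →
      trace (K l) (inertiaInvariants (V l) deg)
        (((V l).ρ g).restrict (inertiaInvariants_stable (V l) deg g)) = (s g n : K l) := by
    intro l g n hg
    have hgc : ∀ c : Quo deg J, deg (g * (Quotient.out c : deg.ker)) =
        Multiplicative.ofAdd (n : ℤ) := by
      intro c
      rw [map_mul, (Quotient.out c : deg.ker).2, mul_one, hg]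
    have hcomm := fun c => (h l).monodromy.N_ρ _ n (hgc c)
    rw [trace_invariants (h l).monodromy hJ g (fun c => kerN_stable (hcomm c)), hs]
    push_cast
    congr 1
    refine Finset.sum_congr rfl fun c _ => ?_
    have h1 := trace_kerN (h l).filtered (hMWl l) (hcomm c)
    rw [htr l _ n (hgc c) _ (by omega), htr l _ n (hgc c) _ (by omega)] at h1
    linear_combination (-1 : K l) * h1
  by_cases hex : ∃ g₀ : G, deg g₀ = Multiplicative.ofAdd 1
  swap
  · exact ⟨0, fun l g hg => absurd ⟨g, hg⟩ hex⟩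
  obtain ⟨g₀, hg₀⟩ := hex
  set s' : ℕ → ℚ := fun n => s (g₀ ^ n) n with hs'
  have hdegn : ∀ n : ℕ, deg (g₀ ^ n) = Multiplicative.ofAdd (n : ℤ) := by
    intro n
    rw [map_pow, hg₀, ← ofAdd_nsmul]
    congr 1
    simp
  have hcoef : ∀ l i, (eulerFactor (V l) deg g₀).coeff i =
      (Pool.Agent.R401.Tr4.cf s' i : K l) := by
    intro l i
    set f := ((V l).ρ g₀).restrict (inertiaInvariants_stable (V l) deg g₀) with hf
    set b := Module.finBasis (K l) (inertiaInvariants (V l) deg) with hb'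
    have h1 : eulerFactor (V l) deg g₀ = (LinearMap.toMatrix b b f).charpolyRev := by
      rw [eulerFactor, ← Matrix.reverse_charpoly, LinearMap.charpoly_toMatrix]
    rw [h1]
    apply Pool.Agent.R401.Tr4.coeff_eq
    intro n
    have hpow : (LinearMap.toMatrix b b f) ^ (n + 1) = LinearMap.toMatrix b b (f ^ (n + 1)) := by
      rw [LinearMap.toMatrix_pow]
    rw [hpow, ← LinearMap.trace_eq_matrix_trace]
    have h2 := hinv l (g₀ ^ (n + 1)) (n + 1) (hdegn (n + 1))
    have hS' : ∀ n, ∀ x ∈ inertiaInvariants (V l) deg,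
        (((V l).ρ g₀) ^ n) x ∈ inertiaInvariants (V l) deg := by
      intro n x hx
      rw [← map_pow]
      exact inertiaInvariants_stable (V l) deg (g₀ ^ n) x hx
    rw [hf, restrict_pow_apply _ _ _ hS' (n + 1)]
    rw [← h2]
    congr 1
    apply LinearMap.ext
    intro x
    apply Subtype.ext
    rw [LinearMap.coe_restrict_apply, LinearMap.coe_restrict_apply, map_pow]
  have hdegle : ∀ l g, (eulerFactor (V l) deg g).natDegree ≤
      finrank (K l) (inertiaInvariants (V l) deg) := by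
    intro l g
    rw [eulerFactor]
    refine (Polynomial.reverse_natDegree_le _).trans ?_
    rw [LinearMap.charpoly_natDegree]
  set d := finrank (K l₀) (inertiaInvariants (V l₀) deg) with hd
  have hzero : ∀ i, d < i → Pool.Agent.R401.Tr4.cf s' i = 0 := by
    intro i hi
    have h1 := hcoef l₀ i
    rw [Polynomial.coeff_eq_zero_of_natDegree_lt (lt_of_le_of_lt (hdegle l₀ g₀) hi)] at h1
    exact_mod_cast h1.symm
  refine ⟨∑ i ∈ Finset.range (d + 1), Polynomial.C (Pool.Agent.R401.Tr4.cf s' i) *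
    Polynomial.X ^ i, fun l g hg => ?_⟩
  have hsame : eulerFactor (V l) deg g = eulerFactor (V l) deg g₀ := by
    have h1 : ((V l).ρ g).restrict (inertiaInvariants_stable (V l) deg g) =
        ((V l).ρ g₀).restrict (inertiaInvariants_stable (V l) deg g₀) := by
      apply LinearMap.ext
      intro x
      apply Subtype.ext
      rw [LinearMap.coe_restrict_apply, LinearMap.coe_restrict_apply]
      have h2 : deg (g₀⁻¹ * g) = 1 := by
        rw [map_mul, map_inv, hg, hg₀, inv_mul_cancel]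
      have h3 := x.2 _ h2
      have h4 : (V l).ρ g = (V l).ρ g₀ * (V l).ρ (g₀⁻¹ * g) := by
        rw [← map_mul, mul_inv_cancel_left]
      rw [h4, Module.End.mul_apply, h3]
    rw [eulerFactor, eulerFactor, h1]
  rw [hsame]
  refine Polynomial.ext fun i => ?_
  rw [hcoef, Polynomial.coeff_map, Polynomial.finsetSum_coeff]
  simp only [Polynomial.coeff_C_mul, Polynomial.coeff_X_pow, mul_ite, mul_one, mul_zero]
  rw [Finset.sum_ite_eq]
  split_ifs with hi
  · rfl
  · rw [Finset.mem_range] at hi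
    rw [hzero i (by omega), Rat.cast_zero, map_zero]

end Pool.Agent.K9h22.Eul
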