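import Pool.Agent.K9h22.EulS
import Pool.Agent.K9h22.EulE

/-!
# Comparison of the definitions
-/

set_option autoImplicit false

universe u v

namespace Pool.Agent.K9h22.EulS

open Pool.Agent.K9h22

/-- the bundled form -/
def toCorr (C : Corr.{u}) : Eul.Corr.{u} where
  Term := C.Term
  Hom := C.Hom
  grp := C.grp
  mod := C.mod
  comp := fun {i j k} => LinearMap.mk₂ ℚ C.comp
    (fun a b g => ((C.bilinear i j k).2 g).map_add a b)
    (fun c a g => ((C.bilinear i j k).2 g).map_smul c a)
    (fun a b c => ((C.bilinear i j k).1 a).map_add b c)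
    (fun c a b => ((C.bilinear i j k).1 a).map_smul c b)
  one := C.one
  tr := fun i => (C.linear i).mk' _

section

variable {C : Corr.{u}} {K : Type} [Field K] {m : ℕ}

/-- the bundled form -/
def toCoh (R : Coh.{u, v} C K) (h : IsCoh R) : Eul.Coh.{u, v} (toCorr C) K where
  H := R.H
  grp := R.grp
  mod := R.mod
  fin := R.fin
  act := fun {i j} => AddMonoidHom.mk' (R.act : C.Hom i j → _) (h.add i j)

/-- the bundled form -/
def toTerms (E : WeightTerms C m) : Eul.WeightTerms (toCorr C) m where
  A := E.A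
  B := E.B
  D := E.D
  dA := E.dA
  dB := E.dB
  N := E.N

/-- the bundled form -/
def toOp {E : WeightTerms C m} (o : Op E) : Eul.Op (toTerms E) where
  a := o.a
  b := o.b
  c := o.c

lemma isCoh {R : Coh.{u, v} C K} (h : IsCoh R) : Eul.IsCoh (toCoh R h) where
  comp := by
    intro i j k f g
    exact LinearMap.ext (h.comp i j k f g)
  one := h.one
  tr := h.tr

lemma commutes {R : Coh.{u, v} C K} (h : IsCoh R) {E : WeightTerms C m} {o : Op E}
    (ho : Commutes R o) : Eul.Commutes (toCoh R h) (toOp o) := fun w =>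
  ⟨LinearMap.ext (ho w).1, LinearMap.ext (ho w).2⟩

variable {G : Type} [Group G]

/-- the bundled form -/
def toRep (V : Rep.{v} G K) (h : IsAction V) : Eul.Rep.{v} G K where
  V := V.V
  grp := V.grp
  mod := V.mod
  fin := V.fin
  ρ :=
    { toFun := V.ρ
      map_one' := h.one
      map_mul' := fun g g' => LinearMap.ext (h.mul g g') }
  W := V.W
  N := V.N

lemma isFiltered {V : Rep.{v} G K} (h : IsAction V) (hV : IsFiltered V m) :
    Eul.IsFiltered (toRep V h) m where
  bot := hV.bot
  top := hV.top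
  mono := hV.mono
  ρ_mem := hV.ρ_mem
  N_mem := hV.N_mem

lemma isMonodromy {V : Rep.{v} G K} (h : IsAction V) {deg : G →* Multiplicative ℤ}
    {J : Subgroup G} {q : ℕ} (hV : IsMonodromy V deg J q) :
    Eul.IsMonodromy (toRep V h) deg J q where
  N_ρ := fun g n hg => LinearMap.ext (hV.N_ρ g n hg)
  unip := hV.unip

lemma pow_eq {V : Rep.{v} G K} (h : IsAction V) (r : ℕ) (x : V.V) :
    ((toRep V h).N ^ r) x = V.N^[r] x := Module.End.pow_apply _ _ _

lemma monodromyWeight_iff {V : Rep.{v} G K} (h : IsAction V) :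
    Eul.MonodromyWeight (toRep V h) m ↔ MonodromyWeight V m := by
  constructor
  · intro H r hr
    refine ⟨fun x hx hx' => (H r hr).1 x hx ?_, fun y hy => ?_⟩
    · rw [pow_eq h]
      exact hx'
    · obtain ⟨x, hx, hxy⟩ := (H r hr).2 y hy
      rw [pow_eq h] at hxy
      exact ⟨x, hx, hxy⟩
  · intro H r hr
    refine ⟨fun x hx hx' => (H r hr).1 x hx ?_, fun y hy => ?_⟩
    · rw [pow_eq h] at hx'
      exact hx'
    · obtain ⟨x, hx, hxy⟩ := (H r hr).2 y hy
      refine ⟨x, hx, ?_⟩
      rw [pow_eq h]
      exact hxy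

/-- the bundled form -/
def toEdge {R : Coh.{u, v} C K} {E : WeightTerms C m} {V : Rep.{v} G K} (e : Edge R E V)
    (hR : IsCoh R) (h : IsAction V) (he : IsEdge e) :
    Eul.Edge (toCoh R hR) (toTerms E) (toRep V h) where
  rep := fun w =>
    { carrier := {p | e.rep w p.1 p.2}
      add_mem' := fun {a b} ha hb => (he w).linear.2.1 a.1 a.2 b.1 b.2 ha hb
      zero_mem' := (he w).linear.1
      smul_mem' := fun c a ha => (he w).linear.2.2 c a.1 a.2 ha }

lemma isEdge {R : Coh.{u, v} C K} {E : WeightTerms C m} {V : Rep.{v} G K} (e : Edge R E V)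
    (hR : IsCoh R) (h : IsAction V) (he : IsEdge e) : Eul.IsEdge (toEdge e hR h he) where
  ker := fun w => (he w).ker
  wt := fun w => (he w).wt
  left := fun w => (he w).left
  right := fun w => (he w).right
  zero := fun w => (he w).zero
  im := fun w => (he w).im

lemma actsBy {R : Coh.{u, v} C K} {E : WeightTerms C m} {V : Rep.{v} G K} (e : Edge R E V)
    (hR : IsCoh R) (h : IsAction V) (he : IsEdge e) {g : G} {o : Op E} (ho : ActsBy e g o) :
    Eul.ActsBy (toEdge e hR h he) g (toOp o) where
  commutes := commutes hR ho.commutes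
  equiv := fun w => ho.equiv w
  zero := fun w => ho.zero w

lemma monodromyBy {R : Coh.{u, v} C K} {E : WeightTerms C m} {V : Rep.{v} G K} (e : Edge R E V)
    (hR : IsCoh R) (h : IsAction V) (he : IsEdge e) (hN : MonodromyBy e) :
    Eul.MonodromyBy (toEdge e hR h he) := by
  intro r hr b x hx
  have h1 := hN r hr b x hx
  have h2 : ((toRep V h).N ^ r) x = V.N^[r] x := pow_eq h r x
  rw [h2]
  exact h1

lemma isRealisation {R : Coh.{u, v} C K} {E : WeightTerms C m} {V : Rep.{v} G K} {e : Edge R E V}
    {op : G → Op E} {deg : G →* Multiplicative ℤ} {J : Subgroup G} {q : ℕ}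
    (h : IsRealisation e op deg J q) :
    Eul.IsRealisation (toEdge e h.coh h.action h.edge) (fun g => toOp (op g)) deg J q where
  coh := isCoh h.coh
  complex := h.complex
  filtered := isFiltered h.action h.filtered
  monodromy := isMonodromy h.action h.monodromy
  edge := isEdge e h.coh h.action h.edge
  N := monodromyBy e h.coh h.action h.edge h.N
  acts := fun g n hg => actsBy e h.coh h.action h.edge (h.acts g n hg)

lemma mem_inertiaInvariants {V : Rep.{v} G K} {deg : G →* Multiplicative ℤ} (x : V.V) :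
    x ∈ inertiaInvariants V deg ↔ ∀ h, deg h = 1 → V.ρ h x = x := by
  rw [inertiaInvariants, Submodule.mem_iInf]
  constructor
  · intro H h hh
    exact H ⟨h, hh⟩
  · rintro H ⟨h, hh⟩
    exact H h hh

lemma isEulerFactor {V : Rep.{v} G K} (h : IsAction V) {deg : G →* Multiplicative ℤ} (g : G) :
    IsEulerFactor V deg g (Eul.eulerFactor (toRep V h) deg g) := by
  have hS : inertiaInvariants V deg = Eul.inertiaInvariants (toRep V h) deg := by
    ext x
    rw [mem_inertiaInvariants]
    rfl
  unfold IsEulerFactor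
  rw [hS]
  exact ⟨((toRep V h).ρ g).restrict (Eul.inertiaInvariants_stable (toRep V h) deg g),
    fun x => rfl, rfl⟩

end

/-- **Independence of the prime from one prime.** -/
theorem main {C : Corr.{u}} {m q : ℕ} (E : WeightTerms C m) {G : Type} [Group G]
    (deg : G →* Multiplicative ℤ) (J : Subgroup G) (hJ : IsFiniteIndex deg J)
    (op : G → Op E) {Λ : Type} (K : Λ → Type)
    [∀ l, Field (K l)] [∀ l, CharZero (K l)] (R : ∀ l, Coh.{u, v} C (K l))
    (V : ∀ l, Rep.{v} G (K l)) (e : ∀ l, Edge (R l) E (V l))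
    (h : ∀ l, IsRealisation (e l) op deg J q) (hb : ∀ l l', betti (R l) E = betti (R l') E)
    (l₀ : Λ) (hD : HomEqNum (R l₀)) (hMW : MonodromyWeight (V l₀) m) :
    (∀ l, MonodromyWeight (V l) m) ∧ ∃ P : Polynomial ℚ, ∀ l g,
      HasDegree deg g 1 → IsEulerFactor (V l) deg g (P.map (algebraMap ℚ (K l))) := by
  obtain ⟨h1, P, hP⟩ := Eul.main (toTerms E) deg J hJ.le hJ.fin (fun g => toOp (op g)) K
    (fun l => toCoh (R l) (h l).coh) (fun l => toRep (V l) (h l).action)
    (fun l => toEdge (e l) (h l).coh (h l).action (h l).edge) (fun l => isRealisation (h l)) hb l₀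
    hD ((monodromyWeight_iff (h l₀).action).2 hMW)
  refine ⟨fun l => (monodromyWeight_iff (h l).action).1 (h1 l), P, fun l g hg => ?_⟩
  rw [← hP l g hg]
  exact isEulerFactor (h l).action g

end Pool.Agent.K9h22.EulS
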