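import Mathlib

/-!
# Weight spectral sequences and local Euler factors: the definitions of the statement
-/

set_option autoImplicit false
set_option linter.checkUnivs false

universe u v

namespace Pool.Agent.K9h22.EulS

section generic

/-- `f` is bilinear over `ℚ`. -/
def Bilinear {A B D : Type*} [AddCommGroup A] [Module ℚ A] [AddCommGroup B] [Module ℚ B] [AddCommGroup D]
    [Module ℚ D] (f : A → B → D) : Prop :=
  (∀ a, IsLinearMap ℚ (f a)) ∧ ∀ b, IsLinearMap ℚ fun a => f a b

/-- `f` is additive. -/
def Additive {A B : Type*} [AddCommGroup A] [AddCommGroup B] (f : A → B) : Prop :=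
  ∀ x y, f (x + y) = f x + f y

variable {K A A' V V' : Type*} [Field K] [AddCommGroup A] [Module K A] [AddCommGroup A'] [Module K A']
  [AddCommGroup V] [Module K V] [AddCommGroup V'] [Module K V']

/-- The trace of `f` is the rational number `r`. -/
def TraceIs (f : A →ₗ[K] A) (r : ℚ) : Prop := LinearMap.trace K A f = (r : K)

/-- `h` is `f` followed by `g`. -/
def IsComp (h : A →ₗ[K] V) (f : A →ₗ[K] A') (g : A' →ₗ[K] V) : Prop := ∀ x, h x = g (f x)

/-- `d` commutes with the endomorphisms `f` and `f'`. -/
def Comm (d : A →ₗ[K] A') (f : A →ₗ[K] A) (f' : A' →ₗ[K] A') : Prop := ∀ x, d (f x) = f' (d x)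

/-- `f` maps `S` to `T`. -/
def Maps (f : V →ₗ[K] V) (S T : Submodule K V) : Prop := ∀ x ∈ S, f x ∈ T

/-- `N f = q ^ n f N`. -/
def TwistComm (q n : ℕ) (N f : V →ₗ[K] V) : Prop := ∀ x, N (f x) = (q : K) ^ n • f (N x)

/-- For `S ≤ S'` and `T ≤ T'` the map `f` induces an isomorphism from `S' / S` to `T' / T`: if `x` is in `S'`
and `f x` in `T` then `x` is in `S`, and the elements of `T'` are in the image of `S'` modulo `T`. -/
def GrIso (f : V → V) (S S' T T' : Submodule K V) : Prop :=
  (∀ x ∈ S', f x ∈ T → x ∈ S) ∧ ∀ y ∈ T', ∃ x ∈ S', y - f x ∈ T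

/-- `f` is the polynomial `det (1 - T g | S)`, the reverse of the characteristic polynomial of the
restriction of `g` to the stable subspace `S`. -/
def IsFactor [Module.Finite K V] (S : Submodule K V) (g : V →ₗ[K] V) (f : Polynomial K) : Prop :=
  ∃ φ : S →ₗ[K] S, (∀ x, (φ x : V) = g x) ∧ f = φ.charpoly.reverse

/-- The relation `r` is linear. -/
def LinearRel (K : Type*) {A V : Type*} [Field K] [AddCommGroup A] [Module K A] [AddCommGroup V] [Module K V]
    (r : A → V → Prop) : Prop :=
  r 0 0 ∧ (∀ a x a' x', r a x → r a' x' → r (a + a') (x + x')) ∧ ∀ (c : K) a x, r a x → r (c • a) (c • x)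

/-- The pair of maps `f`, `g` transforms the relation `r` into `r'`. -/
def RelMap (r : A → V → Prop) (r' : A' → V' → Prop) (f : A → A') (g : V → V') : Prop :=
  ∀ a x, r a x → r' (f a) (g x)

/-- If `r a x` and `x` is in `W` then `f a` is in `T`. -/
def Kills (r : A → V → Prop) (W : Submodule K V) (f : A →ₗ[K] A) (T : Submodule K A) : Prop :=
  ∀ a x, r a x → x ∈ W → f a ∈ T

/-- The linear relation `r` is given by a linear map from `S` onto `W' / W` which is zero on `T`: all elements
of `S` and of `W'` occur, `r 0 x` if `x` is in `W`, and conversely `x` is in `W` if `r a x` with `a` in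
`T`. -/
structure EdgeRel (r : A → V → Prop) (S T : Submodule K A) (W W' : Submodule K V) : Prop where
  linear : LinearRel K r
  ker : ∀ a x, r a x → a ∈ S
  wt : ∀ a x, r a x → x ∈ W'
  left : ∀ a ∈ S, ∃ x, r a x
  right : ∀ x ∈ W', ∃ a, r a x
  zero : ∀ x ∈ W, r 0 x
  im : ∀ a x, r a x → a ∈ T → x ∈ W

end generic

/-- Algebraic correspondences between the terms of the weight spectral sequence. A term stands for a finite
direct sum of groups `H^a(Y)`, `Y` smooth projective over the algebraic closure of the finite residue field
(the strata; Tate twists are trivialised); the elements of `Hom i j` are the matrices of algebraic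
correspondences with rational coefficients which act between them, so of cycles on products `Y × Y'`. -/
structure Corr where
  /-- the terms -/
  Term : Type
  /-- the correspondences -/
  Hom : Term → Term → Type u
  [grp : ∀ i j, AddCommGroup (Hom i j)]
  [mod : ∀ i j, Module ℚ (Hom i j)]
  /-- composition: first the first, then the second correspondence -/
  comp : ∀ {i j k}, Hom i j → Hom j k → Hom i k
  bilinear : ∀ i j k, Bilinear (comp : Hom i j → Hom j k → Hom i k)
  /-- the identity -/
  one : ∀ i, Hom i i
  /-- the trace, an intersection number (with the transposed Künneth components of the diagonals) which does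
  not depend on a cohomology theory -/
  tr : ∀ i, Hom i i → ℚ
  linear : ∀ i, IsLinearMap ℚ (tr i)

attribute [instance] Corr.grp Corr.mod

/-- The cohomology of the terms with coefficients in `K` (the `ℓ`-adic cohomology, for `K = ℚ_ℓ`) and the
action of the correspondences. -/
structure Coh (C : Corr.{u}) (K : Type) [Field K] where
  /-- the cohomology -/
  H : C.Term → Type v
  [grp : ∀ i, AddCommGroup (H i)]
  [mod : ∀ i, Module K (H i)]
  [fin : ∀ i, Module.Finite K (H i)]
  /-- the action of the correspondences -/
  act : ∀ {i j}, C.Hom i j → (H i →ₗ[K] H j)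

attribute [instance] Coh.grp Coh.mod Coh.fin

/-- The part of the `E_1` weight spectral sequence of a strictly semistable scheme `X'` which computes the
cohomology of degree `m`, by the weight `w`: the terms of total degree `m - 1`, `m` and `m + 1`. -/
structure WeightTerms (C : Corr.{u}) (m : ℕ) where
  /-- the term of weight `w` and total degree `m - 1` -/
  A : ℕ → C.Term
  /-- the term of weight `w` and total degree `m` -/
  B : ℕ → C.Term
  /-- the term of weight `w` and total degree `m + 1` -/
  D : ℕ → C.Term
  /-- the differentials `d_1` (sums of restrictions and Gysin homomorphisms) -/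
  dA : ∀ w, C.Hom (A w) (B w)
  /-- the differentials `d_1` (sums of restrictions and Gysin homomorphisms) -/
  dB : ∀ w, C.Hom (B w) (D w)
  /-- the power `N ^ r` of the monodromy operator (the identity on the common direct summands) -/
  N : ∀ r, C.Hom (B (m + r)) (B (m - r))

/-- Algebraic correspondences on the terms. -/
structure Op {C : Corr.{u}} {m : ℕ} (E : WeightTerms C m) where
  /-- on the term of weight `w` and total degree `m - 1` -/
  a : ∀ w, C.Hom (E.A w) (E.A w)
  /-- on the term of weight `w` and total degree `m` -/
  b : ∀ w, C.Hom (E.B w) (E.B w)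
  /-- on the term of weight `w` and total degree `m + 1` -/
  c : ∀ w, C.Hom (E.D w) (E.D w)

section

variable {C : Corr.{u}} {K : Type} [Field K]

/-- The known properties of the cohomology: the correspondences act functorially, and the traces are the
intersection numbers `C.tr`. -/
structure IsCoh (R : Coh.{u, v} C K) : Prop where
  add : ∀ i j, Additive (R.act : C.Hom i j → _)
  comp : ∀ i j k (f : C.Hom i j) (g : C.Hom j k), IsComp (R.act (C.comp f g)) (R.act f) (R.act g)
  one : ∀ i, R.act (C.one i) = LinearMap.id
  tr : ∀ i (f : C.Hom i i), TraceIs (R.act f) (C.tr i f)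

/-- Homological and numerical equivalence coincide for the correspondences: if the intersection numbers of `f`
with all correspondences `g` in the other direction are zero then `f` acts as zero. -/
def HomEqNum (R : Coh.{u, v} C K) : Prop :=
  ∀ i j (f : C.Hom i j), (∀ g : C.Hom j i, C.tr i (C.comp f g) = 0) → R.act f = 0

variable {m : ℕ}

/-- The image of `d_1` in the term of degree `m` and weight `w`. -/
def im (R : Coh.{u, v} C K) (E : WeightTerms C m) (w : ℕ) : Submodule K (R.H (E.B w)) :=
  LinearMap.range (R.act (E.dA w))

/-- The kernel of `d_1` in the term of degree `m` and weight `w`. -/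
def ker (R : Coh.{u, v} C K) (E : WeightTerms C m) (w : ℕ) : Submodule K (R.H (E.B w)) :=
  LinearMap.ker (R.act (E.dB w))

/-- The Betti number of `X'` of degree `m`: the sum over the weights `w = 0, …, 2 m` of the dimensions of the
spaces `ker d_1 / im d_1`. -/
noncomputable def betti (R : Coh.{u, v} C K) (E : WeightTerms C m) : ℕ :=
  ∑ w ∈ Finset.range (2 * m + 1), (Module.finrank K (ker R E w) - Module.finrank K (im R E w))

/-- `d_1 ∘ d_1 = 0`. -/
def IsComplex (R : Coh.{u, v} C K) (E : WeightTerms C m) : Prop := ∀ w, im R E w ≤ ker R E w

/-- The correspondences `o` commute with `d_1`. -/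
def Commutes (R : Coh.{u, v} C K) {E : WeightTerms C m} (o : Op E) : Prop :=
  ∀ w, Comm (R.act (E.dA w)) (R.act (o.a w)) (R.act (o.b w)) ∧
    Comm (R.act (E.dB w)) (R.act (o.b w)) (R.act (o.c w))

end

/-- A finite dimensional representation `V` of the Weil group `G` of a local field with coefficients in `K`,
with its weight filtration and its monodromy operator. -/
structure Rep (G : Type) [Group G] (K : Type) [Field K] where
  /-- the space -/
  V : Type v
  [grp : AddCommGroup V]
  [mod : Module K V]
  [fin : Module.Finite K V]
  /-- the action of the Weil group -/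
  ρ : G → (V →ₗ[K] V)
  /-- `W w` is the part of the weight filtration of the weights smaller than `w` -/
  W : ℕ → Submodule K V
  /-- the monodromy operator -/
  N : V →ₗ[K] V

attribute [instance] Rep.grp Rep.mod Rep.fin

section

variable {G : Type} [Group G] {K : Type} [Field K]

/-- `G` acts on `V`. -/
structure IsAction (V : Rep.{v} G K) : Prop where
  one : V.ρ 1 = LinearMap.id
  mul : ∀ g h, IsComp (V.ρ (g * h)) (V.ρ h) (V.ρ g)

/-- The weights of `V` are between `0` and `2 m`, `G` respects the weight filtration and `N` lowers the
weights by two. -/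
structure IsFiltered (V : Rep.{v} G K) (m : ℕ) : Prop where
  bot : V.W 0 = ⊥
  top : V.W (2 * m + 1) = ⊤
  mono : Monotone V.W
  ρ_mem : ∀ g w, Maps (V.ρ g) (V.W w) (V.W w)
  N_mem : ∀ w, Maps V.N (V.W w) (V.W (w - 2))

/-- The element `g` of the Weil group has degree `n` (it acts on the residue field as the power `n` of the
geometric Frobenius element). -/
def HasDegree (deg : G →* Multiplicative ℤ) (g : G) (n : ℕ) : Prop := deg g = Multiplicative.ofAdd (n : ℤ)

/-- The relations between `N` and the Weil group, `q` the number of elements of the residue field, and the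
kernel of `N`: it is fixed by the subgroup `J` of the inertia group. -/
structure IsMonodromy (V : Rep.{v} G K) (deg : G →* Multiplicative ℤ) (J : Subgroup G) (q : ℕ) : Prop where
  N_ρ : ∀ g n, HasDegree deg g n → TwistComm q n V.N (V.ρ g)
  unip : ∀ x, V.N x = 0 ↔ ∀ g ∈ J, V.ρ g x = x

/-- **The monodromy-weight conjecture for `V`** in degree `m`: for all `r ≤ m` the power `N ^ r` induces an
isomorphism from the graded piece of weight `m + r` of the weight filtration to the graded piece of weight
`m - r`. -/
def MonodromyWeight (V : Rep.{v} G K) (m : ℕ) : Prop :=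
  ∀ r ≤ m, GrIso V.N^[r] (V.W (m + r)) (V.W (m + r + 1)) (V.W (m - r)) (V.W (m - r + 1))

/-- The vectors fixed by the inertia group (the elements of degree zero). -/
def inertiaInvariants (V : Rep.{v} G K) (deg : G →* Multiplicative ℤ) : Submodule K V.V :=
  ⨅ h : {h // HasDegree deg h 0}, LinearMap.eqLocus (V.ρ h) LinearMap.id

/-- `f` is the local Euler factor `det (1 - T g | V ^ I)`, for the inertia group `I`. -/
def IsEulerFactor (V : Rep.{v} G K) (deg : G →* Multiplicative ℤ) (g : G) (f : Polynomial K) : Prop :=
  IsFactor (inertiaInvariants V deg) (V.ρ g) f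

end

/-- The subgroup `J` is contained in the inertia group, with finite index. -/
structure IsFiniteIndex {G : Type} [Group G] (deg : G →* Multiplicative ℤ) (J : Subgroup G) : Prop where
  le : J ≤ deg.ker
  fin : (J.subgroupOf deg.ker).FiniteIndex

section

variable {C : Corr.{u}} {K : Type} [Field K] {G : Type} [Group G] {m : ℕ}

/-- Let `V` be a direct summand of the cohomology `V'` of `X'` in degree `m`. The relation `rep w b x` means:
`b` is in `ker d_1` (weight `w`, degree `m`), `x` is in the part of weights `≤ w` of `V`, and the class of `x`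
in the graded piece of weight `w` of `V` is the projection of the class of `b` in the graded piece `ker d_1 /
im d_1` of `V'`. -/
structure Edge (R : Coh.{u, v} C K) (E : WeightTerms C m) (V : Rep.{v} G K) where
  /-- the relation -/
  rep : ∀ w, R.H (E.B w) → V.V → Prop

/-- The element `g` of the Weil group acts on `V`, and on `V'` after projection to `V`, by the
correspondences `o`. -/
structure ActsBy {R : Coh.{u, v} C K} {E : WeightTerms C m} {V : Rep.{v} G K} (e : Edge R E V) (g : G)
    (o : Op E) : Prop where
  commutes : Commutes R o
  equiv : ∀ w, RelMap (e.rep w) (e.rep w) (R.act (o.b w)) (V.ρ g)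
  zero : ∀ w, Kills (e.rep w) (V.W w) (R.act (o.b w)) (im R E w)

/-- The powers of the monodromy operator are given by the correspondences `E.N`. -/
def MonodromyBy {R : Coh.{u, v} C K} {E : WeightTerms C m} {V : Rep.{v} G K} (e : Edge R E V) : Prop :=
  ∀ r ≤ m, RelMap (e.rep (m + r)) (e.rep (m - r)) (R.act (E.N r)) V.N^[r]

/-- The relations `rep w` are the graded pieces of a projection of the abutment of the spectral sequence
onto `V`. -/
def IsEdge {R : Coh.{u, v} C K} {E : WeightTerms C m} {V : Rep.{v} G K} (e : Edge R E V) : Prop :=
  ∀ w, EdgeRel (e.rep w) (ker R E w) (im R E w) (V.W w) (V.W (w + 1))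

/-- All known properties together: `V` is a direct summand of the cohomology of degree `m` of `X'`, computed
by the weight spectral sequence `E`, on which the elements `g` of nonnegative degree of the Weil group act by
the algebraic correspondences `op g`. -/
structure IsRealisation {R : Coh.{u, v} C K} {E : WeightTerms C m} {V : Rep.{v} G K} (e : Edge R E V)
    (op : G → Op E) (deg : G →* Multiplicative ℤ) (J : Subgroup G) (q : ℕ) : Prop where
  coh : IsCoh R
  complex : IsComplex R E
  action : IsAction V
  filtered : IsFiltered V m
  monodromy : IsMonodromy V deg J q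
  edge : IsEdge e
  N : MonodromyBy e
  acts : ∀ g n, HasDegree deg g n → ActsBy e g (op g)

end

end Pool.Agent.K9h22.EulS
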