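import Pool.Agent.K9h22.LiftDefs
import Pool.Agent.K9h22.LiftA

/-!
# Lifting cycles orthogonally to vertical cycles
-/

set_option autoImplicit false

universe u v

namespace Pool.Agent.K9h22.Lift

section Local

variable {K : Type v} [Field K] [CharZero K] {Z : Type u} [AddCommGroup Z] [Module ℚ Z]
  {F : Fibre.{u, v} K Z}

omit [CharZero K] in
lemma int_comm (Y : Cyc.{u, v} K) (a b : Y.Ch) : Y.int a b = Y.int b a := by
  conv_lhs => rw [Y.int_symm]
  rfl

omit [CharZero K] in
lemma exists_classes {z : Z} (h : FromComponents F z) :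
    ∃ x : ∀ s, (F.Y s).H, F.clX z = ∑ s, F.pushH s (x s) := by
  classical
  set Φ : (∀ s, (F.Y s).H) →ₗ[K] F.HX := ∑ s, F.pushH s ∘ₗ LinearMap.proj s with hΦ
  have hle : (⨆ s, LinearMap.range (F.pushH s)) ≤ LinearMap.range Φ := by
    refine iSup_le fun s => ?_
    rintro _ ⟨y, rfl⟩
    refine ⟨Pi.single s y, ?_⟩
    rw [hΦ, LinearMap.sum_apply, Finset.sum_eq_single s]
    · rw [LinearMap.comp_apply, LinearMap.proj_apply, Pi.single_eq_same]
    · intro t _ hts
      rw [LinearMap.comp_apply, LinearMap.proj_apply, Pi.single_eq_of_ne hts, map_zero]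
    · intro h
      exact absurd (Finset.mem_univ s) h
  obtain ⟨x, hx⟩ := hle h
  refine ⟨x, ?_⟩
  rw [← hx, hΦ, LinearMap.sum_apply]
  rfl

/-- The local lemma: correction of `z` by vertical cycles. -/
theorem exists_correction {codimZ : ℕ → Submodule ℚ Z} (hF : IsFibre F codimZ) {p q : ℕ} {z : Z}
    (hz : FromComponents F z)
    (hD : ∀ s, HomEqNum (F.Y s) (q + 1) p) :
    ∃ f : ∀ s, (F.Y s).Ch, (∀ s, f s ∈ (F.Y s).codim p) ∧ ∀ s, ∀ a ∈ (F.Y s).codim q,
      (F.Y s).int (F.pull s (z + ∑ t, F.push t (f t))) a = 0 := by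
  classical
  obtain ⟨x, hx⟩ := exists_classes hz
  -- the vertical cycle
  set vert : (∀ s, (F.Y s).codim q) →ₗ[ℚ] Z :=
    ∑ s, F.push s ∘ₗ ((F.Y s).codim q).subtype ∘ₗ LinearMap.proj s with hvert
  have hv : ∀ g, vert g = ∑ s, F.push s (g s) := fun g => by rw [hvert, LinearMap.sum_apply]; rfl
  set β : (∀ s, (F.Y s).codim q) →+ (∀ t, (F.Y t).H) :=
    { toFun := fun g t => (F.Y t).cl (F.pull t (vert g))
      map_zero' := by
        funext t
        simp
      map_add' := by
        intro g g'
        funext t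
        simp } with hβ
  have hβa : ∀ g t, β g t = (F.Y t).cl (F.pull t (vert g)) := fun g t => rfl
  set α : (∀ s, (F.Y s).codim p) →+ (∀ t, (F.Y t).H) :=
    { toFun := fun f t => (F.Y t).cl (f t)
      map_zero' := by
        funext t
        simp
      map_add' := by
        intro g g'
        funext t
        simp } with hα
  have hαa : ∀ f t, α f t = (F.Y t).cl (f t) := fun f t => rfl
  set P : (∀ t, (F.Y t).H) →ₗ[K] (∀ t, (F.Y t).H) →ₗ[K] K :=
    ∑ t, (F.Y t).cup.compl₁₂ (LinearMap.proj t) (LinearMap.proj t) with hP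
  have hPa : ∀ y y', P y y' = ∑ t, (F.Y t).cup (y t) (y' t) := by
    intro y y'
    rw [hP, LinearMap.sum_apply, LinearMap.sum_apply]
    rfl
  set b : (∀ s, (F.Y s).codim p) →ₗ[ℚ] (∀ s, (F.Y s).codim q) →ₗ[ℚ] ℚ :=
    ∑ t, (F.Y t).int.compl₁₂ (((F.Y t).codim p).subtype ∘ₗ LinearMap.proj t) (F.pull t ∘ₗ vert)
    with hb
  have hba : ∀ f g, b f g = ∑ t, (F.Y t).int (f t) (F.pull t (vert g)) := by
    intro f g
    rw [hb, LinearMap.sum_apply, LinearMap.sum_apply]
    rfl
  have hsum : ∀ (f : ∀ s, (F.Y s).Ch) (g : ∀ s, (F.Y s).codim q),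
      ∑ t, (F.Y t).int (f t) (F.pull t (vert g)) =
        ∑ s, (F.Y s).int (F.pull s (∑ t, F.push t (f t))) (g s) := by
    intro f g
    have e1 : ∀ t, (F.Y t).int (f t) (F.pull t (vert g)) =
        ∑ s, (F.Y s).int (F.pull s (F.push t (f t))) (g s) := by
      intro t
      rw [hv, map_sum, map_sum]
      exact Finset.sum_congr rfl fun s _ => (hF.symm s t (f t) (g s)).symm
    rw [Finset.sum_congr rfl fun t _ => e1 t, Finset.sum_comm]
    refine Finset.sum_congr rfl fun s _ => ?_
    rw [map_sum, map_sum, LinearMap.sum_apply]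
  obtain ⟨f, hf⟩ := exists_rational b P α β (by
      intro f g
      rw [hPa, hba]
      push_cast
      exact Finset.sum_congr rfl fun t _ => by rw [hαa, hβa, (F.Y t).cup_cl]) (-x)
    (fun g => -∑ s, (F.Y s).int (F.pull s z) (g s)) (by
      intro g
      rw [map_neg, LinearMap.neg_apply, hPa]
      push_cast
      congr 1
      have e1 : ∀ t, (F.Y t).cup (x t) (β g t) =
          ∑ s, (F.Y s).cup (F.pullH s (F.pushH t (x t))) ((F.Y s).cl (g s)) := by
        intro t
        rw [hβa, hF.pull_cl, hv, map_sum, map_sum, map_sum]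
        refine Finset.sum_congr rfl fun s _ => ?_
        rw [← hF.push_cl]
        exact (hF.symmH s t (x t) _).symm
      rw [Finset.sum_congr rfl fun t _ => e1 t, Finset.sum_comm]
      refine Finset.sum_congr rfl fun s _ => ?_
      rw [← (F.Y s).cup_cl, hF.pull_cl, hx, map_sum, map_sum, LinearMap.sum_apply])
    (by
      intro g h0
      funext t
      rw [hβa]
      refine hD t _ ?_ ?_
      · apply hF.pull_codim
        rw [hv]
        exact Submodule.sum_mem _ fun s _ => hF.push_codim s q _ (g s).2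
      · intro w hw
        have h1 := h0 (Pi.single t ⟨w, hw⟩)
        rw [hba, Finset.sum_eq_single t] at h1
        · rw [Pi.single_eq_same] at h1
          rw [int_comm]
          exact h1
        · intro s _ hst
          rw [Pi.single_eq_of_ne hst]
          simp
        · intro h
          exact absurd (Finset.mem_univ t) h)
  refine ⟨fun s => f s, fun s => (f s).2, fun s a ha => ?_⟩
  have h1 := hf (Pi.single s ⟨a, ha⟩)
  rw [hba, hsum (fun t => (f t : (F.Y t).Ch))] at h1
  have h2 : ∀ y : Z, ∑ t, (F.Y t).int (F.pull t y)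
      ((Pi.single s (⟨a, ha⟩ : (F.Y s).codim q) : ∀ t, (F.Y t).codim q) t) =
      (F.Y s).int (F.pull s y) a := by
    intro y
    rw [Finset.sum_eq_single s]
    · rw [Pi.single_eq_same]
    · intro t _ hts
      rw [Pi.single_eq_of_ne hts]
      simp
    · intro h
      exact absurd (Finset.mem_univ s) h
  rw [h2, h2] at h1
  rw [map_add, map_add, LinearMap.add_apply, h1, add_neg_cancel]

/-- Over a point with smooth fibre no correction is necessary. -/
theorem int_eq_zero_of_smooth (hc : PullClasses F) (hsm : Smooth F) {z : Z}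
    (hz : FromComponents F z) (s : F.S) (a : (F.Y s).Ch) : (F.Y s).int (F.pull s z) a = 0 := by
  obtain ⟨x, hx⟩ := exists_classes hz
  have h1 : (F.Y s).cl (F.pull s z) = 0 := by
    rw [hc, hx, map_sum]
    exact Finset.sum_eq_zero fun t _ => LinearMap.congr_fun (hsm s t) (x t)
  have h2 := (F.Y s).cup_cl (F.pull s z) a
  rw [h1, map_zero, LinearMap.zero_apply] at h2
  exact_mod_cast h2.symm

end Local

/-- **The criterion.** -/
theorem lifts_of_homEqNum {d : ℕ} {M : Model.{u, v} d} (hM : IsModel M) {i : ℕ} (hi : 1 ≤ i)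
    (hid : i ≤ d) (hloc : ClassesFromComponents M i)
    (hD : ∀ v ∈ M.bad, ∀ s, HomEqNum ((M.fib v).Y s) (d + 1 - i) (i - 1)) :
    LiftsOrthogonally M i := by
  classical
  intro c hc hci
  obtain ⟨z₀, hz₀, hres⟩ := hM.surj i c hci
  have hfrom : ∀ v, FromComponents (M.fib v) z₀ := hloc z₀ hz₀ (by rw [hres]; exact hc)
  have hcorr : ∀ v ∈ M.bad, ∃ f : ∀ s, ((M.fib v).Y s).Ch,
      (∀ s, f s ∈ ((M.fib v).Y s).codim (i - 1)) ∧ ∀ s, ∀ a ∈ ((M.fib v).Y s).codim (d - i),
      ((M.fib v).Y s).int ((M.fib v).pull s (z₀ + ∑ t, (M.fib v).push t (f t))) a = 0 := by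
    intro v hv
    refine exists_correction (hM.fibre v) (hfrom v) fun s => ?_
    have : d - i + 1 = d + 1 - i := by omega
    rw [this]
    exact hD v hv s
  choose! f hf hf' using hcorr
  have hresz : M.res (z₀ + ∑ v ∈ M.bad, ∑ t, (M.fib v).push t (f v t)) = c := by
    rw [map_add, hres, map_sum]
    have h0 : ∀ v t (a : ((M.fib v).Y t).Ch), M.res ((M.fib v).push t a) = 0 := fun v t a =>
      LinearMap.congr_fun (hM.res_push v t) a
    simp only [map_sum, h0, Finset.sum_const_zero, add_zero]
  refine ⟨z₀ + ∑ v ∈ M.bad, ∑ t, (M.fib v).push t (f v t), ?_, hresz, ?_⟩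
  · refine Submodule.add_mem _ hz₀ (Submodule.sum_mem _ fun v hv => Submodule.sum_mem _ fun t _ => ?_)
    have h1 := (hM.fibre v).push_codim t (i - 1) _ (hf v hv t)
    rwa [Nat.sub_add_cancel hi] at h1
  · intro g hg hg0
    have e1 : d + 1 - i = d - i + 1 := by omega
    rw [e1] at hg
    have h1 := hM.ker (d - i) g hg hg0
    have hle : (⨆ v, vertical M v (d - i)) ≤ LinearMap.ker
        (M.pairing (z₀ + ∑ v ∈ M.bad, ∑ t, (M.fib v).push t (f v t))) := by
      refine iSup_le fun v => iSup_le fun s => ?_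
      rintro _ ⟨a, ha, rfl⟩
      rw [LinearMap.mem_ker, hM.pairing_push v s _ (Submodule.mem_comap.2 (by rw [hresz]; exact hc)) a,
        LinearMap.comp_apply]
      have h2 : ((M.fib v).Y s).int ((M.fib v).pull s
          (z₀ + ∑ v ∈ M.bad, ∑ t, (M.fib v).push t (f v t))) a = 0 := by
        by_cases hv : v ∈ M.bad
        · have h3 : (M.fib v).pull s (∑ v' ∈ M.bad, ∑ t, (M.fib v').push t (f v' t)) =
              (M.fib v).pull s (∑ t, (M.fib v).push t (f v t)) := by
            rw [map_sum, Finset.sum_eq_single v]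
            · intro v' _ hne
              rw [map_sum]
              exact Finset.sum_eq_zero fun t _ => LinearMap.congr_fun (hM.disjoint v v' s t (Ne.symm hne)) _
            · intro h
              exact absurd hv h
          rw [map_add, h3, ← map_add]
          exact hf' v hv s a ha
        · have h3 : (M.fib v).pull s (∑ v' ∈ M.bad, ∑ t, (M.fib v').push t (f v' t)) = 0 := by
            rw [map_sum]
            refine Finset.sum_eq_zero fun v' hv' => ?_
            rw [map_sum]
            refine Finset.sum_eq_zero fun t _ => LinearMap.congr_fun (hM.disjoint v v' s t ?_) _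
            rintro rfl
            exact hv hv'
          rw [map_add, h3, add_zero]
          exact int_eq_zero_of_smooth (hM.fibre v).pull_cl (hM.smooth v hv) (hfrom v) s a
      rw [h2, Rat.cast_zero, zero_mul]
    exact hle h1

/-- **Transfer to other models.** -/
theorem lifts_of_dominates {d d' : ℕ} {M : Model.{u, v} d} {M' : Model.{u, v} d'} {i : ℕ}
    (h : Dominates M M' i) (hL : LiftsOrthogonally M' i) : LiftsOrthogonally M i := by
  obtain ⟨t, N, hN, hadj, hext, hres, hcod⟩ := h
  intro c hc hci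
  obtain ⟨z, hz, hzc, horth⟩ := hL (t.pb c) (hcod.hom c hc) (hcod.pb c hci)
  refine ⟨N⁻¹ • t.T z, Submodule.smul_mem _ _ (hcod.T z hz), ?_, fun g hg hg0 => ?_⟩
  · rw [map_smul, hext z c hzc, smul_smul, inv_mul_cancel₀ hN, one_smul]
  · rw [map_smul, LinearMap.smul_apply, hadj z (Submodule.mem_comap.2 (by rw [hzc]; exact hcod.hom c hc)) g
      (LinearMap.mem_ker.2 hg0), horth _ (hcod.T' g hg) (hres g hg0), smul_zero]

end Pool.Agent.K9h22.Lift
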