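import Mathlib

/-!
# Regular models and their vertical cycles: definitions
-/

set_option autoImplicit false
set_option linter.checkUnivs false

universe u v

namespace Pool.Agent.K9h22.Lift

/-- The cycle class map `cl` transforms the intersection numbers `int` into the cup product `cup`. -/
def Represents {K A H : Type*} [Field K] [AddCommGroup A] [Module ℚ A] [AddCommGroup H] [Module K H]
    (cl : A →+ H) (int : A →ₗ[ℚ] A →ₗ[ℚ] ℚ) (cup : H →ₗ[K] H →ₗ[K] K) : Prop :=
  ∀ a b, cup (cl a) (cl b) = (int a b : K)

/-- `f` maps `S` to `S'`. -/
def Maps {A B : Type*} [AddCommGroup A] [Module ℚ A] [AddCommGroup B] [Module ℚ B] (f : A →ₗ[ℚ] B)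
    (S : Submodule ℚ A) (S' : Submodule ℚ B) : Prop := ∀ a ∈ S, f a ∈ S'

/-- The pairing of `z` with `f a` is `r` times the rational number `I z a`, for all `z` in `Z₀`. -/
def PairsBy {A Z : Type*} [AddCommGroup A] [Module ℚ A] [AddCommGroup Z] [Module ℚ Z] (Z₀ : Submodule ℚ Z)
    (pairing : Z →ₗ[ℚ] Z →ₗ[ℚ] ℝ) (f : A →ₗ[ℚ] Z) (I : Z →ₗ[ℚ] A →ₗ[ℚ] ℚ) (r : ℝ) : Prop :=
  ∀ z ∈ Z₀, ∀ a, pairing z (f a) = (I z a : ℝ) * r

/-- The homomorphisms `T` and `T'` between `Z` and `Z'` are adjoint for the pairings of the elements `z` of
`Z₀` (the cycles which are homologically trivial on the generic fibre) with the elements `g` of `V` (the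
vertical cycles). -/
def AdjointFor {Z Z' : Type*} [AddCommGroup Z] [Module ℚ Z] [AddCommGroup Z'] [Module ℚ Z']
    (Z₀ : Submodule ℚ Z') (V : Submodule ℚ Z) (pairing : Z →ₗ[ℚ] Z →ₗ[ℚ] ℝ)
    (pairing' : Z' →ₗ[ℚ] Z' →ₗ[ℚ] ℝ) (T : Z' →ₗ[ℚ] Z) (T' : Z →ₗ[ℚ] Z') : Prop :=
  ∀ z ∈ Z₀, ∀ g ∈ V, pairing (T z) g = pairing' z (T' g)

/-- The algebraic cycles and the `ℓ`-adic cohomology of a smooth projective variety `Y` over a finite field,
`K = ℚ_ℓ`: the Chow groups `Ch = Ch^*(Y)` with rational coefficients, the cycles of given codimension, the
intersection numbers `int`, the cohomology `H = ⊕ H^(2j)(Y)(j)` (over the algebraic closure), the cup product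
with values in `K`, and the cycle class map `cl`. -/
structure Cyc (K : Type v) [Field K] where
  /-- the Chow groups with rational coefficients -/
  Ch : Type u
  [grpC : AddCommGroup Ch]
  [modC : Module ℚ Ch]
  /-- the cycles of a given codimension -/
  codim : ℕ → Submodule ℚ Ch
  /-- the intersection numbers -/
  int : Ch →ₗ[ℚ] Ch →ₗ[ℚ] ℚ
  int_symm : int = int.flip
  /-- the cohomology -/
  H : Type v
  [grpH : AddCommGroup H]
  [modH : Module K H]
  [finH : Module.Finite K H]
  /-- the cup product followed by the trace -/
  cup : H →ₗ[K] H →ₗ[K] K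
  /-- the cycle class map -/
  cl : Ch →+ H
  cup_cl : Represents cl int cup

attribute [instance] Cyc.grpC Cyc.modC Cyc.grpH Cyc.modH Cyc.finH

/-- Numerical and homological equivalence coincide for the cycles of codimension `p` on `Y`: if a cycle of
codimension `p` has intersection number zero with all cycles of the complementary codimension `q`, then its
class is zero. -/
def HomEqNum {K : Type v} [Field K] (Y : Cyc.{u, v} K) (p q : ℕ) : Prop :=
  ∀ z ∈ Y.codim p, (∀ w ∈ Y.codim q, Y.int z w = 0) → Y.cl z = 0

/-- The closed fibre of a regular scheme `𝒳` over a closed point `v` of the base, `Z = Ch^*(𝒳)`: the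
`Y s` are smooth projective varieties over finite extensions of the residue field, with proper morphisms to
`𝒳`, the images of which are the irreducible components of the fibre (for example the components, or
alterations of them); `push` and `pull` are the direct and inverse images of cycles, `pushH` and `pullH` those
of cohomology classes, where `HX` is the cohomology `⊕ H^(2j)(𝒳_v)(j)` of the geometric fibre (which is the
cohomology of `𝒳` over the strict henselisation at `v`), and `clX` is the cycle class map. -/
structure Fibre (K : Type v) [Field K] (Z : Type u) [AddCommGroup Z] [Module ℚ Z] where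
  /-- the components -/
  S : Type u
  [fin : Fintype S]
  /-- smooth projective varieties over the components -/
  Y : S → Cyc.{u, v} K
  /-- direct images of cycles -/
  push : ∀ s, (Y s).Ch →ₗ[ℚ] Z
  /-- inverse images of cycles -/
  pull : ∀ s, Z →ₗ[ℚ] (Y s).Ch
  /-- the cohomology of the geometric fibre -/
  HX : Type v
  [grpX : AddCommGroup HX]
  [modX : Module K HX]
  /-- the cycle class map -/
  clX : Z →+ HX
  /-- direct images of cohomology classes -/
  pushH : ∀ s, (Y s).H →ₗ[K] HX
  /-- inverse images of cohomology classes -/
  pullH : ∀ s, HX →ₗ[K] (Y s).H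

attribute [instance] Fibre.fin Fibre.grpX Fibre.modX

section

variable {K : Type v} [Field K] {Z : Type u} [AddCommGroup Z] [Module ℚ Z]

/-- Direct images are compatible with the cycle classes. -/
def PushClasses (F : Fibre K Z) : Prop := ∀ s a, F.pushH s ((F.Y s).cl a) = F.clX (F.push s a)

/-- Inverse images are compatible with the cycle classes. -/
def PullClasses (F : Fibre K Z) : Prop := ∀ s z, (F.Y s).cl (F.pull s z) = F.pullH s (F.clX z)

/-- The intersection numbers of the vertical cycles `push t a` and `push s b` can be computed on `Y s` and on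
`Y t`. -/
def Symmetric (F : Fibre K Z) : Prop := ∀ s t,
  (F.Y t).int.IsAdjointPair (F.Y s).int (F.pull s ∘ₗ F.push t) (F.pull t ∘ₗ F.push s)

/-- The same for cohomology classes. -/
def SymmetricH (F : Fibre K Z) : Prop := ∀ s t,
  (F.Y t).cup.IsAdjointPair (F.Y s).cup (F.pullH s ∘ₗ F.pushH t) (F.pullH t ∘ₗ F.pushH s)

/-- The known properties of the closed fibre: compatibility of direct and inverse images with classes,
symmetry of the intersection numbers; the codimension in `𝒳` of a cycle on `Y s` is its codimension in `Y s`
plus one, and inverse images preserve the codimension (`codimZ` are the cycles of given codimension on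
`𝒳`). -/
structure IsFibre (F : Fibre K Z) (codimZ : ℕ → Submodule ℚ Z) : Prop where
  push_cl : PushClasses F
  pull_cl : PullClasses F
  symm : Symmetric F
  symmH : SymmetricH F
  push_codim : ∀ s j, Maps (F.push s) ((F.Y s).codim j) (codimZ (j + 1))
  pull_codim : ∀ s j, Maps (F.pull s) (codimZ j) ((F.Y s).codim j)

/-- The fibre is smooth (the fibre is `Y s` for the only `s`): its self-intersection is zero. -/
def Smooth (F : Fibre K Z) : Prop := ∀ s t, F.pullH s ∘ₗ F.pushH t = 0

/-- The class of the cycle `z` on the geometric fibre is a sum of direct images of classes on the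
`Y s`. -/
def FromComponents (F : Fibre K Z) (z : Z) : Prop :=
  F.clX z ∈ ⨆ s, LinearMap.range (F.pushH s)

end

/-- A regular proper flat scheme `𝒳` of relative dimension `d` over the ring of integers of a number field,
with generic fibre `X`: the Chow groups `Z = Ch^*(𝒳)` and `C = Ch^*(X)` with rational coefficients, the
restriction `res`, the homologically trivial cycles on `X`, and for each closed point `v` of the base the
fibre over `v` (cohomology with coefficients in `K v`), the logarithm of the norm of `v`, and the pairing of
Gillet and Soulé, which is defined for the cycles which are homologically trivial on `X` (`pairing` is any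
bilinear extension of it to all cycles; only its values at these cycles are used). -/
structure Model (d : ℕ) where
  /-- cycles on `𝒳` -/
  Z : Type u
  [grpZ : AddCommGroup Z]
  [modZ : Module ℚ Z]
  /-- cycles on `X` -/
  C : Type u
  [grpC : AddCommGroup C]
  [modC : Module ℚ C]
  /-- cycles of given codimension on `𝒳` -/
  codimZ : ℕ → Submodule ℚ Z
  /-- cycles of given codimension on `X` -/
  codimC : ℕ → Submodule ℚ C
  /-- restriction to the generic fibre -/
  res : Z →ₗ[ℚ] C
  /-- homologically trivial cycles on `X` -/
  homTriv : Submodule ℚ C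
  /-- closed points of the base -/
  P : Type u
  /-- the logarithm of the norm -/
  logN : P → ℝ
  /-- coefficient field of the cohomology at `v` -/
  K : P → Type v
  [field : ∀ v, Field (K v)]
  [charZero : ∀ v, CharZero (K v)]
  /-- the fibre over `v` -/
  fib : ∀ v, Fibre.{u, v} (K v) Z
  /-- the points with singular fibre -/
  bad : Finset P
  /-- the arithmetic intersection numbers of the cycles which are homologically trivial on `X` -/
  pairing : Z →ₗ[ℚ] Z →ₗ[ℚ] ℝ

attribute [instance] Model.grpZ Model.modZ Model.grpC Model.modC Model.field Model.charZero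

section

variable {d : ℕ} (M : Model.{u, v} d)

/-- The vertical cycles of codimension `j + 1` over `v`: the sums of direct images of cycles of codimension
`j` on the `Y s`. -/
def vertical (v : M.P) (j : ℕ) : Submodule ℚ M.Z :=
  ⨆ s, (((M.fib v).Y s).codim j).map ((M.fib v).push s)

/-- Cycles on `X` extend to `𝒳`. -/
def CyclesExtend : Prop := ∀ j, ∀ c ∈ M.codimC j, ∃ z ∈ M.codimZ j, M.res z = c

/-- A cycle of codimension `j + 1` on `𝒳` which is zero on `X` is vertical. -/
def KernelVertical : Prop := ∀ j, ∀ z ∈ M.codimZ (j + 1), M.res z = 0 → z ∈ ⨆ v, vertical M v j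

/-- Vertical cycles are zero on `X`. -/
def VerticalKernel : Prop := ∀ v s, M.res ∘ₗ (M.fib v).push s = 0

/-- The intersection of a vertical cycle over `v'` with the fibre over a different point `v` is zero. -/
def FibresDisjoint : Prop := ∀ v v' s t, v ≠ v' → (M.fib v).pull s ∘ₗ (M.fib v').push t = 0

/-- The pairing of a cycle which is homologically trivial on `X` with a vertical cycle is the intersection
number on the component, times the logarithm of the norm. -/
def PairingFormula : Prop := ∀ v s, PairsBy (M.homTriv.comap M.res) M.pairing ((M.fib v).push s)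
  (((M.fib v).Y s).int ∘ₗ (M.fib v).pull s) (M.logN v)

/-- The known properties of regular models. -/
structure IsModel : Prop where
  surj : CyclesExtend M
  ker : KernelVertical M
  res_push : VerticalKernel M
  disjoint : FibresDisjoint M
  pairing_push : PairingFormula M
  fibre : ∀ v, IsFibre (M.fib v) M.codimZ
  smooth : ∀ v, v ∉ M.bad → Smooth (M.fib v)

/-- **The assertion of Beilinson and Bloch for `𝒳` and codimension `i`**: every homologically trivial cycle
`c` of codimension `i` on `X` has an extension `z` of codimension `i` to `𝒳` which is orthogonal to all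
vertical cycles of codimension `d + 1 - i`. -/
def LiftsOrthogonally (i : ℕ) : Prop :=
  ∀ c ∈ M.homTriv, c ∈ M.codimC i → ∃ z ∈ M.codimZ i, M.res z = c ∧
    ∀ g ∈ M.codimZ (d + 1 - i), M.res g = 0 → M.pairing z g = 0

/-- The local condition: for each cycle `z` of codimension `i` on `𝒳` which is homologically trivial on `X`,
and each `v`, the class of `z` on the geometric fibre over `v` is a sum of direct images of classes on the
components. (It follows from the monodromy-weight conjecture for `H^(2i-1)(X)`.) -/
def ClassesFromComponents (i : ℕ) : Prop :=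
  ∀ z ∈ M.codimZ i, M.res z ∈ M.homTriv → ∀ v, FromComponents (M.fib v) z

/-- Numerical and homological equivalence coincide on the `Y s` over all points `v` with singular fibre, in
the single codimension `d + 1 - i` (the complementary codimension is `i - 1`). -/
def HomEqNumOnBadFibres (i : ℕ) : Prop :=
  ∀ v ∈ M.bad, ∀ s, HomEqNum ((M.fib v).Y s) (d + 1 - i) (i - 1)

end

section

variable {d d' : ℕ} (M : Model.{u, v} d) (M' : Model.{u, v} d')

/-- Homomorphisms between the cycles of two models. -/
structure Transfer where
  /-- from the cycles on `𝒳'` to the cycles on `𝒳` -/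
  T : M'.Z →ₗ[ℚ] M.Z
  /-- from the cycles on `𝒳` to the cycles on `𝒳'` -/
  T' : M.Z →ₗ[ℚ] M'.Z
  /-- from the cycles on `X` to the cycles on `X'` -/
  pb : M.C →ₗ[ℚ] M'.C

variable {M M'}

/-- `T` and `T'` are adjoint for the pairings of the cycles on `𝒳'` which are homologically trivial on `X'`
with the vertical cycles on `𝒳` (the cycles `g` with `res g = 0`). -/
def Adjoint (t : Transfer M M') : Prop :=
  AdjointFor (M'.homTriv.comap M'.res) (LinearMap.ker M.res) M.pairing M'.pairing t.T t.T'

/-- If `z` extends the cycle `pb c` to `𝒳'`, then `T z` extends `N • c`. -/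
def Extends (t : Transfer M M') (N : ℚ) : Prop := ∀ z c, M'.res z = t.pb c → M.res (t.T z) = N • c

/-- `T'` maps vertical cycles to vertical cycles. -/
def PreservesVertical (t : Transfer M M') : Prop := ∀ g, M.res g = 0 → M'.res (t.T' g) = 0

/-- `T`, `T'` and `pb` preserve the codimension (`T'` shifts it by the difference of the dimensions), and
`pb` preserves homologically trivial cycles. -/
structure PreservesCodim (t : Transfer M M') (i : ℕ) : Prop where
  hom : Maps t.pb M.homTriv M'.homTriv
  pb : Maps t.pb (M.codimC i) (M'.codimC i)
  T : Maps t.T (M'.codimZ i) (M.codimZ i)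
  T' : Maps t.T' (M.codimZ (d + 1 - i)) (M'.codimZ (d' + 1 - i))

variable (M M')

/-- `𝒳'` dominates `𝒳` in codimension `i`: there are homomorphisms `T` from `Ch^*(𝒳')` to `Ch^*(𝒳)` and
`T'` in the other direction, adjoint for the pairings with vertical cycles, such that if `z'` extends the image `pb c` in
`Ch^*(X')` of the cycle `c` on `X`, then `T z'` extends a nonzero multiple of `c`. For example let `f` be a
dominant morphism from `X'` to `X`, or let the Chow motive of `X` be a direct summand of that of `X'`: then
`pb` is `f^*` (the action of a correspondence), and `T` and `T'` are sums of homomorphisms `p_* q^*` and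
`q_* p^*` (with a factor `h^(d' - d)`, `h` relatively ample, for the morphism `f`), for morphisms `p` and `q`
to `𝒳` and `𝒳'` from a third regular model `𝒳''` (an alteration of the closure of the correspondence in
`𝒳' × 𝒳`). The ring of integers can be larger for `𝒳'` and `𝒳''`. -/
def Dominates (i : ℕ) : Prop :=
  ∃ (t : Transfer M M') (N : ℚ), N ≠ 0 ∧ Adjoint t ∧ Extends t N ∧ PreservesVertical t ∧
    PreservesCodim t i

end

end Pool.Agent.K9h22.Lift
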