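import Mathlib

/-!
# Noncommutative correspondences and their realisation: definitions
-/

set_option autoImplicit false
set_option linter.checkUnivs false

universe u v

namespace Pool.Agent.K9h22.Ncm

section generic

/-- `f` is bilinear over `ℚ`. -/
def Bilinear {A B D : Type*} [AddCommGroup A] [Module ℚ A] [AddCommGroup B] [Module ℚ B] [AddCommGroup D]
    [Module ℚ D] (f : A → B → D) : Prop :=
  (∀ a, IsLinearMap ℚ (f a)) ∧ ∀ b, IsLinearMap ℚ fun a => f a b

/-- `f` is additive. -/
def Additive {A B : Type*} [AddCommGroup A] [AddCommGroup B] (f : A → B) : Prop :=
  ∀ x y, f (x + y) = f x + f y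

variable {K V V' V'' : Type*} [Field K] [AddCommGroup V] [Module K V] [AddCommGroup V'] [Module K V']
  [AddCommGroup V''] [Module K V'']

/-- `h` is `f` followed by `g`. -/
def IsComp (h : V →ₗ[K] V'') (f : V →ₗ[K] V') (g : V' →ₗ[K] V'') : Prop := ∀ x, h x = g (f x)

/-- The supertrace, the trace of `f` minus the trace of `g`, is the rational number `r`. -/
def SuperTraceIs (f : V →ₗ[K] V) (g : V' →ₗ[K] V') (r : ℚ) : Prop :=
  LinearMap.trace K V f - LinearMap.trace K V' g = (r : K)

end generic

/-- Noncommutative correspondences with rational coefficients between saturated dg categories over a field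
`k`: `Hom A B` is `K_0(A^op ⊗ B)` with rational coefficients, `comp` the composition, `one` the class of the
diagonal bimodule, and `χ f` the Euler characteristic of the Hochschild homology of `A` with values in the
bimodule `f` (for `A = perf(X)`, the Euler characteristic of the restriction of `f` to the diagonal). -/
structure Corr where
  /-- saturated dg categories -/
  Cat : Type
  /-- noncommutative correspondences -/
  Hom : Cat → Cat → Type u
  [grp : ∀ A B, AddCommGroup (Hom A B)]
  [mod : ∀ A B, Module ℚ (Hom A B)]
  /-- composition: first the first, then the second correspondence -/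
  comp : ∀ {A B D}, Hom A B → Hom B D → Hom A D
  bilinear : ∀ A B D, Bilinear (comp : Hom A B → Hom B D → Hom A D)
  /-- the identity -/
  one : ∀ A, Hom A A
  /-- the Euler characteristic -/
  χ : ∀ A, Hom A A → ℚ
  linear : ∀ A, IsLinearMap ℚ (χ A)

attribute [instance] Corr.grp Corr.mod

/-- Periodic cyclic homology: `H A i` is the even part `HP⁺(A)` for `i = false` and the odd part `HP⁻(A)` for
`i = true`, a finite dimensional vector space over `K` (`K = k`, a field of characteristic zero), with the
action of the noncommutative correspondences. -/
structure Realisation (C : Corr.{u}) (K : Type) [Field K] where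
  /-- periodic cyclic homology -/
  H : C.Cat → Bool → Type v
  [grp : ∀ A i, AddCommGroup (H A i)]
  [mod : ∀ A i, Module K (H A i)]
  [fin : ∀ A i, Module.Finite K (H A i)]
  /-- the action of the correspondences -/
  act : ∀ {A B} (i : Bool), C.Hom A B → (H A i →ₗ[K] H B i)

attribute [instance] Realisation.grp Realisation.mod Realisation.fin

section

variable {C : Corr.{u}} {K : Type} [Field K] (R : Realisation.{u, v} C K)

/-- The known properties: the correspondences act functorially, and the supertrace of the action of `f` is the
Euler characteristic `χ f`. -/
structure IsRealisation : Prop where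
  add : ∀ A B i, Additive (R.act i : C.Hom A B → _)
  comp : ∀ A B D i (f : C.Hom A B) (g : C.Hom B D), IsComp (R.act i (C.comp f g)) (R.act i f) (R.act i g)
  one : ∀ A i, R.act i (C.one A) = LinearMap.id
  tr : ∀ A (f : C.Hom A A), SuperTraceIs (R.act false f) (R.act true f) (C.χ A f)

/-- The projector onto the part `i` is algebraic: some correspondence with rational coefficients acts as the
identity on the part `i` and as zero on the other part. -/
def ProjectorAlgebraic (A : C.Cat) (i : Bool) : Prop :=
  ∃ e : C.Hom A A, R.act i e = LinearMap.id ∧ R.act (!i) e = 0

/-- **The noncommutative Künneth conjecture `C_NC(A)`**, with rational coefficients: both Künneth projectors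
of `A` are algebraic. -/
def Kunneth (A : C.Cat) : Prop := ∀ i, ProjectorAlgebraic R A i

/-- **The noncommutative conjecture `D_NC` for the endomorphisms of `B`**: if `χ` of the product of `f` with
every correspondence `g` is zero then `f` acts as zero on periodic cyclic homology. -/
def HomEqNum (B : C.Cat) : Prop :=
  ∀ f : C.Hom B B, (∀ g, C.χ B (C.comp f g) = 0) → ∀ i, R.act i f = 0

end

end Pool.Agent.K9h22.Ncm
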