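import Pool.Agent.K9h22.NcmDefs
import Pool.Agent.K9h22.EulB

/-!
# Generation of one part of periodic cyclic homology
-/

set_option autoImplicit false

open Module LinearMap

universe u v

namespace Pool.Agent.K9h22.Ncm

section

variable {C : Corr.{u}} {K : Type} [Field K] {R : Realisation.{u, v} C K}

/-- composition as a bilinear map -/
def compL (C : Corr.{u}) (A B D : C.Cat) : C.Hom A B →ₗ[ℚ] C.Hom B D →ₗ[ℚ] C.Hom A D :=
  LinearMap.mk₂ ℚ C.comp
    (fun a b g => ((C.bilinear A B D).2 g).map_add a b)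
    (fun c a g => ((C.bilinear A B D).2 g).map_smul c a)
    (fun a b c => ((C.bilinear A B D).1 a).map_add b c)
    (fun c a b => ((C.bilinear A B D).1 a).map_smul c b)

/-- the Euler characteristic as a linear map -/
def χL (C : Corr.{u}) (A : C.Cat) : C.Hom A A →ₗ[ℚ] ℚ := (C.linear A).mk' _

lemma act_comp (hR : IsRealisation R) {A B D : C.Cat} (i : Bool) (f : C.Hom A B) (g : C.Hom B D) :
    R.act i (C.comp f g) = R.act i g ∘ₗ R.act i f := LinearMap.ext (hR.comp A B D i f g)

/-- the action as an additive map -/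
def actL (hR : IsRealisation R) (A B : C.Cat) (i : Bool) :
    C.Hom A B →+ (R.H A i →ₗ[K] R.H B i) := AddMonoidHom.mk' (R.act i) (hR.add A B i)

/-- the sign of the parity -/
def sgn (K : Type) [Field K] (i : Bool) : K := if i then -1 else 1

lemma sgn_ne (i : Bool) : sgn K i ≠ 0 := by
  cases i
  · exact one_ne_zero
  · exact neg_ne_zero.2 one_ne_zero

/-- The supertrace of a correspondence which is zero on the other part. -/
lemma tr_eq (hR : IsRealisation R) {A : C.Cat} (i : Bool) (f : C.Hom A A)
    (h0 : R.act (!i) f = 0) : (C.χ A f : K) = sgn K i * trace K (R.H A i) (R.act i f) := by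
  have h1 := hR.tr A f
  unfold SuperTraceIs at h1
  cases i
  · rw [Bool.not_false] at h0
    rw [h0, map_zero, sub_zero] at h1
    rw [← h1]
    simp [sgn]
  · rw [Bool.not_true] at h0
    rw [h0, map_zero, zero_sub] at h1
    rw [← h1]
    simp [sgn]

variable [CharZero K]

/-- Algebraic generalised inverses. -/
theorem exists_ginv' (hR : IsRealisation R) {B : C.Cat} (hD : HomEqNum R B) (i : Bool)
    (M : C.Hom B B) (hM : R.act (!i) M = 0) :
    ∃ g : C.Hom B B, R.act i M ∘ₗ R.act i g ∘ₗ R.act i M = R.act i M := by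
  obtain ⟨x, hx⟩ := Eul.exists_ginv (R.act i M)
  set b : C.Hom B B →ₗ[ℚ] C.Hom B B →ₗ[ℚ] ℚ :=
    LinearMap.mk₂ ℚ (fun g h => χL C B (compL C B B B (compL C B B B (compL C B B B g M) h) M))
      (fun g g' h => by simp only [map_add, LinearMap.add_apply])
      (fun c g h => by simp only [map_smul, LinearMap.smul_apply])
      (fun g h h' => by simp only [map_add, LinearMap.add_apply])
      (fun c g h => by simp only [map_smul, LinearMap.smul_apply]) with hb
  have hba : ∀ g h, b g h = C.χ B (C.comp (C.comp (C.comp g M) h) M) := fun g h => rfl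
  set P : (R.H B i →ₗ[K] R.H B i) →ₗ[K] (R.H B i →ₗ[K] R.H B i) →ₗ[K] K :=
    LinearMap.mk₂ K (fun x y => sgn K i * trace K (R.H B i) (y ∘ₗ x))
      (fun x x' y => by rw [LinearMap.comp_add, map_add, mul_add])
      (fun c x y => by
        rw [LinearMap.comp_smul, map_smul, smul_eq_mul, smul_eq_mul]
        ring)
      (fun x y y' => by rw [LinearMap.add_comp, map_add, mul_add])
      (fun c x y => by
        rw [LinearMap.smul_comp, map_smul, smul_eq_mul, smul_eq_mul]
        ring) with hP
  have hPa : ∀ x y, P x y = sgn K i * trace K (R.H B i) (y ∘ₗ x) := fun x y => rfl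
  set β : C.Hom B B →+ (R.H B i →ₗ[K] R.H B i) :=
    { toFun := fun h => R.act i M ∘ₗ actL hR B B i h ∘ₗ R.act i M
      map_zero' := by rw [map_zero, LinearMap.zero_comp, LinearMap.comp_zero]
      map_add' := fun h h' => by rw [map_add, LinearMap.add_comp, LinearMap.comp_add] } with hβ
  have hβa : ∀ h, β h = R.act i M ∘ₗ R.act i h ∘ₗ R.act i M := fun h => rfl
  -- correspondences which end with `M`
  have hzero : ∀ f : C.Hom B B, R.act (!i) (C.comp f M) = 0 := by
    intro f
    rw [act_comp hR, hM, LinearMap.zero_comp]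
  have hzero' : ∀ f : C.Hom B B, R.act (!i) (C.comp M f) = 0 := by
    intro f
    rw [act_comp hR, hM, LinearMap.comp_zero]
  have hbtr : ∀ g h, (b g h : K) =
      sgn K i * trace K (R.H B i) (R.act i M ∘ₗ R.act i h ∘ₗ R.act i M ∘ₗ R.act i g) := by
    intro g h
    rw [hba, tr_eq hR i _ (hzero _), act_comp hR, act_comp hR, act_comp hR]
  have hcast : ∀ a b : ℚ, (a : K) = (b : K) → a = b := fun a b h => Rat.cast_injective h
  obtain ⟨g, hg⟩ := Lift.exists_rational b P (actL hR B B i) β (by
      intro g h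
      rw [hPa, hβa, hbtr]
      rfl) x (fun h => C.χ B (C.comp h M)) (by
      intro h
      rw [hPa, hβa, tr_eq hR i _ (hzero _), act_comp hR]
      have e1 : (R.act i M ∘ₗ R.act i h ∘ₗ R.act i M) ∘ₗ x =
        (R.act i M ∘ₗ R.act i h) ∘ₗ (R.act i M ∘ₗ x) := rfl
      rw [e1, LinearMap.trace_comp_comm']
      congr 2
      have e2 : (R.act i M ∘ₗ x) ∘ₗ R.act i M ∘ₗ R.act i h =
        (R.act i M ∘ₗ x ∘ₗ R.act i M) ∘ₗ R.act i h := rfl
      rw [e2, hx]) (by
      intro h h0
      rw [hβa]
      have h1 := hD (C.comp (C.comp M h) M) (by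
        intro g
        apply hcast
        have h4 : R.act (!i) (C.comp (C.comp (C.comp M h) M) g) = 0 := by
          rw [act_comp hR, hzero, LinearMap.comp_zero]
        rw [tr_eq hR i _ h4, act_comp hR, act_comp hR, act_comp hR]
        have h2 := h0 g
        have h3 := hbtr g h
        rw [h2, Rat.cast_zero] at h3
        rw [Rat.cast_zero, h3, LinearMap.trace_comp_comm']
        rfl) i
      rw [act_comp hR, act_comp hR] at h1
      exact h1)
  refine ⟨g, ?_⟩
  have h1 := hD (C.comp (C.comp M g) M - M) (by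
    intro h
    have h2 := hg h
    have h3 := hbtr g h
    have h4 := tr_eq hR i (C.comp h M) (hzero h)
    have h5 : C.χ B (C.comp (C.comp (C.comp M g) M - M) h) =
        C.χ B (C.comp (C.comp (C.comp M g) M) h) - C.χ B (C.comp M h) := by
      have e1 := (((C.bilinear B B B).2 h)).map_sub (C.comp (C.comp M g) M) M
      rw [e1]
      exact (C.linear B).map_sub _ _
    rw [h5, sub_eq_zero]
    apply hcast
    have h6 : R.act (!i) (C.comp (C.comp (C.comp M g) M) h) = 0 := by
      rw [act_comp hR, hzero, LinearMap.comp_zero]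
    rw [tr_eq hR i _ h6, tr_eq hR i _ (hzero' h), act_comp hR, act_comp hR, act_comp hR, act_comp hR]
    have e1 : trace K (R.H B i) (R.act i h ∘ₗ R.act i M ∘ₗ R.act i g ∘ₗ R.act i M) =
        trace K (R.H B i) (R.act i M ∘ₗ R.act i h ∘ₗ R.act i M ∘ₗ R.act i g) := by
      have e2 : R.act i h ∘ₗ R.act i M ∘ₗ R.act i g ∘ₗ R.act i M =
        (R.act i h ∘ₗ R.act i M ∘ₗ R.act i g) ∘ₗ R.act i M := rfl
      rw [e2, LinearMap.trace_comp_comm']
    rw [e1, ← h3, h2, h4, act_comp hR, LinearMap.trace_comp_comm']) i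
  have h2 : R.act i (C.comp (C.comp M g) M - M) = R.act i (C.comp (C.comp M g) M) - R.act i M :=
    map_sub (actL hR B B i) _ _
  rw [h2, sub_eq_zero, act_comp hR, act_comp hR] at h1
  exact h1

/-- **Generation of one part.** -/
theorem kunneth_of_generated (hR : IsRealisation R) {A B : C.Cat} (hC : Kunneth R B)
    (hD : HomEqNum R B) (i : Bool) (a : C.Hom B A) (a' : C.Hom A B)
    (ha : Function.Surjective (R.act i a)) (ha' : Function.Injective (R.act i a')) :
    Kunneth R A := by
  obtain ⟨e, he1, he0⟩ := hC i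
  -- the correspondence `e a a' e` of `B`
  set M : C.Hom B B := C.comp e (C.comp a a') with hM
  have hM0 : R.act (!i) M = 0 := by
    rw [hM, act_comp hR, he0, LinearMap.comp_zero]
  have hM1 : R.act i M = R.act i a' ∘ₗ R.act i a := by
    rw [hM, act_comp hR, he1, LinearMap.comp_id, act_comp hR]
  obtain ⟨g, hg⟩ := exists_ginv' hR hD i M hM0
  rw [hM1] at hg
  have key : R.act i a ∘ₗ R.act i g ∘ₗ R.act i a' = LinearMap.id := by
    apply LinearMap.ext
    intro y
    obtain ⟨z, rfl⟩ := ha y
    apply ha'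
    exact LinearMap.congr_fun hg z
  have hproj : ProjectorAlgebraic R A i := by
    refine ⟨C.comp a' (C.comp e (C.comp g a)), ?_, ?_⟩
    · rw [act_comp hR, act_comp hR, act_comp hR, he1, LinearMap.comp_id]
      exact key
    · rw [act_comp hR, act_comp hR, he0, LinearMap.comp_zero, LinearMap.zero_comp]
  have hproj' : ProjectorAlgebraic R A (!i) := by
    obtain ⟨f, hf1, hf0⟩ := hproj
    have hsub : ∀ j, R.act j (C.one A - f) = R.act j (C.one A) - R.act j f := fun j =>
      map_sub (actL hR A A j) _ _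
    refine ⟨C.one A - f, ?_, ?_⟩
    · rw [hsub, hf0, sub_zero, hR.one]
    · rw [Bool.not_not, hsub, hf1, hR.one, sub_self]
  intro j
  by_cases hj : j = i
  · rw [hj]
    exact hproj
  · have : j = !i := by
      cases i <;> cases j <;> simp_all
    rw [this]
    exact hproj'

end

end Pool.Agent.K9h22.Ncm
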