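import Pool.Agent.K9h22.PmpDefs

/-!
# Almost invariant vectors on finite subsets give amenability
-/

set_option autoImplicit false

namespace Pool.Agent.K9h22.Pmp

open MeasureTheory Filter Topology Set

/-- finitely additive probabilities -/
def IsMean {Γ : Type} (m : Set Γ → ℝ) : Prop :=
  (∀ A, 0 ≤ m A) ∧ m Set.univ = 1 ∧ (∀ A B, Disjoint A B → m (A ∪ B) = m A + m B)

theorem IsMean.le_one {Γ : Type} {m : Set Γ → ℝ} (h : IsMean m) (A : Set Γ) : m A ≤ 1 := by
  have h1 := h.2.2 A Aᶜ disjoint_compl_right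
  rw [Set.union_compl_self, h.2.1] at h1
  linarith [h.1 Aᶜ]

theorem amenable_of (Γ : Type) [Group Γ]
    (h : ∀ (F : Finset Γ) (ε : ℝ), 0 < ε → ∃ m : Set Γ → ℝ, IsMean m ∧
      ∀ g ∈ F, ∀ A, |m ((fun h => g * h) '' A) - m A| ≤ ε) : Amenable Γ := by
  classical
  have h' : ∀ i : Finset Γ × ℕ, ∃ m : Set Γ → ℝ, IsMean m ∧
      ∀ g ∈ i.1, ∀ A, |m ((fun h => g * h) '' A) - m A| ≤ 1 / ((i.2 : ℝ) + 1) :=
    fun i => h i.1 _ (by positivity)
  choose m hm hinv using h'
  let U : Ultrafilter (Finset Γ × ℕ) := Ultrafilter.of atTop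
  have hU : (U : Filter (Finset Γ × ℕ)) ≤ atTop := Ultrafilter.of_le _
  have hK : IsCompact (Set.pi Set.univ (fun _ : Set Γ => Set.Icc (0 : ℝ) 1)) :=
    isCompact_univ_pi fun _ => isCompact_Icc
  obtain ⟨M, hM, hlim⟩ := hK.ultrafilter_le_nhds (U.map m) (by
    rw [le_principal_iff, Ultrafilter.coe_map, Filter.mem_map]
    refine Filter.univ_mem' fun i => ?_
    intro A _
    exact ⟨(hm i).1 A, (hm i).le_one A⟩)
  have hlim' : Tendsto m U (𝓝 M) := hlim
  have hA : ∀ A, Tendsto (fun i => m i A) U (𝓝 (M A)) := fun A => (tendsto_pi_nhds.1 hlim') A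
  refine ⟨M, fun A => (hM A trivial).1, ?_, ?_, ?_⟩
  · refine tendsto_nhds_unique (hA univ) ?_
    have : (fun i => m i univ) = fun _ => (1 : ℝ) := funext fun i => (hm i).2.1
    rw [this]
    exact tendsto_const_nhds
  · intro A B hAB
    refine tendsto_nhds_unique (hA (A ∪ B)) ?_
    have : (fun i => m i (A ∪ B)) = fun i => m i A + m i B := funext fun i => (hm i).2.2 A B hAB
    rw [this]
    exact (hA A).add (hA B)
  · intro g A
    have key : ∀ n : ℕ, |M ((fun h => g * h) '' A) - M A| ≤ 1 / ((n : ℝ) + 1) := by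
      intro n
      have ht : Tendsto (fun i => |m i ((fun h => g * h) '' A) - m i A|) U
          (𝓝 |M ((fun h => g * h) '' A) - M A|) := ((hA _).sub (hA _)).abs
      refine le_of_tendsto ht ?_
      refine hU ?_
      filter_upwards [eventually_ge_atTop (({g} : Finset Γ), n)] with i hi
      have h1 : g ∈ i.1 := hi.1 (Finset.mem_singleton_self g)
      have h2 : (n : ℝ) ≤ i.2 := by exact_mod_cast hi.2
      refine (hinv i g h1 A).trans ?_
      exact one_div_le_one_div_of_le (by positivity) (by linarith)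
    have h0 : |M ((fun h => g * h) '' A) - M A| ≤ 0 :=
      ge_of_tendsto' tendsto_one_div_add_atTop_nhds_zero_nat key
    have := abs_nonpos_iff.1 h0
    linarith

/-- right translation of finite subsets -/
def tr {Γ : Type} [Group Γ] (g : Γ) : Finset Γ ≃ Finset Γ := (Equiv.mulRight g).finsetCongr

theorem tr_apply {Γ : Type} [Group Γ] (g : Γ) (S : Finset Γ) :
    tr g S = S.map (Equiv.mulRight g).toEmbedding := rfl

open Classical in
/-- the proportion of the inverses of the elements of `S` in `A` -/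
noncomputable def prop {Γ : Type} [Group Γ] (S : Finset Γ) (A : Set Γ) : ℝ :=
  ((S.filter (fun x => x⁻¹ ∈ A)).card : ℝ) / S.card

theorem prop_nonneg {Γ : Type} [Group Γ] (S : Finset Γ) (A : Set Γ) : 0 ≤ prop S A := by
  unfold prop; positivity

theorem prop_le_one {Γ : Type} [Group Γ] (S : Finset Γ) (A : Set Γ) : prop S A ≤ 1 := by
  classical
  unfold prop
  refine div_le_one_of_le₀ ?_ (by positivity)
  exact_mod_cast Finset.card_filter_le _ _

theorem prop_univ {Γ : Type} [Group Γ] (S : Finset Γ) (hS : S ≠ ∅) : prop S univ = 1 := by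
  classical
  unfold prop
  simp only [mem_univ, Finset.filter_true]
  refine div_self ?_
  have := Finset.card_pos.2 (Finset.nonempty_iff_ne_empty.2 hS)
  positivity

theorem prop_empty {Γ : Type} [Group Γ] (A : Set Γ) : prop (∅ : Finset Γ) A = 0 := by
  simp [prop]

theorem prop_union {Γ : Type} [Group Γ] (S : Finset Γ) (A B : Set Γ) (h : Disjoint A B) :
    prop S (A ∪ B) = prop S A + prop S B := by
  classical
  unfold prop
  rw [← add_div]
  congr 1
  rw [← Nat.cast_add]
  congr 1
  rw [← Finset.card_union_of_disjoint]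
  · congr 1
    ext x
    simp only [Finset.mem_filter, Finset.mem_union, Set.mem_union]
    tauto
  · rw [Finset.disjoint_left]
    intro x hx hy
    exact Set.disjoint_left.1 h (Finset.mem_filter.1 hx).2 (Finset.mem_filter.1 hy).2

theorem prop_image {Γ : Type} [Group Γ] (g : Γ) (S : Finset Γ) (A : Set Γ) :
    prop S ((fun h => g * h) '' A) = prop (tr g S) A := by
  classical
  unfold prop
  rw [tr_apply, Finset.card_map, Finset.filter_map, Finset.card_map]
  congr 3
  ext x
  simp only [Finset.mem_filter, Function.comp_apply, Equiv.coe_toEmbedding,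
    Equiv.coe_mulRight, mem_image, mul_inv_rev]
  constructor
  · rintro ⟨hx, y, hy, hyx⟩
    refine ⟨hx, ?_⟩
    have : g⁻¹ * x⁻¹ = y := by rw [← hyx]; group
    rwa [this]
  · rintro ⟨hx, hy⟩
    exact ⟨hx, _, hy, by group⟩

/-- An almost invariant square summable function on finite subsets gives an almost invariant
mean. -/
theorem almost (Γ : Type) [Group Γ] (c : Finset Γ → ℝ) (hc : Summable fun S => c S ^ 2)
    (h1 : ∑' S, c S ^ 2 ≤ 1) (Q : ℝ) (hQ : 0 < Q) (hQ' : Q = ∑' S, c S ^ 2 - c ∅ ^ 2)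
    (F : Finset Γ) (s : ℝ) (hs : 0 < s)
    (hF : ∀ g ∈ F, ∑' S, (c ((tr g).symm S) - c S) ^ 2 ≤ s ^ 2) :
    ∃ m : Set Γ → ℝ, IsMean m ∧
      ∀ g ∈ F, ∀ A, |m ((fun h => g * h) '' A) - m A| ≤ (5 / 2 * s) / Q := by
  classical
  have hsum : ∀ (d : Finset Γ → ℝ) (_ : ∀ S, 0 ≤ d S) (_ : Summable d) (A : Set Γ) (e : Finset Γ ≃ Finset Γ),
      Summable fun S => d S * prop (e S) A := by
    intro d hd0 hd A e
    refine Summable.of_nonneg_of_le (fun S => mul_nonneg (hd0 S) (prop_nonneg _ _))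
      (fun S => mul_le_of_le_one_right (hd0 S) (prop_le_one _ _)) hd
  have hsum1 : ∀ A : Set Γ, Summable fun S => c S ^ 2 * prop S A :=
    fun A => hsum _ (fun S => sq_nonneg _) hc A (Equiv.refl _)
  refine ⟨fun A => (∑' S, c S ^ 2 * prop S A) / Q, ⟨?_, ?_, ?_⟩, ?_⟩
  · intro A
    exact div_nonneg (tsum_nonneg fun S => mul_nonneg (sq_nonneg _) (prop_nonneg _ _)) hQ.le
  · rw [div_eq_one_iff_eq hQ.ne', hQ']
    have e1 : ∀ S, c S ^ 2 * prop S univ = c S ^ 2 - (if S = ∅ then c ∅ ^ 2 else 0) := by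
      intro S
      by_cases hS : S = ∅
      · subst hS; simp [prop_empty]
      · simp [prop_univ S hS, hS]
    rw [tsum_congr e1, Summable.tsum_sub hc (summable_of_hasFiniteSupport
      (Set.Finite.subset (Set.finite_singleton ∅) (by
        intro S hS
        by_contra hne
        simp only [Set.mem_singleton_iff] at hne
        simp [hne] at hS)))]
    congr 1
    rw [tsum_ite_eq]
  · intro A B hAB
    change (∑' S, c S ^ 2 * prop S (A ∪ B)) / Q = (∑' S, c S ^ 2 * prop S A) / Q +
      (∑' S, c S ^ 2 * prop S B) / Q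
    rw [← add_div, ← Summable.tsum_add (hsum1 A) (hsum1 B)]
    congr 1
    refine tsum_congr fun S => ?_
    rw [prop_union S A B hAB, mul_add]
  · intro g hg A
    have hc' : Summable fun S => c ((tr g).symm S) ^ 2 :=
      ((tr g).symm.summable_iff (f := fun S => c S ^ 2)).2 hc
    have e2 : ∑' S, c S ^ 2 * prop S ((fun h => g * h) '' A) =
        ∑' S, c ((tr g).symm S) ^ 2 * prop S A := by
      rw [← (tr g).tsum_eq (fun S => c ((tr g).symm S) ^ 2 * prop S A)]
      refine tsum_congr fun S => ?_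
      rw [Equiv.symm_apply_apply, prop_image]
    change |(∑' S, c S ^ 2 * prop S ((fun h => g * h) '' A)) / Q -
      (∑' S, c S ^ 2 * prop S A) / Q| ≤ _
    rw [← sub_div, abs_div, abs_of_pos hQ]
    refine div_le_div_of_nonneg_right ?_ hQ.le
    have hs2 : Summable fun S => c ((tr g).symm S) ^ 2 * prop S A :=
      hsum _ (fun S => sq_nonneg _) hc' A (Equiv.refl _)
    rw [e2, ← Summable.tsum_sub hs2 (hsum1 A)]
    -- comparison
    have hd : Summable fun S => (c ((tr g).symm S) - c S) ^ 2 := by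
      refine Summable.of_nonneg_of_le (fun S => sq_nonneg _) (fun S => ?_)
        ((hc'.mul_left 2).add (hc.mul_left 2))
      nlinarith [sq_nonneg (c ((tr g).symm S) + c S)]
    have hbound : ∀ S, |c ((tr g).symm S) ^ 2 * prop S A - c S ^ 2 * prop S A| ≤
        1 / (2 * s) * (c ((tr g).symm S) - c S) ^ 2 + (s * c ((tr g).symm S) ^ 2 + s * c S ^ 2) := by
      intro S
      set x := c ((tr g).symm S)
      set y := c S
      have e3 : x ^ 2 * prop S A - y ^ 2 * prop S A = (x ^ 2 - y ^ 2) * prop S A := by ring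
      rw [e3, abs_mul, abs_of_nonneg (prop_nonneg S A)]
      have e4 : |x ^ 2 - y ^ 2| * prop S A ≤ |x ^ 2 - y ^ 2| :=
        mul_le_of_le_one_right (abs_nonneg _) (prop_le_one _ _)
      refine e4.trans ?_
      have e5 : x ^ 2 - y ^ 2 = (x - y) * (x + y) := by ring
      rw [e5, abs_mul]
      have e6 : |x - y| * |x + y| ≤ 1 / (2 * s) * (x - y) ^ 2 + s / 2 * (x + y) ^ 2 := by
        have h3 : 0 ≤ (|x - y| - s * |x + y|) ^ 2 := sq_nonneg _
        have h4 : |x - y| ^ 2 = (x - y) ^ 2 := sq_abs _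
        have h5 : |x + y| ^ 2 = (x + y) ^ 2 := sq_abs _
        have h6 : 2 * s * (|x - y| * |x + y|) ≤ (x - y) ^ 2 + s ^ 2 * (x + y) ^ 2 := by
          rw [← h4, ← h5]; nlinarith
        have h7 : 1 / (2 * s) * (x - y) ^ 2 + s / 2 * (x + y) ^ 2 =
            ((x - y) ^ 2 + s ^ 2 * (x + y) ^ 2) / (2 * s) := by
          field_simp
        rw [h7, le_div_iff₀ (by positivity)]
        linarith
      have e7 : s / 2 * (x + y) ^ 2 ≤ s * x ^ 2 + s * y ^ 2 := by
        nlinarith [sq_nonneg (x - y)]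
      linarith
    have hR : Summable fun S => 1 / (2 * s) * (c ((tr g).symm S) - c S) ^ 2 +
        (s * c ((tr g).symm S) ^ 2 + s * c S ^ 2) :=
      (hd.mul_left _).add ((hc'.mul_left s).add (hc.mul_left s))
    have hL : Summable fun S => |c ((tr g).symm S) ^ 2 * prop S A - c S ^ 2 * prop S A| :=
      Summable.of_nonneg_of_le (fun S => abs_nonneg _) hbound hR
    have h5 : |∑' S, (c ((tr g).symm S) ^ 2 * prop S A - c S ^ 2 * prop S A)| ≤
        ∑' S, |c ((tr g).symm S) ^ 2 * prop S A - c S ^ 2 * prop S A| := by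
      have := norm_tsum_le_tsum_norm (f := fun S => c ((tr g).symm S) ^ 2 * prop S A -
        c S ^ 2 * prop S A) hL
      simpa only [Real.norm_eq_abs] using this
    refine h5.trans ?_
    refine (hL.tsum_le_tsum hbound hR).trans ?_
    rw [Summable.tsum_add (hd.mul_left _) ((hc'.mul_left s).add (hc.mul_left s)),
      Summable.tsum_add (hc'.mul_left s) (hc.mul_left s), tsum_mul_left, tsum_mul_left,
      tsum_mul_left, (tr g).symm.tsum_eq (fun S => c S ^ 2)]
    have h8 := hF g hg
    have h9 : 1 / (2 * s) * ∑' S, (c ((tr g).symm S) - c S) ^ 2 ≤ s / 2 := by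
      calc 1 / (2 * s) * ∑' S, (c ((tr g).symm S) - c S) ^ 2 ≤ 1 / (2 * s) * s ^ 2 :=
            mul_le_mul_of_nonneg_left h8 (by positivity)
        _ = s / 2 := by field_simp
    nlinarith

end Pool.Agent.K9h22.Pmp
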