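import Pool.Agent.K9h22.PmpA
import Pool.Agent.R987.Bern

/-!
# The Bernoulli shift with two symbols: Walsh functions
-/

set_option autoImplicit false

namespace Pool.Agent.K9h22.Pmp

open MeasureTheory Filter Topology Set
open Pool.Agent.R987.Bern
open scoped ENNReal symmDiff

/-- the fair coin -/
noncomputable def coin : Measure Bool :=
  (2⁻¹ : ℝ≥0∞) • (Measure.dirac true + Measure.dirac false)

instance : IsProbabilityMeasure coin := by
  constructor
  simp [coin, ENNReal.inv_two_add_inv_two]

/-- signs -/
def sgn (b : Bool) : ℝ := if b then 1 else -1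

theorem sgn_sq (b : Bool) : sgn b * sgn b = 1 := by cases b <;> simp [sgn]

theorem sgn_not (b : Bool) : sgn (!b) = - sgn b := by cases b <;> simp [sgn]

section

variable {Γ : Type}

/-- the law of the Bernoulli shift -/
noncomputable def bern (Γ : Type) : Measure (Γ → Bool) := iid Γ coin

instance : IsProbabilityMeasure (bern Γ) := by unfold bern; infer_instance

/-- Walsh functions -/
noncomputable def wal (S : Finset Γ) (x : Γ → Bool) : ℝ := ∏ h ∈ S, sgn (x h)

theorem measurable_sgn (h : Γ) : Measurable fun x : Γ → Bool => sgn (x h) :=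
  (measurable_of_countable sgn).comp (measurable_pi_apply (X := fun _ : Γ => Bool) h)

theorem measurable_wal (S : Finset Γ) : Measurable (wal S) := by
  unfold wal
  exact Finset.measurable_prod _ fun h _ => measurable_sgn h

theorem wal_mul_self (S : Finset Γ) (x : Γ → Bool) : wal S x * wal S x = 1 := by
  unfold wal
  rw [← Finset.prod_mul_distrib]
  exact Finset.prod_eq_one fun h _ => sgn_sq _

theorem abs_wal (S : Finset Γ) (x : Γ → Bool) : |wal S x| = 1 := by
  have h1 := wal_mul_self S x
  have h2 : |wal S x| * |wal S x| = 1 := by rw [← abs_mul, h1, abs_one]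
  nlinarith [abs_nonneg (wal S x)]

theorem wal_empty (x : Γ → Bool) : wal (∅ : Finset Γ) x = 1 := by simp [wal]

/-- flipping one coordinate -/
noncomputable def flip (g : Γ) (x : Γ → Bool) : Γ → Bool := by
  classical
  exact fun h => if h = g then !(x h) else x h

theorem coin_not : coin.map (fun b => !b) = coin := by
  unfold coin
  rw [Measure.map_smul, Measure.map_add _ _ (measurable_of_countable _),
    Measure.map_dirac' (measurable_of_countable _), Measure.map_dirac' (measurable_of_countable _)]
  simp [add_comm]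

theorem measurable_flip (g : Γ) : Measurable (flip g) := by
  classical
  refine measurable_pi_lambda _ fun h => ?_
  by_cases hh : h = g
  · subst hh
    have : (fun x : Γ → Bool => flip h x h) = fun x => !(x h) := by
      funext x; simp [flip]
    rw [this]
    exact (measurable_of_countable (fun b : Bool => !b)).comp
      (measurable_pi_apply (X := fun _ : Γ => Bool) h)
  · have : (fun x : Γ → Bool => flip g x h) = fun x => x h := by
      funext x; simp [flip, hh]
    rw [this]
    exact measurable_pi_apply (X := fun _ : Γ => Bool) h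

theorem mp_flip (g : Γ) : MeasurePreserving (flip g) (bern Γ) (bern Γ) := by
  classical
  refine ⟨measurable_flip g, ?_⟩
  unfold bern iid
  refine Measure.eq_infinitePi _ ?_
  intro s t ht
  have hm : MeasurableSet ((↑s : Set Γ).pi t) :=
    MeasurableSet.pi s.countable_toSet fun i _ => ht i
  rw [Measure.map_apply (measurable_flip g) hm]
  have e : flip g ⁻¹' ((↑s : Set Γ).pi t) =
      (↑s : Set Γ).pi (fun i => if i = g then (fun b => !b) ⁻¹' (t i) else t i) := by
    ext x
    simp only [mem_preimage, Set.mem_pi, Finset.mem_coe]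
    refine forall₂_congr fun i _ => ?_
    by_cases h : i = g <;> simp [flip, h]
  rw [e, Measure.infinitePi_pi]
  · refine Finset.prod_congr rfl fun i _ => ?_
    by_cases h : i = g
    · simp only [h, if_true]
      conv_rhs => rw [← coin_not]
      rw [Measure.map_apply (measurable_of_countable _) (MeasurableSet.of_discrete)]
    · simp [h]
  · intro i _
    exact MeasurableSet.of_discrete

theorem wal_flip (g : Γ) (S : Finset Γ) (hg : g ∈ S) (x : Γ → Bool) :
    wal S (flip g x) = - wal S x := by
  classical
  unfold wal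
  rw [← Finset.mul_prod_erase S _ hg, ← Finset.mul_prod_erase S (fun h => sgn (x h)) hg]
  have h1 : sgn (flip g x g) = - sgn (x g) := by simp [flip, sgn_not]
  have h2 : ∏ h ∈ S.erase g, sgn (flip g x h) = ∏ h ∈ S.erase g, sgn (x h) := by
    refine Finset.prod_congr rfl fun h hh => ?_
    simp [flip, (Finset.mem_erase.1 hh).1]
  rw [h1, h2]
  ring

theorem integrable_wal (S : Finset Γ) : Integrable (wal S) (bern Γ) :=
  Integrable.of_bound (measurable_wal S).aestronglyMeasurable 1
    (Eventually.of_forall fun x => by rw [Real.norm_eq_abs, abs_wal])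

theorem integral_wal (S : Finset Γ) (hS : S ≠ ∅) : ∫ x, wal S x ∂(bern Γ) = 0 := by
  obtain ⟨g, hg⟩ := Finset.nonempty_iff_ne_empty.2 hS
  have h1 : ∫ x, wal S x ∂(bern Γ) = ∫ x, wal S (flip g x) ∂(bern Γ) := by
    have h2 := (mp_flip g).map_eq
    conv_lhs => rw [← h2]
    rw [integral_map (measurable_flip g).aemeasurable (measurable_wal S).aestronglyMeasurable]
  have h3 : ∫ x, wal S (flip g x) ∂(bern Γ) = - ∫ x, wal S x ∂(bern Γ) := by
    rw [← integral_neg]
    exact integral_congr_ae (Eventually.of_forall fun x => wal_flip g S hg x)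
  linarith

theorem wal_mul (S T : Finset Γ) [DecidableEq Γ] (x : Γ → Bool) :
    wal S x * wal T x = wal (S ∆ T) x := by
  unfold wal
  have h1 : ∏ h ∈ S, sgn (x h) = (∏ h ∈ S \ T, sgn (x h)) * ∏ h ∈ S ∩ T, sgn (x h) := by
    rw [← Finset.prod_union (Finset.disjoint_sdiff_inter S T), Finset.sdiff_union_inter]
  have h2 : ∏ h ∈ T, sgn (x h) = (∏ h ∈ T \ S, sgn (x h)) * ∏ h ∈ S ∩ T, sgn (x h) := by
    rw [Finset.inter_comm S T, ← Finset.prod_union (Finset.disjoint_sdiff_inter T S),
      Finset.sdiff_union_inter]
  have h3 : (∏ h ∈ S ∩ T, sgn (x h)) * ∏ h ∈ S ∩ T, sgn (x h) = 1 := wal_mul_self (S ∩ T) x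
  have h4 : ∏ h ∈ S ∆ T, sgn (x h) = (∏ h ∈ S \ T, sgn (x h)) * ∏ h ∈ T \ S, sgn (x h) := by
    rw [← Finset.prod_union]
    · rfl
    · exact disjoint_sdiff_sdiff
  rw [h1, h2, h4]
  linear_combination ((∏ h ∈ S \ T, sgn (x h)) * ∏ h ∈ T \ S, sgn (x h)) * h3

open Classical in
theorem integral_wal_mul (S T : Finset Γ) :
    ∫ x, wal S x * wal T x ∂(bern Γ) = if S = T then 1 else 0 := by
  by_cases h : S = T
  · subst h
    simp [wal_mul_self]
  · rw [if_neg h]
    simp only [wal_mul]
    refine integral_wal _ ?_
    intro h0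
    exact h (symmDiff_eq_bot.1 h0)

/-- Walsh coefficients -/
noncomputable def coef (f : (Γ → Bool) → ℝ) (S : Finset Γ) : ℝ := ∫ x, f x * wal S x ∂(bern Γ)

theorem integrable_mul_wal {f : (Γ → Bool) → ℝ} (hf : Integrable f (bern Γ)) (S : Finset Γ) :
    Integrable (fun x => f x * wal S x) (bern Γ) :=
  hf.mul_bdd (c := 1) (measurable_wal S).aestronglyMeasurable
    (Eventually.of_forall fun x => by rw [Real.norm_eq_abs, abs_wal])

/-- Bessel -/
theorem bessel {f : (Γ → Bool) → ℝ} (hf : Integrable f (bern Γ))
    (hf2 : Integrable (fun x => f x ^ 2) (bern Γ)) (P : Finset (Finset Γ)) :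
    ∑ S ∈ P, coef f S ^ 2 ≤ ∫ x, f x ^ 2 ∂(bern Γ) := by
  classical
  set p : (Γ → Bool) → ℝ := fun x => ∑ S ∈ P, coef f S * wal S x with hp
  have hpi : Integrable p (bern Γ) := integrable_finsetSum _ fun S _ => (integrable_wal S).const_mul _
  have hfp : Integrable (fun x => f x * p x) (bern Γ) := by
    have : (fun x => f x * p x) = fun x => ∑ S ∈ P, coef f S * (f x * wal S x) := by
      funext x
      rw [hp, Finset.mul_sum]
      exact Finset.sum_congr rfl fun S _ => by ring
    rw [this]
    exact integrable_finsetSum _ fun S _ => (integrable_mul_wal hf S).const_mul _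
  have e1 : ∫ x, f x * p x ∂(bern Γ) = ∑ S ∈ P, coef f S ^ 2 := by
    have : (fun x => f x * p x) = fun x => ∑ S ∈ P, coef f S * (f x * wal S x) := by
      funext x
      rw [hp, Finset.mul_sum]
      exact Finset.sum_congr rfl fun S _ => by ring
    rw [this, integral_finsetSum _ fun S _ => (integrable_mul_wal hf S).const_mul _]
    refine Finset.sum_congr rfl fun S _ => ?_
    rw [integral_const_mul, sq]
    rfl
  have hpw : ∀ S, Integrable (fun x => p x * wal S x) (bern Γ) := fun S => integrable_mul_wal hpi S
  have e0 : ∀ S ∈ P, ∫ x, p x * wal S x ∂(bern Γ) = coef f S := by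
    intro S hS
    have : (fun x => p x * wal S x) = fun x => ∑ T ∈ P, coef f T * (wal T x * wal S x) := by
      funext x
      rw [hp, Finset.sum_mul]
      exact Finset.sum_congr rfl fun T _ => by ring
    rw [this, integral_finsetSum _ fun T _ => (integrable_mul_wal (integrable_wal T) S).const_mul _]
    simp only [integral_const_mul, integral_wal_mul]
    simp [hS]
  have e2 : ∫ x, p x * p x ∂(bern Γ) = ∑ S ∈ P, coef f S ^ 2 := by
    have : (fun x => p x * p x) = fun x => ∑ S ∈ P, coef f S * (p x * wal S x) := by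
      funext x
      conv_lhs => rw [hp]
      simp only
      rw [Finset.mul_sum]
      exact Finset.sum_congr rfl fun S _ => by ring
    rw [this, integral_finsetSum _ fun S _ => (hpw S).const_mul _]
    refine Finset.sum_congr rfl fun S hS => ?_
    rw [integral_const_mul, e0 S hS, sq]
  have hpp : Integrable (fun x => p x * p x) (bern Γ) := by
    have : (fun x => p x * p x) = fun x => ∑ S ∈ P, coef f S * (p x * wal S x) := by
      funext x
      conv_lhs => rw [hp]
      simp only
      rw [Finset.mul_sum]
      exact Finset.sum_congr rfl fun S _ => by ring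
    rw [this]
    exact integrable_finsetSum _ fun S _ => (hpw S).const_mul _
  have h0 : 0 ≤ ∫ x, (f x - p x) ^ 2 ∂(bern Γ) := integral_nonneg fun x => sq_nonneg _
  have e3 : ∫ x, (f x - p x) ^ 2 ∂(bern Γ) = ∫ x, f x ^ 2 ∂(bern Γ) -
      2 * ∫ x, f x * p x ∂(bern Γ) + ∫ x, p x * p x ∂(bern Γ) := by
    have : (fun x => (f x - p x) ^ 2) = fun x => (f x ^ 2 - 2 * (f x * p x)) + p x * p x := by
      funext x; ring
    have hsub : Integrable (fun x => f x ^ 2 - 2 * (f x * p x)) (bern Γ) :=
      hf2.sub (hfp.const_mul 2)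
    rw [this, integral_add hsub hpp, integral_sub hf2 (hfp.const_mul 2), integral_const_mul]
  rw [e3, e1, e2] at h0
  linarith

theorem summable_coef {f : (Γ → Bool) → ℝ} (hf : Integrable f (bern Γ))
    (hf2 : Integrable (fun x => f x ^ 2) (bern Γ)) : Summable fun S => coef f S ^ 2 :=
  summable_of_sum_le (fun S => sq_nonneg _) (bessel hf hf2)

theorem tsum_coef_le {f : (Γ → Bool) → ℝ} (hf : Integrable f (bern Γ))
    (hf2 : Integrable (fun x => f x ^ 2) (bern Γ)) :
    ∑' S, coef f S ^ 2 ≤ ∫ x, f x ^ 2 ∂(bern Γ) :=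
  (summable_coef hf hf2).tsum_le_of_sum_le (bessel hf hf2)

end

end Pool.Agent.K9h22.Pmp
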