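import Pool.Agent.K9h22.PmpB

/-!
# Strong ergodicity of the Bernoulli shift of a nonamenable group
-/

set_option autoImplicit false

namespace Pool.Agent.K9h22.Pmp

open MeasureTheory Filter Topology Set
open Pool.Agent.R987.Bern
open scoped ENNReal symmDiff

section

variable {Γ : Type}

/-- indicator function with real values -/
noncomputable def ind (A : Set (Γ → Bool)) : (Γ → Bool) → ℝ := A.indicator fun _ => 1

theorem ind_sq (A : Set (Γ → Bool)) (x : Γ → Bool) : ind A x ^ 2 = ind A x := by
  unfold ind
  by_cases h : x ∈ A <;> simp [h]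

theorem measurable_ind {A : Set (Γ → Bool)} (hA : MeasurableSet A) : Measurable (ind A) :=
  measurable_const.indicator hA

theorem integrable_ind {A : Set (Γ → Bool)} (hA : MeasurableSet A) :
    Integrable (ind A) (bern Γ) :=
  (integrable_const (1 : ℝ)).indicator hA

theorem integral_ind {A : Set (Γ → Bool)} (hA : MeasurableSet A) :
    ∫ x, ind A x ∂(bern Γ) = (bern Γ).real A := by
  unfold ind
  rw [integral_indicator hA]
  simp

theorem ind_sub_sq (A B : Set (Γ → Bool)) (x : Γ → Bool) :
    (ind A x - ind B x) ^ 2 = ind (A ∆ B) x := by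
  unfold ind
  by_cases h : x ∈ A <;> by_cases h' : x ∈ B <;> simp [h, h', Set.mem_symmDiff]

theorem coef_sub {f g : (Γ → Bool) → ℝ} (hf : Integrable f (bern Γ)) (hg : Integrable g (bern Γ))
    (S : Finset Γ) : coef (fun x => f x - g x) S = coef f S - coef g S := by
  unfold coef
  rw [← integral_sub (integrable_mul_wal hf S) (integrable_mul_wal hg S)]
  refine integral_congr_ae (Eventually.of_forall fun x => ?_)
  simp only
  ring

theorem coef_empty {A : Set (Γ → Bool)} (hA : MeasurableSet A) :
    coef (ind A) ∅ = (bern Γ).real A := by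
  unfold coef
  simp only [wal_empty, mul_one]
  exact integral_ind hA

theorem summable_ind {A : Set (Γ → Bool)} (hA : MeasurableSet A) :
    Summable fun S => coef (ind A) S ^ 2 := by
  refine summable_coef (integrable_ind hA) ?_
  simp only [ind_sq]
  exact integrable_ind hA

theorem tsum_ind_le {A : Set (Γ → Bool)} (hA : MeasurableSet A) :
    ∑' S, coef (ind A) S ^ 2 ≤ 1 := by
  refine (tsum_coef_le (integrable_ind hA) ?_).trans ?_
  · simp only [ind_sq]
    exact integrable_ind hA
  · simp only [ind_sq]
    rw [integral_ind hA]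
    exact measureReal_le_one

theorem tsum_ind_sub_le {A B : Set (Γ → Bool)} (hA : MeasurableSet A) (hB : MeasurableSet B) :
    ∑' S, (coef (ind A) S - coef (ind B) S) ^ 2 ≤ (bern Γ).real (A ∆ B) := by
  have h1 := (integrable_ind hA).sub (integrable_ind hB)
  have h2 : Integrable (fun x => (ind A x - ind B x) ^ 2) (bern Γ) := by
    simp only [ind_sub_sq]
    exact integrable_ind (hA.symmDiff hB)
  have h3 := tsum_coef_le (f := fun x => ind A x - ind B x) h1 h2
  simp only [ind_sub_sq] at h3
  rw [integral_ind (hA.symmDiff hB)] at h3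
  refine le_trans (le_of_eq ?_) h3
  refine tsum_congr fun S => ?_
  rw [coef_sub (integrable_ind hA) (integrable_ind hB)]

/-- Parseval (the inequality needed) for cylinder sets -/
theorem parseval (F : Finset Γ) (S0 : Set (F → Bool)) :
    (bern Γ).real (F.restrict ⁻¹' S0) ≤ ∑' S, coef (ind (F.restrict ⁻¹' S0)) S ^ 2 := by
  classical
  set C : Set (Γ → Bool) := F.restrict ⁻¹' S0 with hC
  have hCm : MeasurableSet C := (Finset.measurable_restrict F) (MeasurableSet.of_discrete)
  let ext : (F → Bool) → (Γ → Bool) := fun y h => if hh : h ∈ F then y ⟨h, hh⟩ else false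
  let T0 : Finset (F → Bool) := Finset.univ.filter (fun y => y ∈ S0)
  let a : Finset Γ → ℝ := fun S => ∑ y ∈ T0, (2 : ℝ)⁻¹ ^ F.card * wal S (ext y)
  have hone : ∀ (x : Γ → Bool) (y : F → Bool),
      ∏ h ∈ F, ((2 : ℝ)⁻¹ * (1 + sgn (x h) * sgn (ext y h))) =
        if F.restrict x = y then 1 else 0 := by
    intro x y
    by_cases hxy : F.restrict x = y
    · rw [if_pos hxy]
      refine Finset.prod_eq_one fun h hh => ?_
      have : ext y h = x h := by
        simp only [ext, hh, dif_pos]
        rw [← hxy]
        rfl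
      rw [this, sgn_sq]
      norm_num
    · rw [if_neg hxy]
      have : ∃ h : F, F.restrict x h ≠ y h := by
        by_contra hcon
        push Not at hcon
        exact hxy (funext hcon)
      obtain ⟨⟨h, hh⟩, hne⟩ := this
      refine Finset.prod_eq_zero hh ?_
      have h1 : ext y h = y ⟨h, hh⟩ := by simp only [ext, hh, dif_pos]
      have h2 : x h ≠ ext y h := by
        rw [h1]; exact hne
      have h3 : x h = !(ext y h) := by
        cases hx : x h <;> cases hy : ext y h <;> simp_all
      rw [h3, sgn_not, neg_mul, sgn_sq]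
      norm_num
  have hexp : ∀ x : Γ → Bool, ind C x = ∑ S ∈ F.powerset, a S * wal S x := by
    intro x
    have h1 : ind C x = ∑ y ∈ T0, ∏ h ∈ F, ((2 : ℝ)⁻¹ * (1 + sgn (x h) * sgn (ext y h))) := by
      simp only [hone]
      rw [Finset.sum_ite_eq]
      unfold ind
      by_cases hx : x ∈ C
      · have : F.restrict x ∈ T0 := by simp [T0]; exact hx
        simp [hx, this]
      · have : F.restrict x ∉ T0 := by simp [T0]; exact hx
        simp [hx, this]
    rw [h1]
    have h2 : ∀ y, ∏ h ∈ F, ((2 : ℝ)⁻¹ * (1 + sgn (x h) * sgn (ext y h))) =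
        ∑ S ∈ F.powerset, (2 : ℝ)⁻¹ ^ F.card * wal S (ext y) * wal S x := by
      intro y
      rw [Finset.prod_mul_distrib, Finset.prod_const, Finset.prod_one_add, Finset.mul_sum]
      refine Finset.sum_congr rfl fun S _ => ?_
      rw [Finset.prod_mul_distrib]
      unfold wal
      ring
    simp only [h2]
    rw [Finset.sum_comm]
    refine Finset.sum_congr rfl fun S _ => ?_
    rw [Finset.sum_mul]
  have hcoef : ∀ T ∈ F.powerset, coef (ind C) T = a T := by
    intro T hT
    unfold coef
    have : (fun x => ind C x * wal T x) = fun x => ∑ S ∈ F.powerset, a S * (wal S x * wal T x) := by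
      funext x
      rw [hexp, Finset.sum_mul]
      exact Finset.sum_congr rfl fun S _ => by ring
    rw [this, integral_finsetSum _ fun S _ => (integrable_mul_wal (integrable_wal S) T).const_mul _]
    simp only [integral_const_mul, integral_wal_mul]
    rw [Finset.sum_eq_single T]
    · simp
    · intro S _ hS; simp [hS]
    · intro h; exact absurd hT h
  have hfin : (bern Γ).real C = ∑ S ∈ F.powerset, coef (ind C) S ^ 2 := by
    rw [← integral_ind hCm]
    have : (fun x => ind C x) = fun x => ∑ S ∈ F.powerset, a S * (ind C x * wal S x) := by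
      funext x
      conv_lhs => rw [← ind_sq, sq]
      conv_lhs => arg 2; rw [hexp]
      rw [Finset.mul_sum]
      exact Finset.sum_congr rfl fun S _ => by ring
    rw [this, integral_finsetSum _ fun S _ => (integrable_mul_wal (integrable_ind hCm) S).const_mul _]
    refine Finset.sum_congr rfl fun S hS => ?_
    rw [integral_const_mul, hcoef S hS, sq]
    congr 1
    exact hcoef S hS
  rw [hfin]
  exact (summable_ind hCm).sum_le_tsum _ fun S _ => sq_nonneg _

end

section

variable {Γ : Type} [Group Γ]

/-- the Bernoulli shift -/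
def shift (g : Γ) (x : Γ → Bool) : Γ → Bool := fun h => x (h * g)

theorem shift_one (x : Γ → Bool) : shift 1 x = x := by funext h; simp [shift]

theorem shift_mul (g k : Γ) (x : Γ → Bool) : shift (g * k) x = shift g (shift k x) := by
  funext h; simp [shift, mul_assoc]

theorem mp_shift (g : Γ) : MeasurePreserving (shift g) (bern Γ) (bern Γ) :=
  ⟨measurable_comp _, map_comp coin (fun h : Γ => h * g) (mul_left_injective g)⟩

theorem shift_image (g : Γ) (A : Set (Γ → Bool)) : shift g '' A = shift g⁻¹ ⁻¹' A := by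
  ext x
  constructor
  · rintro ⟨y, hy, rfl⟩
    change shift g⁻¹ (shift g y) ∈ A
    rw [← shift_mul, inv_mul_cancel, shift_one]
    exact hy
  · intro hx
    exact ⟨shift g⁻¹ x, hx, by rw [← shift_mul, mul_inv_cancel, shift_one]⟩

theorem measurable_image {A : Set (Γ → Bool)} (hA : MeasurableSet A) (g : Γ) :
    MeasurableSet (shift g '' A) := by
  rw [shift_image]
  exact (mp_shift _).measurable hA

theorem wal_shift (g : Γ) (S : Finset Γ) (x : Γ → Bool) : wal S (shift g x) = wal (tr g S) x := by
  unfold wal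
  rw [tr_apply, Finset.prod_map]
  rfl

theorem coef_image (g : Γ) {A : Set (Γ → Bool)} (hA : MeasurableSet A) (S : Finset Γ) :
    coef (ind (shift g '' A)) S = coef (ind A) (tr g S) := by
  unfold coef
  have h1 : ∫ x, ind (shift g '' A) x * wal S x ∂(bern Γ) =
      ∫ x, ind (shift g '' A) (shift g x) * wal S (shift g x) ∂(bern Γ) := by
    have h2 := (mp_shift g).map_eq
    conv_lhs => rw [← h2]
    rw [integral_map (mp_shift g).measurable.aemeasurable]
    exact ((measurable_ind (measurable_image hA g)).mul (measurable_wal S)).aestronglyMeasurable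
  rw [h1]
  refine integral_congr_ae (Eventually.of_forall fun x => ?_)
  simp only
  rw [wal_shift]
  congr 1
  unfold ind
  have : shift g x ∈ shift g '' A ↔ x ∈ A := by
    rw [shift_image]
    change shift g⁻¹ (shift g x) ∈ A ↔ x ∈ A
    rw [← shift_mul, inv_mul_cancel, shift_one]
  by_cases hx : x ∈ A
  · simp [hx, this.2 hx]
  · have h3 : shift g x ∉ shift g '' A := fun h => hx (this.1 h)
    rw [Set.indicator_of_notMem hx, Set.indicator_of_notMem h3]

theorem measure_image (g : Γ) {A : Set (Γ → Bool)} (hA : MeasurableSet A) :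
    (bern Γ).real (shift g '' A) = (bern Γ).real A := by
  rw [shift_image, measureReal_def, (mp_shift g⁻¹).measure_preimage hA.nullMeasurableSet]
  rfl

theorem real_symmDiff_triangle {A B C : Set (Γ → Bool)} :
    (bern Γ).real (A ∆ C) ≤ (bern Γ).real (A ∆ B) + (bern Γ).real (B ∆ C) := by
  refine (measureReal_mono ?_).trans (measureReal_union_le _ _)
  intro x hx
  simp only [Set.mem_symmDiff, mem_union] at hx ⊢
  tauto

/-- **Strong ergodicity** of the Bernoulli shift of a nonamenable group. -/
theorem strong (hΓ : ¬ Amenable Γ) (η : ℝ) (hη : 0 < η) :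
    ∃ (F : Finset Γ) (δ : ℝ), 0 < δ ∧ ∀ A : Set (Γ → Bool), MeasurableSet A →
      (∀ g ∈ F, (bern Γ).real ((shift g '' A) ∆ A) < δ) →
      (bern Γ).real A * (1 - (bern Γ).real A) < η := by
  classical
  by_contra hcon
  push Not at hcon
  apply hΓ
  refine amenable_of Γ fun F ε hε => ?_
  -- parameters
  obtain ⟨s, hs0, hs1, hs2⟩ : ∃ s : ℝ, 0 < s ∧ s ^ 2 < η / 2 ∧ 5 / 2 * s / (η / 2) ≤ ε := by
    refine ⟨min (min (1 / 2) (η / 2)) (ε * η / 10), ?_, ?_, ?_⟩
    · positivity
    · set s := min (min (1 / 2) (η / 2)) (ε * η / 10)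
      have h0 : 0 < s := by positivity
      have h1 : s ≤ 1 / 2 := (min_le_left _ _).trans (min_le_left _ _)
      have h2 : s ≤ η / 2 := (min_le_left _ _).trans (min_le_right _ _)
      nlinarith
    · rw [div_le_iff₀ (by positivity)]
      have h3 : min (min (1 / 2) (η / 2)) (ε * η / 10) ≤ ε * η / 10 := min_le_right _ _
      nlinarith [mul_pos hε hη]
  set δ := s ^ 2 / 3 with hδ
  have hδ0 : 0 < δ := by positivity
  obtain ⟨A, hA, hAF, hAη⟩ := hcon (F.image fun g => g⁻¹) δ hδ0
  obtain ⟨W, S0, -, hW⟩ := approx coin hA (ENNReal.ofReal_pos.2 hδ0)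
  set C : Set (Γ → Bool) := W.restrict ⁻¹' S0 with hC
  have hCm : MeasurableSet C := (Finset.measurable_restrict W) (MeasurableSet.of_discrete)
  have hCA : (bern Γ).real (C ∆ A) ≤ δ := by
    rw [measureReal_def]
    exact ENNReal.toReal_le_of_le_ofReal hδ0.le hW.le
  have hd : |(bern Γ).real C - (bern Γ).real A| ≤ δ :=
    (abs_measureReal_sub_le_measureReal_symmDiff (μ := bern Γ) hCm.nullMeasurableSet
      hA.nullMeasurableSet).trans hCA
  have c0 : 0 ≤ (bern Γ).real C := measureReal_nonneg
  have c1 : (bern Γ).real C ≤ 1 := measureReal_le_one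
  have a0 : 0 ≤ (bern Γ).real A := measureReal_nonneg
  have a1 : (bern Γ).real A ≤ 1 := measureReal_le_one
  have hQ0 : η / 2 ≤ (bern Γ).real C - (bern Γ).real C ^ 2 := by
    obtain ⟨d1, d2⟩ := abs_le.1 hd
    have hδη : δ ≤ η / 6 := by rw [hδ]; linarith
    nlinarith
  set Q : ℝ := ∑' S, coef (ind C) S ^ 2 - coef (ind C) ∅ ^ 2 with hQ
  have hQ1 : η / 2 ≤ Q := by
    rw [hQ, coef_empty hCm]
    have := parseval W S0
    rw [← hC] at this
    linarith
  have hQpos : 0 < Q := by linarith
  obtain ⟨m, hm, hinv⟩ := almost Γ (coef (ind C)) (summable_ind hCm) (tsum_ind_le hCm) Q hQpos hQ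
    F s hs0 (by
      intro g hg
      have e1 : ∀ S, coef (ind C) ((tr g).symm S) = coef (ind (shift g⁻¹ '' C)) S := by
        intro S
        rw [coef_image g⁻¹ hCm]
        rfl
      simp only [e1]
      refine (tsum_ind_sub_le (measurable_image hCm g⁻¹) hCm).trans ?_
      have t1 : (bern Γ).real ((shift g⁻¹ '' C) ∆ (shift g⁻¹ '' A)) ≤ δ := by
        have : (shift g⁻¹ '' C) ∆ (shift g⁻¹ '' A) = shift g⁻¹ '' (C ∆ A) := by
          simp only [shift_image]
          rfl
        rw [this, measure_image g⁻¹ (hCm.symmDiff hA)]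
        exact hCA
      have t2 : (bern Γ).real ((shift g⁻¹ '' A) ∆ A) < δ :=
        hAF g⁻¹ (Finset.mem_image_of_mem _ hg)
      have t3 : (bern Γ).real (A ∆ C) ≤ δ := by rw [symmDiff_comm]; exact hCA
      have t4 := real_symmDiff_triangle (A := shift g⁻¹ '' C) (B := shift g⁻¹ '' A) (C := A)
      have t5 := real_symmDiff_triangle (A := shift g⁻¹ '' C) (B := A) (C := C)
      rw [hδ] at t1 t2 t3
      linarith)
  refine ⟨m, hm, fun g hg B => (hinv g hg B).trans ?_⟩
  refine le_trans ?_ hs2
  exact div_le_div_of_nonneg_left (by positivity) (by positivity) hQ1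

end

end Pool.Agent.K9h22.Pmp
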