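import Pool.Agent.K9h22.PmpC
import Pool.Agent.Helper212.Iso
import Pool.Agent.W193.FI.Free

/-!
# Two weighted copies of the Bernoulli shift
-/

set_option autoImplicit false

namespace Pool.Agent.K9h22.Pmp

open MeasureTheory Filter Topology Set
open Pool.Agent.R987.Bern
open scoped ENNReal symmDiff

section

variable {Γ : Type} [Group Γ]

theorem amenable_of_finite [Finite Γ] : Amenable Γ := by
  refine ⟨fun A => (A.ncard : ℝ) / Nat.card Γ, fun A => by positivity, ?_, ?_, ?_⟩
  · have : (Nat.card Γ : ℝ) ≠ 0 := by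
      have := Nat.card_pos (α := Γ)
      positivity
    simp only [Set.ncard_univ]
    exact div_self this
  · intro A B h
    simp only
    rw [Set.ncard_union_eq h (Set.toFinite _) (Set.toFinite _)]
    push_cast
    ring
  · intro g A
    simp only
    rw [Set.ncard_image_of_injective A (mul_right_injective g)]

theorem infinite_of (hΓ : ¬ Amenable Γ) : Infinite Γ := by
  by_contra h
  rw [not_infinite_iff_finite] at h
  exact hΓ amenable_of_finite

theorem coin_true : coin {true} = 2⁻¹ := by simp [coin]

theorem coin_false : coin {false} = 2⁻¹ := by simp [coin]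

theorem coin_singleton (b : Bool) : coin {b} = 2⁻¹ := by
  cases b
  · exact coin_false
  · exact coin_true

theorem shift_free [Countable Γ] [Infinite Γ] (g : Γ) (hg : g ≠ 1) :
    ∀ᵐ x ∂(bern Γ), shift g x ≠ x := by
  have h := Pool.Agent.W193.FI.fixed_null (Γ := Γ) coin {true} MeasurableSet.of_discrete
    (by rw [coin_true]; simp) (by
      have : ({true} : Set Bool)ᶜ = {false} := by ext b; cases b <;> simp
      rw [this, coin_false]; simp) g hg
  rw [ae_iff]
  simp only [ne_eq, not_not]
  exact h

omit [Group Γ] in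
theorem bern_singleton [Infinite Γ] (x : Γ → Bool) : bern Γ {x} = 0 := by
  have key : ∀ n : ℕ, bern Γ {x} ≤ (2⁻¹ : ℝ≥0∞) ^ n := by
    intro n
    obtain ⟨F, -, hF⟩ := Infinite.exists_superset_card_eq (∅ : Finset Γ) n (by simp)
    have h1 : ({x} : Set (Γ → Bool)) ⊆ (↑F : Set Γ).pi fun i => {x i} := by
      rintro y rfl i _
      rfl
    refine (measure_mono h1).trans ?_
    unfold bern iid
    rw [Measure.infinitePi_pi _ (fun i _ => MeasurableSet.of_discrete)]
    rw [Finset.prod_congr rfl (fun i _ => coin_singleton (x i)), Finset.prod_const, hF]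
  refine le_antisymm (ge_of_tendsto' (ENNReal.tendsto_pow_atTop_nhds_zero_of_lt_one ?_) key) zero_le
  exact ENNReal.inv_lt_one.2 (by norm_num)

/-- weights `t`, `1 - t` -/
noncomputable def two (t : ℝ) : Measure Bool :=
  ENNReal.ofReal t • Measure.dirac true + ENNReal.ofReal (1 - t) • Measure.dirac false

theorem two_prob {t : ℝ} (h0 : 0 ≤ t) (h1 : t ≤ 1) : IsProbabilityMeasure (two t) := by
  constructor
  simp only [two, Measure.coe_add, Measure.coe_smul, Pi.add_apply, Pi.smul_apply, measure_univ,
    smul_eq_mul, mul_one]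
  rw [← ENNReal.ofReal_add h0 (by linarith)]
  simp

instance (t : ℝ) : IsFiniteMeasure (two t) := by
  constructor
  simp only [two, Measure.coe_add, Measure.coe_smul, Pi.add_apply, Pi.smul_apply, measure_univ,
    smul_eq_mul, mul_one]
  exact ENNReal.add_lt_top.2 ⟨ENNReal.ofReal_lt_top, ENNReal.ofReal_lt_top⟩

/-- two copies of the Bernoulli space with weights `t` and `1 - t` -/
noncomputable def nu (Γ : Type) (t : ℝ) : Measure ((Γ → Bool) × Bool) := (bern Γ).prod (two t)

instance (t : ℝ) : IsFiniteMeasure (nu Γ t) := by unfold nu; infer_instance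

theorem nu_prob {t : ℝ} (h0 : 0 ≤ t) (h1 : t ≤ 1) : IsProbabilityMeasure (nu Γ t) := by
  have := two_prob h0 h1
  unfold nu; infer_instance

/-- sections -/
def sec (E : Set ((Γ → Bool) × Bool)) (b : Bool) : Set (Γ → Bool) := (fun x => (x, b)) ⁻¹' E

omit [Group Γ] in
theorem measurable_sec {E : Set ((Γ → Bool) × Bool)} (hE : MeasurableSet E) (b : Bool) :
    MeasurableSet (sec E b) := by
  have : Measurable (fun x : Γ → Bool => (x, b)) := measurable_prodMk_right
  exact this hE

omit [Group Γ] in
theorem nu_real {t : ℝ} (h0 : 0 ≤ t) (h1 : t ≤ 1) {E : Set ((Γ → Bool) × Bool)}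
    (hE : MeasurableSet E) :
    (nu Γ t).real E = t * (bern Γ).real (sec E true) + (1 - t) * (bern Γ).real (sec E false) := by
  rw [measureReal_def]
  unfold nu
  rw [Measure.prod_apply_symm hE]
  unfold two
  rw [lintegral_add_measure, lintegral_smul_measure, lintegral_smul_measure, lintegral_dirac,
    lintegral_dirac]
  simp only [smul_eq_mul]
  rw [ENNReal.toReal_add, ENNReal.toReal_mul, ENNReal.toReal_mul, ENNReal.toReal_ofReal h0,
    ENNReal.toReal_ofReal (by linarith)]
  · rfl
  · exact ENNReal.mul_ne_top ENNReal.ofReal_ne_top (measure_ne_top _ _)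
  · exact ENNReal.mul_ne_top ENNReal.ofReal_ne_top (measure_ne_top _ _)

omit [Group Γ] in
theorem nu_singleton [Infinite Γ] (t : ℝ) (p : (Γ → Bool) × Bool) : nu Γ t {p} = 0 := by
  obtain ⟨x, b⟩ := p
  unfold nu
  rw [← Set.singleton_prod_singleton, Measure.prod_prod, bern_singleton, zero_mul]

/-- the action on two copies of the Bernoulli space -/
noncomputable def uact (Γ : Type) [Group Γ] (t : ℝ) : PmpAction Γ (nu Γ t) where
  act g p := (shift g p.1, p.2)
  one_act p := by simp [shift_one]
  mul_act g h p := by simp [shift_mul]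
  preserving g := (mp_shift g).prod (MeasurePreserving.id _)

theorem uact_free [Countable Γ] [Infinite Γ] (t : ℝ) : IsFree (uact Γ t) := by
  intro g hg
  have h := (Measure.quasiMeasurePreserving_fst (μ := bern Γ) (ν := two t)).ae (shift_free g hg)
  filter_upwards [h] with p hp h2
  exact hp (congrArg Prod.fst h2)

theorem sec_image (t : ℝ) (g : Γ) (B : Set ((Γ → Bool) × Bool)) (b : Bool) :
    sec ((uact Γ t).act g '' B) b = shift g '' (sec B b) := by
  ext x
  constructor
  · rintro ⟨⟨y, c⟩, hy, h⟩
    have h1 : shift g y = x := congrArg Prod.fst h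
    have h2 : c = b := congrArg Prod.snd h
    subst h2
    exact ⟨y, hy, h1⟩
  · rintro ⟨y, hy, rfl⟩
    exact ⟨(y, b), hy, rfl⟩

omit [Group Γ] in
theorem sec_inter (A B : Set ((Γ → Bool) × Bool)) (b : Bool) :
    sec (A ∩ B) b = sec A b ∩ sec B b := rfl

theorem measurable_uimage (t : ℝ) (g : Γ) {B : Set ((Γ → Bool) × Bool)} (hB : MeasurableSet B) :
    MeasurableSet ((uact Γ t).act g '' B) := by
  have : (uact Γ t).act g '' B = (uact Γ t).act g⁻¹ ⁻¹' B := by
    ext x
    constructor
    · rintro ⟨y, hy, rfl⟩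
      change (uact Γ t).act g⁻¹ ((uact Γ t).act g y) ∈ B
      rw [← (uact Γ t).mul_act, inv_mul_cancel, (uact Γ t).one_act]
      exact hy
    · intro hx
      exact ⟨(uact Γ t).act g⁻¹ x, hx, by
        rw [← (uact Γ t).mul_act, mul_inv_cancel, (uact Γ t).one_act]⟩
  rw [this]
  exact ((uact Γ t).preserving g⁻¹).measurable hB

theorem symm_eq (g : Γ) {B : Set (Γ → Bool)} (hB : MeasurableSet B) :
    (bern Γ).real ((shift g '' B) ∆ B) =
      2 * ((bern Γ).real B - (bern Γ).real ((shift g '' B) ∩ B)) := by
  have hB' := measurable_image hB g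
  have h1 : (bern Γ).real ((shift g '' B) ∆ B) =
      (bern Γ).real ((shift g '' B) \ B) + (bern Γ).real (B \ (shift g '' B)) := by
    rw [← measureReal_union _ (hB.diff hB')]
    · rfl
    · rw [Set.disjoint_left]
      rintro x ⟨hx, _⟩ ⟨_, h2⟩
      exact h2 hx
  have h2 : (bern Γ).real ((shift g '' B) \ B) + (bern Γ).real ((shift g '' B) ∩ B) =
      (bern Γ).real (shift g '' B) := measureReal_diff_add_inter hB
  have h3 : (bern Γ).real (B \ (shift g '' B)) + (bern Γ).real (B ∩ (shift g '' B)) =
      (bern Γ).real B := measureReal_diff_add_inter hB'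
  rw [measure_image g hB] at h2
  rw [Set.inter_comm] at h3
  rw [h1]
  linarith

/-- The measures of the almost invariant sets of the action with weights `s`, `1 - s`. -/
theorem ai_values (hΓ : ¬ Amenable Γ) (s : ℝ) (hs0 : 0 < s) (hs1 : s < 1) (r : ℝ)
    (h : ∀ (F : Finset Γ) (ε : ℝ), 0 < ε → ∃ B : Set ((Γ → Bool) × Bool), MeasurableSet B ∧
      |(nu Γ s).real B - r| < ε ∧
      ∀ g ∈ F, |(nu Γ s).real ((uact Γ s).act g '' B ∩ B) - r| < ε) :
    r = 0 ∨ r = s ∨ r = 1 - s ∨ r = 1 := by
  by_contra hcon
  push Not at hcon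
  obtain ⟨n1, n2, n3, n4⟩ := hcon
  obtain ⟨d, hd, d1, d2, d3, d4⟩ : ∃ d : ℝ, 0 < d ∧ d ≤ |r| ∧ d ≤ |r - s| ∧ d ≤ |r - (1 - s)| ∧
      d ≤ |r - 1| := by
    refine ⟨min (min |r| |r - s|) (min |r - (1 - s)| |r - 1|), ?_, ?_, ?_, ?_, ?_⟩
    · have a1 : 0 < |r| := abs_pos.2 n1
      have a2 : 0 < |r - s| := abs_pos.2 (sub_ne_zero.2 n2)
      have a3 : 0 < |r - (1 - s)| := abs_pos.2 (sub_ne_zero.2 n3)
      have a4 : 0 < |r - 1| := abs_pos.2 (sub_ne_zero.2 n4)
      positivity
    · exact (min_le_left _ _).trans (min_le_left _ _)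
    · exact (min_le_left _ _).trans (min_le_right _ _)
    · exact (min_le_right _ _).trans (min_le_left _ _)
    · exact (min_le_right _ _).trans (min_le_right _ _)
  obtain ⟨F, δ, hδ, hF⟩ := strong hΓ (d / 8) (by positivity)
  set m := min s (1 - s) with hm
  have hm0 : 0 < m := lt_min hs0 (by linarith)
  have hms : m ≤ s := min_le_left _ _
  have hms' : m ≤ 1 - s := min_le_right _ _
  obtain ⟨B, hB, hBr, hBF⟩ := h F (min (d / 8) (δ * m / 4)) (by positivity)
  have hε1 : min (d / 8) (δ * m / 4) ≤ d / 8 := min_le_left _ _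
  have hε2 : min (d / 8) (δ * m / 4) ≤ δ * m / 4 := min_le_right _ _
  have hsec : ∀ g ∈ F, ∀ b, (bern Γ).real ((shift g '' (sec B b)) ∆ (sec B b)) < δ := by
    intro g hg b
    have e1 := nu_real (Γ := Γ) hs0.le hs1.le hB
    have e2 := nu_real (Γ := Γ) hs0.le hs1.le ((measurable_uimage s g hB).inter hB)
    rw [sec_inter, sec_inter, sec_image, sec_image] at e2
    have f1 := symm_eq g (measurable_sec hB true)
    have f2 := symm_eq g (measurable_sec hB false)
    have g1 : 0 ≤ (bern Γ).real ((shift g '' (sec B true)) ∆ (sec B true)) := measureReal_nonneg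
    have g2 : 0 ≤ (bern Γ).real ((shift g '' (sec B false)) ∆ (sec B false)) := measureReal_nonneg
    have k1 := abs_lt.1 hBr
    have k2 := abs_lt.1 (hBF g hg)
    have k3 : s * (bern Γ).real ((shift g '' (sec B true)) ∆ (sec B true)) +
        (1 - s) * (bern Γ).real ((shift g '' (sec B false)) ∆ (sec B false)) < δ * m := by
      rw [f1, f2]
      have : s * (2 * ((bern Γ).real (sec B true) -
            (bern Γ).real ((shift g '' (sec B true)) ∩ sec B true))) +
          (1 - s) * (2 * ((bern Γ).real (sec B false) -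
            (bern Γ).real ((shift g '' (sec B false)) ∩ sec B false))) =
          2 * ((nu Γ s).real B - (nu Γ s).real ((uact Γ s).act g '' B ∩ B)) := by
        rw [e1, e2]; ring
      rw [this]
      linarith [k1.2, k2.1]
    cases b
    · have : m * (bern Γ).real ((shift g '' (sec B false)) ∆ (sec B false)) < m * δ := by
        calc m * (bern Γ).real ((shift g '' (sec B false)) ∆ (sec B false)) ≤
            (1 - s) * (bern Γ).real ((shift g '' (sec B false)) ∆ (sec B false)) :=
              mul_le_mul_of_nonneg_right hms' g2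
          _ ≤ s * (bern Γ).real ((shift g '' (sec B true)) ∆ (sec B true)) +
            (1 - s) * (bern Γ).real ((shift g '' (sec B false)) ∆ (sec B false)) := by
              have := mul_nonneg hs0.le g1
              linarith
          _ < m * δ := by rw [mul_comm m δ]; exact k3
      exact lt_of_mul_lt_mul_left this hm0.le
    · have : m * (bern Γ).real ((shift g '' (sec B true)) ∆ (sec B true)) < m * δ := by
        calc m * (bern Γ).real ((shift g '' (sec B true)) ∆ (sec B true)) ≤
            s * (bern Γ).real ((shift g '' (sec B true)) ∆ (sec B true)) :=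
              mul_le_mul_of_nonneg_right hms g1
          _ ≤ s * (bern Γ).real ((shift g '' (sec B true)) ∆ (sec B true)) +
            (1 - s) * (bern Γ).real ((shift g '' (sec B false)) ∆ (sec B false)) := by
              have := mul_nonneg (by linarith : (0:ℝ) ≤ 1 - s) g2
              linarith
          _ < m * δ := by rw [mul_comm m δ]; exact k3
      exact lt_of_mul_lt_mul_left this hm0.le
  have hu := hF (sec B true) (measurable_sec hB true) fun g hg => hsec g hg true
  have hv := hF (sec B false) (measurable_sec hB false) fun g hg => hsec g hg false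
  have e1 := nu_real (Γ := Γ) hs0.le hs1.le hB
  set u := (bern Γ).real (sec B true) with hu'
  set v := (bern Γ).real (sec B false) with hv'
  have u0 : 0 ≤ u := measureReal_nonneg
  have u1 : u ≤ 1 := measureReal_le_one
  have v0 : 0 ≤ v := measureReal_nonneg
  have v1 : v ≤ 1 := measureReal_le_one
  have hval : ∀ w : ℝ, 0 ≤ w → w ≤ 1 → w * (1 - w) < d / 8 →
      (|w| ≤ d / 4 ∨ |w - 1| ≤ d / 4) := by
    intro w w0 w1 hw
    rcases le_total w (1 / 2) with h2 | h2
    · left
      rw [abs_of_nonneg w0]
      nlinarith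
    · right
      rw [abs_sub_comm, abs_of_nonneg (by linarith)]
      nlinarith
  have hr := abs_lt.1 (lt_of_lt_of_le hBr hε1)
  rw [e1] at hr
  have hbd : ∀ e f : ℝ, |u - e| ≤ d / 4 → |v - f| ≤ d / 4 → |r - (s * e + (1 - s) * f)| < d := by
    intro e f he hf
    have h1 : r - (s * e + (1 - s) * f) =
        -(s * u + (1 - s) * v - r) + s * (u - e) + (1 - s) * (v - f) := by ring
    have h2 : |s * (u - e)| ≤ d / 4 := by
      rw [abs_mul, abs_of_pos hs0]
      nlinarith [abs_nonneg (u - e)]
    have h3 : |(1 - s) * (v - f)| ≤ d / 4 := by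
      rw [abs_mul, abs_of_pos (by linarith : (0:ℝ) < 1 - s)]
      nlinarith [abs_nonneg (v - f)]
    obtain ⟨h21, h22⟩ := abs_le.1 h2
    obtain ⟨h31, h32⟩ := abs_le.1 h3
    rw [h1, abs_lt]
    constructor <;> linarith [hr.1, hr.2]
  rcases hval u u0 u1 hu with hu2 | hu2 <;> rcases hval v v0 v1 hv with hv2 | hv2
  · have := hbd 0 0 (by simpa using hu2) (by simpa using hv2)
    simp only [mul_zero, add_zero, sub_zero] at this
    linarith
  · have := hbd 0 1 (by simpa using hu2) hv2
    simp only [mul_zero, zero_add, mul_one] at this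
    linarith
  · have := hbd 1 0 hu2 (by simpa using hv2)
    simp only [mul_zero, add_zero, mul_one] at this
    linarith
  · have := hbd 1 1 hu2 hv2
    simp only [mul_one] at this
    have h5 : s + (1 - s) = 1 := by ring
    rw [h5] at this
    linarith

end

end Pool.Agent.K9h22.Pmp
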