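import Mathlib

/-!
# Probability measure preserving actions, weak containment, antichains of free actions
-/

set_option autoImplicit false

namespace Pool.Agent.K9h22.Pmp

open MeasureTheory

/-- A group is amenable if there is a finitely additive, left invariant probability defined on
all of its subsets. -/
def Amenable (Γ : Type) [Group Γ] : Prop :=
  ∃ m : Set Γ → ℝ, (∀ A, 0 ≤ m A) ∧ m Set.univ = 1 ∧
    (∀ A B, Disjoint A B → m (A ∪ B) = m A + m B) ∧
    ∀ (g : Γ) (A : Set Γ), m ((fun h => g * h) '' A) = m A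

/-- A probability measure preserving action of `Γ` on `(X, μ)`, by Borel maps. -/
structure PmpAction (Γ : Type) [Group Γ] {X : Type} [MeasurableSpace X] (μ : Measure X) where
  /-- the action -/
  act : Γ → X → X
  one_act : ∀ x, act 1 x = x
  mul_act : ∀ g h x, act (g * h) x = act g (act h x)
  preserving : ∀ g, MeasurePreserving (act g) μ μ

section

variable {Γ : Type} [Group Γ] {X : Type} [MeasurableSpace X] {μ : Measure X}

/-- The action is free: `g x ≠ x` for all `g ≠ 1` and almost every `x`. -/
def IsFree (a : PmpAction Γ μ) : Prop := ∀ g : Γ, g ≠ 1 → ∀ᵐ x ∂μ, a.act g x ≠ x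

/-- `b` is weakly contained in `a` (Kechris). -/
def WeaklyContained (b a : PmpAction Γ μ) : Prop :=
  ∀ (F : Finset Γ) (ε : ℝ), 0 < ε → ∀ (n : ℕ) (A : Fin n → Set X), (∀ i, MeasurableSet (A i)) →
    ∃ B : Fin n → Set X, (∀ i, MeasurableSet (B i)) ∧
      ∀ g ∈ F, ∀ i j, |μ.real (b.act g '' A i ∩ A j) - μ.real (a.act g '' B i ∩ B j)| < ε

/-- An antichain of free actions: any two distinct members are incomparable. -/
def IsFreeAntichain (S : Set (PmpAction Γ μ)) : Prop :=
  (∀ a ∈ S, IsFree a) ∧ ∀ a ∈ S, ∀ b ∈ S, a ≠ b → ¬ WeaklyContained b a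

end

/-- The width of the class of free actions of `Γ` on `(X, μ)`: the supremum of the cardinalities
of its antichains. -/
noncomputable def width (Γ : Type) [Group Γ] {X : Type} [MeasurableSpace X] (μ : Measure X) :
    Cardinal :=
  sSup {c | ∃ S : Set (PmpAction Γ μ), IsFreeAntichain S ∧ Cardinal.mk S = c}

end Pool.Agent.K9h22.Pmp
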