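import Pool.Agent.K9h22.PmpD

/-!
# The width of the class of free actions of a nonamenable group
-/

set_option autoImplicit false

namespace Pool.Agent.K9h22.Pmp

open MeasureTheory Filter Topology Set
open scoped ENNReal

section transport

variable {Γ : Type} [Group Γ] {X Y : Type} [MeasurableSpace X] [MeasurableSpace Y]
  {μ : Measure X} {ν : Measure Y}

theorem mp_symm (e : X ≃ᵐ Y) (he : MeasurePreserving e μ ν) : MeasurePreserving e.symm ν μ :=
  he.symm e

/-- transport of an action along an isomorphism -/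
def transport (e : X ≃ᵐ Y) (he : MeasurePreserving e μ ν) (a : PmpAction Γ ν) :
    PmpAction Γ μ where
  act g x := e.symm (a.act g (e x))
  one_act x := by simp [a.one_act]
  mul_act g h x := by simp [a.mul_act]
  preserving g := (mp_symm e he).comp ((a.preserving g).comp he)

theorem transport_free (e : X ≃ᵐ Y) (he : MeasurePreserving e μ ν) (a : PmpAction Γ ν)
    (ha : IsFree a) : IsFree (transport e he a) := by
  intro g hg
  have h := he.quasiMeasurePreserving.ae (ha g hg)
  filter_upwards [h] with x hx h2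
  apply hx
  have h3 : e (e.symm (a.act g (e x))) = e x := congrArg e h2
  simpa using h3

theorem transport_image (e : X ≃ᵐ Y) (he : MeasurePreserving e μ ν) (a : PmpAction Γ ν) (g : Γ)
    (B : Set Y) : (transport e he a).act g '' (e ⁻¹' B) = e ⁻¹' (a.act g '' B) := by
  ext x
  constructor
  · rintro ⟨y, hy, rfl⟩
    change e (e.symm (a.act g (e y))) ∈ a.act g '' B
    rw [MeasurableEquiv.apply_symm_apply]
    exact ⟨e y, hy, rfl⟩
  · rintro ⟨y, hy, hyx⟩
    refine ⟨e.symm y, ?_, ?_⟩
    · change e (e.symm y) ∈ B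
      rwa [MeasurableEquiv.apply_symm_apply]
    · change e.symm (a.act g (e (e.symm y))) = x
      rw [MeasurableEquiv.apply_symm_apply, hyx, MeasurableEquiv.symm_apply_apply]

theorem real_preimage (e : X ≃ᵐ Y) (he : MeasurePreserving e μ ν) (B : Set Y) :
    μ.real (e ⁻¹' B) = ν.real B := by
  rw [measureReal_def, measureReal_def, he.measure_preimage_equiv]

end transport

section

variable {Γ : Type} [Group Γ] {X : Type} [MeasurableSpace X] {μ : Measure X}

theorem WeaklyContained.refl (a : PmpAction Γ μ) : WeaklyContained a a := by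
  intro F ε hε n A hA
  exact ⟨A, hA, fun g _ i j => by simpa using hε⟩

/-- incomparability -/
theorem not_wc (hΓ : ¬ Amenable Γ) {s t : ℝ} (hs0 : 0 < s) (hs1 : s < 1 / 2) (ht0 : 0 < t)
    (ht1 : t < 1 / 2) (hst : s ≠ t) (e : X ≃ᵐ ((Γ → Bool) × Bool))
    (he : MeasurePreserving e μ (nu Γ s)) (f : X ≃ᵐ ((Γ → Bool) × Bool))
    (hf : MeasurePreserving f μ (nu Γ t)) :
    ¬ WeaklyContained (transport f hf (uact Γ t)) (transport e he (uact Γ s)) := by
  classical
  intro h
  -- the invariant set
  let A0 : Set ((Γ → Bool) × Bool) := {p | p.2 = true}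
  have hA0 : MeasurableSet A0 := measurable_snd (MeasurableSet.of_discrete (s := {true}))
  have hA0inv : ∀ g, (uact Γ t).act g '' A0 = A0 := by
    intro g
    ext p
    constructor
    · rintro ⟨q, hq, rfl⟩
      exact hq
    · intro hp
      refine ⟨(shift g⁻¹ p.1, p.2), hp, ?_⟩
      change (shift g (shift g⁻¹ p.1), p.2) = p
      rw [← shift_mul, mul_inv_cancel, shift_one]
  have hA0m : (nu Γ t).real A0 = t := by
    rw [nu_real ht0.le (by linarith) hA0]
    have h1 : sec A0 true = univ := by ext x; simp [sec, A0]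
    have h2 : sec A0 false = ∅ := by ext x; simp [sec, A0]
    rw [h1, h2]
    simp
  have key := ai_values hΓ s hs0 (by linarith) t (by
    intro F ε hε
    obtain ⟨B, hB, hBF⟩ := h (insert 1 F) ε hε 1 (fun _ => f ⁻¹' A0)
      (fun _ => f.measurable hA0)
    refine ⟨e.symm ⁻¹' (B 0), e.symm.measurable (hB 0), ?_, ?_⟩
    · have h1 := hBF 1 (Finset.mem_insert_self _ _) 0 0
      rw [transport_image f hf, hA0inv, Set.inter_self, real_preimage f hf, hA0m] at h1
      have h2 : (transport e he (uact Γ s)).act 1 '' B 0 ∩ B 0 = B 0 := by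
        have : (transport e he (uact Γ s)).act 1 '' B 0 = B 0 := by
          ext x
          simp [(transport e he (uact Γ s)).one_act]
        rw [this, Set.inter_self]
      rw [h2, abs_sub_comm] at h1
      rwa [real_preimage e.symm (mp_symm e he)]
    · intro g hg
      have h1 := hBF g (Finset.mem_insert_of_mem hg) 0 0
      rw [transport_image f hf, hA0inv, Set.inter_self, real_preimage f hf, hA0m] at h1
      have h3 : e ⁻¹' (e.symm ⁻¹' (B 0)) = B 0 := by
        ext x; simp
      have h2 : (transport e he (uact Γ s)).act g '' B 0 ∩ B 0 =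
          e ⁻¹' ((uact Γ s).act g '' (e.symm ⁻¹' (B 0)) ∩ (e.symm ⁻¹' (B 0))) := by
        rw [Set.preimage_inter, ← transport_image e he, h3]
      rw [h2, real_preimage e he, abs_sub_comm] at h1
      exact h1)
  rcases key with h | h | h | h
  · linarith
  · exact hst h.symm
  · linarith
  · linarith

variable (Γ μ) in
/-- the continuum of free incomparable actions -/
theorem exists_family [Countable Γ] (hΓ : ¬ Amenable Γ) [StandardBorelSpace X]
    [IsProbabilityMeasure μ] (hμ : ∀ x, μ {x} = 0) :
    ∃ a : ℝ → PmpAction Γ μ, (∀ r, IsFree (a r)) ∧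
      ∀ r s, r ≠ s → ¬ WeaklyContained (a r) (a s) := by
  have := infinite_of hΓ
  have : NullSingletonClass μ := ⟨hμ⟩
  obtain ⟨i⟩ : Nonempty (ℝ ≃ Ioo (0 : ℝ) (1 / 2)) := by
    rw [← Cardinal.eq, Cardinal.mk_real, Cardinal.mk_Ioo_real (by norm_num)]
  have hiso : ∀ r : ℝ, ∃ e : X ≃ᵐ ((Γ → Bool) × Bool),
      MeasurePreserving e μ (nu Γ (i r : ℝ)) := by
    intro r
    have h0 := (i r).2.1
    have h1 := (i r).2.2
    have := nu_prob (Γ := Γ) h0.le (by linarith : ((i r : ℝ)) ≤ 1)
    have : NullSingletonClass (nu Γ (i r : ℝ)) := ⟨fun p => nu_singleton _ p⟩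
    obtain ⟨e1, he1⟩ := Pool.Agent.Helper212.Sq.exists_mp_equiv μ
    obtain ⟨e2, he2⟩ := Pool.Agent.Helper212.Sq.exists_mp_equiv (nu Γ (i r : ℝ))
    exact ⟨e1.trans e2.symm, (mp_symm e2 he2).comp he1⟩
  choose e he using hiso
  refine ⟨fun r => transport (e r) (he r) (uact Γ (i r : ℝ)),
    fun r => transport_free _ _ _ (uact_free _), fun r s hrs => ?_⟩
  refine not_wc hΓ (i s).2.1 (i s).2.2 (i r).2.1 (i r).2.2 ?_ _ _ _ _
  intro h
  exact hrs (i.injective (Subtype.ext h.symm))

variable (Γ μ) in
/-- there are at most continuum many actions -/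
theorem card_le [Countable Γ] [StandardBorelSpace X] :
    Cardinal.mk (PmpAction Γ μ) ≤ Cardinal.continuum := by
  classical
  let M := {s : Set X // MeasurableSet s}
  have hM : Cardinal.mk M ≤ Cardinal.continuum := by
    obtain ⟨b, hb, hX⟩ := MeasurableSpace.CountablyGenerated.isCountablyGenerated (α := X)
    have := MeasurableSpace.cardinal_measurableSet_le_continuum (s := b)
      ((Cardinal.le_aleph0_iff_set_countable.2 hb).trans Cardinal.aleph0_le_continuum)
    have h2 : M = {t // @MeasurableSet X (MeasurableSpace.generateFrom b) t} := by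
      rw [← hX]
    rw [h2]
    exact this
  let φ : PmpAction Γ μ → (Γ → ℕ → M) := fun a g n =>
    ⟨{x | MeasurableSpace.mapNatBool X (a.act g x) n = true}, by
      have h1 : Measurable fun x => MeasurableSpace.mapNatBool X (a.act g x) n :=
        (measurable_pi_apply (X := fun _ : ℕ => Bool) n).comp
          ((MeasurableSpace.measurable_mapNatBool X).comp (a.preserving g).measurable)
      exact h1 (MeasurableSet.of_discrete (s := {true}))⟩
  have hφ : Function.Injective φ := by
    intro a b hab
    have h1 : a.act = b.act := by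
      funext g x
      apply MeasurableSpace.injective_mapNatBool X
      funext n
      have h2 : (φ a g n).1 = (φ b g n).1 := by rw [hab]
      have h3 : (MeasurableSpace.mapNatBool X (a.act g x) n = true) ↔
          (MeasurableSpace.mapNatBool X (b.act g x) n = true) := Set.ext_iff.1 h2 x
      exact Bool.eq_iff_iff.2 h3
    cases a; cases b
    simp only at h1
    subst h1
    rfl
  refine (Cardinal.mk_le_of_injective hφ).trans ?_
  rw [← Cardinal.power_def, ← Cardinal.power_def]
  have h3 : Cardinal.mk M ^ Cardinal.mk ℕ ≤ Cardinal.continuum := by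
    rw [Cardinal.mk_nat]
    calc Cardinal.mk M ^ Cardinal.aleph0 ≤ Cardinal.continuum ^ Cardinal.aleph0 :=
          Cardinal.power_le_power_right hM
      _ = Cardinal.continuum := Cardinal.continuum_power_aleph0
  calc (Cardinal.mk M ^ Cardinal.mk ℕ) ^ Cardinal.mk Γ ≤ Cardinal.continuum ^ Cardinal.mk Γ :=
        Cardinal.power_le_power_right h3
    _ ≤ Cardinal.continuum ^ Cardinal.aleph0 :=
        Cardinal.power_le_power_left Cardinal.continuum_ne_zero (Cardinal.mk_le_aleph0)
    _ = Cardinal.continuum := Cardinal.continuum_power_aleph0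

variable (Γ μ) in
theorem width_eq [Countable Γ] (hΓ : ¬ Amenable Γ) [StandardBorelSpace X]
    [IsProbabilityMeasure μ] (hμ : ∀ x, μ {x} = 0) : width Γ μ = Cardinal.continuum := by
  obtain ⟨a, ha1, ha2⟩ := exists_family Γ μ hΓ hμ
  have hinj : Function.Injective a := by
    intro r s hrs
    by_contra hne
    refine ha2 r s hne ?_
    rw [hrs]
    exact WeaklyContained.refl _
  have hbd : ∀ c ∈ {c | ∃ S : Set (PmpAction Γ μ), IsFreeAntichain S ∧ Cardinal.mk S = c},
      c ≤ Cardinal.continuum := by
    rintro c ⟨S, -, rfl⟩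
    exact (Cardinal.mk_set_le S).trans (card_le Γ μ)
  refine le_antisymm ?_ ?_
  · exact csSup_le' hbd
  · refine le_csSup ⟨_, hbd⟩ ⟨Set.range a, ⟨?_, ?_⟩, ?_⟩
    · rintro _ ⟨r, rfl⟩
      exact ha1 r
    · rintro _ ⟨r, rfl⟩ _ ⟨s, rfl⟩ hne
      exact ha2 s r fun h => hne (by rw [h])
    · rw [Cardinal.mk_range_eq a hinj, Cardinal.mk_real]

end

end Pool.Agent.K9h22.Pmp
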